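import Mathlib

/-!
Chains of lists of points in a metric space, at small scales (Vietoris type homology).
-/

open Finsupp

namespace Pool.Agent.P.MP_233bd3_co

noncomputable section

variable {K : Type} [Field K] {X Y : Type}

/-- Chains of lists. -/
abbrev LC (K : Type) [Field K] (X : Type) : Type := List X →₀ K

/-- Cone with apex `x`. -/
def cone (x : X) : LC K X →ₗ[K] LC K X := lmapDomain K K (List.cons x)

/-- Image of a chain under a map of points. -/
def lmap (f : X → Y) : LC K X →ₗ[K] LC K Y := lmapDomain K K (List.map f)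

@[simp] theorem cone_single (x : X) (l : List X) (a : K) :
    cone x (single l a) = single (x :: l) a := by simp [cone]

@[simp] theorem lmap_single (f : X → Y) (l : List X) (a : K) :
    lmap f (single l a) = single (l.map f) a := by simp [lmap]

variable (K) in
/-- Boundary of a list. -/
def bdl : List X → LC K X
  | [] => 0
  | x :: l => single l 1 - cone x (bdl l)

/-- Boundary of a chain. -/
def bd : LC K X →ₗ[K] LC K X := linearCombination K (bdl K)

theorem bd_single (l : List X) : bd (single l (1 : K)) = bdl K l := by simp [bd]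

theorem lc_ext {M : Type} [AddCommGroup M] [Module K M] {ι : Type} {f g : (ι →₀ K) →ₗ[K] M}
    (h : ∀ l, f (single l 1) = g (single l 1)) (c : ι →₀ K) : f c = g c := by
  have : f = g := by
    refine Finsupp.lhom_ext' fun l => LinearMap.ext_ring ?_
    simpa using h l
  rw [this]

theorem bd_cone (x : X) (c : LC K X) : bd (cone x c) = c - cone x (bd c) :=
  lc_ext (f := bd ∘ₗ cone x) (g := LinearMap.id - cone x ∘ₗ bd)
    (fun l => by simp [bd_single, bdl]) c

theorem bd_bdl (l : List X) : bd (bdl K l) = 0 := by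
  induction l with
  | nil => simp [bdl]
  | cons x l ih => simp [bdl, bd_single, bd_cone, ih]

theorem bd_bd (c : LC K X) : bd (bd c) = 0 :=
  lc_ext (f := bd ∘ₗ bd) (g := 0) (fun l => by simp [bd_single, bd_bdl]) c

theorem lmap_cone (f : X → Y) (x : X) (c : LC K X) : lmap f (cone x c) = cone (f x) (lmap f c) :=
  lc_ext (f := lmap f ∘ₗ cone x) (g := cone (f x) ∘ₗ lmap f) (fun l => by simp) c

theorem bd_lmap (f : X → Y) (c : LC K X) : bd (lmap f c) = lmap f (bd c) := by
  refine lc_ext (f := bd ∘ₗ lmap f) (g := lmap f ∘ₗ bd) (fun l => ?_) c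
  simp only [LinearMap.comp_apply, lmap_single, bd_single]
  induction l with
  | nil => simp [bdl]
  | cons x l ih => simp [bdl, ih, lmap_cone]

theorem lmap_lmap {Z : Type} (g : Y → Z) (f : X → Y) (c : LC K X) :
    lmap g (lmap f c) = lmap (g ∘ f) c :=
  lc_ext (f := lmap g ∘ₗ lmap f) (g := lmap (g ∘ f)) (fun l => by simp) c

variable (K) in
/-- The prism on a list. -/
def prl (f g : X → Y) : List X → LC K Y
  | [] => 0
  | x :: l => single (f x :: g x :: l.map g) 1 - cone (f x) (prl f g l)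

/-- The prism operator. -/
def pr (f g : X → Y) : LC K X →ₗ[K] LC K Y := linearCombination K (prl K f g)

theorem pr_single (f g : X → Y) (l : List X) : pr f g (single l (1 : K)) = prl K f g l := by
  simp [pr]

theorem pr_cone (f g : X → Y) (x : X) (c : LC K X) :
    pr f g (cone x c) = cone (f x) (cone (g x) (lmap g c)) - cone (f x) (pr f g c) :=
  lc_ext (f := pr f g ∘ₗ cone x)
    (g := cone (f x) ∘ₗ cone (g x) ∘ₗ lmap g - cone (f x) ∘ₗ pr f g)
    (fun l => by simp [pr_single, prl]) c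

theorem bd_pr (f g : X → Y) (c : LC K X) :
    bd (pr f g c) = lmap g c - lmap f c - pr f g (bd c) := by
  refine lc_ext (f := bd ∘ₗ pr f g) (g := lmap g - lmap f - pr f g ∘ₗ bd) (fun l => ?_) c
  simp only [LinearMap.comp_apply, LinearMap.sub_apply, pr_single, bd_single, lmap_single]
  induction l with
  | nil => simp [bdl, prl]
  | cons x l ih =>
    have h1 : lmap g (bdl K l) = bdl K (l.map g) := by
      rw [← bd_single, ← bd_lmap, lmap_single, bd_single]
    simp only [prl, bdl, map_sub, bd_single, bd_cone, ih, pr_single, pr_cone, h1, cone_single,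
      List.map_cons]
    abel

theorem map_mem_of_supported {M : Type} [AddCommGroup M] [Module K M] {ι : Type} {A : Set ι}
    (T : (ι →₀ K) →ₗ[K] M) (U : Submodule K M) (h : ∀ l ∈ A, T (single l 1) ∈ U)
    {c : ι →₀ K} (hc : c ∈ supported K K A) : T c ∈ U := by
  rw [supported_eq_span_single] at hc
  have : Submodule.span K ((fun i => single i (1 : K)) '' A) ≤ U.comap T := by
    rw [Submodule.span_le]
    rintro _ ⟨l, hl, rfl⟩
    exact h l hl
  exact this hc

theorem sup_mono {ι : Type} {A B : Set ι} {c : ι →₀ K} (hc : c ∈ supported K K A)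
    (h : ∀ l ∈ A, l ∈ B) : c ∈ supported K K B := supported_mono h hc

theorem eq_of_supported {M : Type} [AddCommGroup M] [Module K M] {ι : Type} {A : Set ι}
    (T T' : (ι →₀ K) →ₗ[K] M) (h : ∀ l ∈ A, T (single l 1) = T' (single l 1))
    {c : ι →₀ K} (hc : c ∈ supported K K A) : T c = T' c := by
  have := map_mem_of_supported (T - T') ⊥ (fun l hl => by simp [h l hl]) hc
  simpa [sub_eq_zero] using this

theorem bdl_mem (l : List X) :
    bdl K l ∈ supported K K {m | m.length + 1 = l.length ∧ ∀ x ∈ m, x ∈ l} := by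
  induction l with
  | nil => simp [bdl]
  | cons x l ih =>
    refine Submodule.sub_mem _ (single_mem_supported _ _ ⟨rfl, fun y hy => by simp [hy]⟩) ?_
    refine map_mem_of_supported _ _ (fun m hm => ?_) ih
    rw [cone_single]
    refine single_mem_supported _ _ ⟨by simp [hm.1], fun y hy => ?_⟩
    rcases List.mem_cons.1 hy with h | h
    · simp [h]
    · simp [hm.2 y h]

theorem prl_mem (f g : X → Y) (l : List X) :
    prl K f g l ∈ supported K K
      {m | m.length = l.length + 1 ∧ ∀ y ∈ m, ∃ x ∈ l, y = f x ∨ y = g x} := by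
  induction l with
  | nil => simp [prl]
  | cons x l ih =>
    refine Submodule.sub_mem _ (single_mem_supported _ _ ⟨by simp, fun y hy => ?_⟩) ?_
    · simp only [List.mem_cons, List.mem_map] at hy
      rcases hy with h | h | ⟨z, hz, h⟩
      · exact ⟨x, by simp, Or.inl h⟩
      · exact ⟨x, by simp, Or.inr h⟩
      · exact ⟨z, by simp [hz], Or.inr h.symm⟩
    refine map_mem_of_supported _ _ (fun m hm => ?_) ih
    rw [cone_single]
    refine single_mem_supported _ _ ⟨by simp [hm.1], fun y hy => ?_⟩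
    rcases List.mem_cons.1 hy with h | h
    · exact ⟨x, by simp, Or.inl h⟩
    · obtain ⟨z, hz, h⟩ := hm.2 y h
      exact ⟨z, by simp [hz], h⟩

/-- Filling lemma along acyclic carriers. -/
theorem carrier {ι : Type} (G : ι → Prop) (rk : ι → ℕ) (b : ι → ι →₀ K) (U : ι → Set (LC K Y))
    (W : ι → Submodule K (LC K Y)) (z : ι → LC K Y)
    (hb : ∀ i, G i → b i ∈ supported K K {j | G j ∧ rk j < rk i ∧ U j ⊆ W i})
    (hz : ∀ i, G i → z i ∈ W i)
    (hbb : ∀ i, G i → linearCombination K b (b i) = 0)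
    (hch : ∀ i, G i → bd (z i) = linearCombination K z (b i))
    (hac : ∀ i, G i → ∀ c ∈ W i, bd c = 0 → ∃ e ∈ U i, bd e = c) (m : ℕ) :
    ∃ D : ι → LC K Y, ∀ i, G i → rk i < m →
      D i ∈ U i ∧ bd (D i) = z i - linearCombination K D (b i) := by
  classical
  induction m with
  | zero => exact ⟨0, fun i _ h => absurd h (Nat.not_lt_zero _)⟩
  | succ m ih =>
    obtain ⟨D, hD⟩ := ih
    have key : ∀ i, ∃ e, G i → rk i < m + 1 →
        e ∈ U i ∧ bd e = z i - linearCombination K D (b i) := by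
      intro i
      by_cases hG : G i
      swap
      · exact ⟨0, fun h => absurd h hG⟩
      by_cases hi : rk i < m + 1
      swap
      · exact ⟨0, fun _ h => absurd h hi⟩
      have h1 : linearCombination K D (b i) ∈ W i :=
        map_mem_of_supported _ _ (fun j hj => by
          simpa using hj.2.2 (hD j hj.1 (by have := hj.2.1; omega)).1) (hb i hG)
      have h2 : bd (linearCombination K D (b i)) = linearCombination K z (b i) -
          linearCombination K D (linearCombination K b (b i)) :=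
        eq_of_supported (bd ∘ₗ linearCombination K D)
          (linearCombination K z - linearCombination K D ∘ₗ linearCombination K b)
          (fun j hj => by simpa using (hD j hj.1 (by have := hj.2.1; omega)).2) (hb i hG)
      obtain ⟨e, he, he'⟩ := hac i hG _ ((W i).sub_mem (hz i hG) h1)
        (by rw [map_sub, h2, hbb i hG, hch i hG]; simp)
      exact ⟨e, fun _ _ => ⟨he, he'⟩⟩
    choose e he using key
    refine ⟨fun i => if rk i < m then D i else e i, fun i hG hi => ?_⟩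
    have h3 : linearCombination K (fun i => if rk i < m then D i else e i) (b i) =
        linearCombination K D (b i) :=
      eq_of_supported _ _ (fun j hj => by
        have : rk j < m := by have := hj.2.1; omega
        simp [this]) (hb i hG)
    rw [h3]
    by_cases h : rk i < m
    · simpa [h] using hD i hG h
    · simpa [h] using he i hG hi

section Metric

variable [PseudoMetricSpace X] [PseudoMetricSpace Y]

/-- Lists of length `n` in `S` of diameter below `ε`. -/
def Sm (S : Set X) (ε : ℝ) (n : ℕ) : Set (List X) :=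
  {l | l.length = n ∧ (∀ x ∈ l, x ∈ S) ∧ ∀ x ∈ l, ∀ y ∈ l, dist x y < ε}

variable (K) in
/-- Small chains. -/
def Ch (S : Set X) (ε : ℝ) (n : ℕ) : Submodule K (LC K X) := supported K K (Sm S ε n)

theorem Ch_mono {S T : Set X} {ε δ : ℝ} {n : ℕ} (h : S ⊆ T) (h' : ε ≤ δ) :
    Ch K S ε n ≤ Ch K T δ n :=
  supported_mono fun _ hl => ⟨hl.1, fun x hx => h (hl.2.1 x hx),
    fun x hx y hy => (hl.2.2 x hx y hy).trans_le h'⟩

theorem Ch_mono' {S T : Set X} {ε : ℝ} {n : ℕ} {c : LC K X} (hc : c ∈ Ch K S ε n)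
    (h : ∀ x ∈ S, x ∈ T) : c ∈ Ch K T ε n := Ch_mono h le_rfl hc

theorem lmap_mem {S : Set X} {T : Set Y} {δ ε : ℝ} {n : ℕ} {f : X → Y} (hf : Set.MapsTo f S T)
    (hd : ∀ x ∈ S, ∀ y ∈ S, dist x y < δ → dist (f x) (f y) < ε) {c : LC K X}
    (hc : c ∈ Ch K S δ n) : lmap f c ∈ Ch K T ε n := by
  refine map_mem_of_supported _ _ (fun l hl => ?_) hc
  rw [lmap_single]
  refine single_mem_supported _ _ ⟨by simp [hl.1], ?_, ?_⟩
  · intro y hy
    obtain ⟨x, hx, rfl⟩ := List.mem_map.1 hy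
    exact hf (hl.2.1 x hx)
  · intro y hy y' hy'
    obtain ⟨x, hx, rfl⟩ := List.mem_map.1 hy
    obtain ⟨x', hx', rfl⟩ := List.mem_map.1 hy'
    exact hd _ (hl.2.1 x hx) _ (hl.2.1 x' hx') (hl.2.2 x hx x' hx')

theorem steps {S : Set X} {T : Set Y} {δ ε : ℝ} {n : ℕ} (h : ℕ → X → Y) (N : ℕ)
    (hT : ∀ i ≤ N, Set.MapsTo (h i) S T)
    (hd : ∀ i ≤ N, ∀ j ≤ N, i ≤ j + 1 → j ≤ i + 1 → ∀ x ∈ S, ∀ y ∈ S, dist x y < δ →
      dist (h i x) (h j y) < ε)
    {c : LC K X} (hc : c ∈ Ch K S δ n) (hc0 : bd c = 0) :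
    ∃ e ∈ Ch K T ε (n + 1), bd e = lmap (h 0) c - lmap (h N) c := by
  induction N with
  | zero => exact ⟨0, Submodule.zero_mem _, by simp⟩
  | succ N ih =>
    obtain ⟨e, he, he'⟩ := ih (fun i hi => hT i (by omega))
      (fun i hi j hj => hd i (by omega) j (by omega))
    refine ⟨e + pr (h (N + 1)) (h N) c, Submodule.add_mem _ he ?_, ?_⟩
    · refine map_mem_of_supported _ _ (fun l hl => ?_) hc
      rw [pr_single]
      refine supported_mono (t := Sm T ε (n + 1)) (fun m hm => ?_) (prl_mem _ _ l)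
      refine ⟨by rw [hm.1, hl.1], ?_, ?_⟩
      · intro y hy
        obtain ⟨x, hx, rfl | rfl⟩ := hm.2 y hy
        · exact hT _ le_rfl (hl.2.1 x hx)
        · exact hT _ (by omega) (hl.2.1 x hx)
      · intro y hy y' hy'
        obtain ⟨x, hx, rfl | rfl⟩ := hm.2 y hy <;> obtain ⟨x', hx', rfl | rfl⟩ := hm.2 y' hy' <;>
          exact hd _ (by omega) _ (by omega) (by omega) (by omega) _ (hl.2.1 x hx) _
            (hl.2.1 x' hx') (hl.2.2 x hx x' hx')
    · rw [map_add, he', bd_pr, hc0]; simp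

theorem const_fill {S : Set X} {T : Set Y} {δ ε : ℝ} {n : ℕ} {p : Y} (hp : p ∈ T) (hε : 0 < ε)
    {c : LC K X} (hc : c ∈ Ch K S δ n) (hc0 : bd c = 0) :
    ∃ e ∈ Ch K T ε (n + 1), bd e = lmap (fun _ => p) c := by
  refine ⟨cone p (lmap (fun _ => p) c), ?_, by rw [bd_cone, bd_lmap, hc0]; simp⟩
  refine map_mem_of_supported (cone p ∘ₗ lmap (fun _ => p)) _ (fun l hl => ?_) hc
  simp only [LinearMap.comp_apply, lmap_single, cone_single]
  have : ∀ y ∈ p :: l.map (fun _ => p), y = p := by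
    intro y hy
    rcases List.mem_cons.1 hy with h | h
    · exact h
    · obtain ⟨_, _, h⟩ := List.mem_map.1 h
      exact h.symm
  exact single_mem_supported _ _ ⟨by simp [hl.1], fun y hy => this y hy ▸ hp,
    fun y hy y' hy' => by rw [this y hy, this y' hy', dist_self]; exact hε⟩

omit [PseudoMetricSpace Y] in
theorem lmap_congr {S : Set X} {δ : ℝ} {n : ℕ} {f g : X → Y} (h : ∀ x ∈ S, f x = g x)
    {c : LC K X} (hc : c ∈ Ch K S δ n) : lmap f c = lmap g c :=
  eq_of_supported _ _ (fun l hl => by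
    rw [lmap_single, lmap_single, List.map_congr_left fun x hx => h x (hl.2.1 x hx)]) hc

omit [PseudoMetricSpace X] in
theorem lmap_id (c : LC K X) : lmap id c = c :=
  lc_ext (f := lmap id) (g := LinearMap.id) (fun l => by simp) c

variable (K) in
/-- Small cycles of length `n` in `S` bound small chains in `S`. -/
def Van (S : Set X) (n : ℕ) : Prop :=
  ∀ ε > 0, ∃ δ > 0, ∀ c ∈ Ch K S δ n, bd c = 0 → ∃ e ∈ Ch K S ε (n + 1), bd e = c

theorem Van.retract {S : Set X} {T : Set Y} {n : ℕ} (hT : Van K T n) (cS : IsCompact S)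
    (cT : IsCompact T) {f : X → Y} {g : Y → X} (hf : ContinuousOn f S) (hg : ContinuousOn g T)
    (mf : Set.MapsTo f S T) (mg : Set.MapsTo g T S) (hgf : ∀ x ∈ S, g (f x) = x) :
    Van K S n := by
  intro ε hε
  obtain ⟨ε', hε', h1⟩ := Metric.uniformContinuousOn_iff.1
    (cT.uniformContinuousOn_of_continuous hg) ε hε
  obtain ⟨δ', hδ', h2⟩ := hT ε' hε'
  obtain ⟨δ, hδ, h3⟩ := Metric.uniformContinuousOn_iff.1
    (cS.uniformContinuousOn_of_continuous hf) δ' hδ'
  refine ⟨δ, hδ, fun c hc hc0 => ?_⟩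
  obtain ⟨e, he, he'⟩ := h2 _ (lmap_mem mf h3 hc) (by rw [bd_lmap, hc0, map_zero])
  refine ⟨lmap g e, lmap_mem mg h1 he, ?_⟩
  rw [bd_lmap, he', lmap_lmap, lmap_congr (f := g ∘ f) (g := id) hgf hc, lmap_id]

theorem van_of_contraction {S : Set X} (cS : IsCompact S) (H : ℝ × X → X)
    (hH : ContinuousOn H (Set.Icc 0 1 ×ˢ S)) (mH : Set.MapsTo H (Set.Icc 0 1 ×ˢ S) S)
    (h0 : ∀ x ∈ S, H (0, x) = x) {p : X} (hp : p ∈ S) (h1 : ∀ x ∈ S, H (1, x) = p) (n : ℕ) :
    Van K S n := by
  intro ε hε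
  obtain ⟨δ, hδ, h2⟩ := Metric.uniformContinuousOn_iff.1
    ((isCompact_Icc.prod cS).uniformContinuousOn_of_continuous hH) ε hε
  obtain ⟨N, hN⟩ := exists_nat_one_div_lt hδ
  refine ⟨δ, hδ, fun c hc hc0 => ?_⟩
  have hN0 : (0 : ℝ) < (N : ℝ) + 1 := by positivity
  have hI : ∀ i ≤ N + 1, (i : ℝ) / (N + 1) ∈ Set.Icc (0 : ℝ) 1 := fun i hi =>
    ⟨by positivity, by rw [div_le_one hN0]; exact_mod_cast hi⟩
  obtain ⟨e, he, he'⟩ := steps (T := S) (ε := ε) (fun i x => H ((i : ℝ) / (N + 1), x)) (N + 1)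
    (fun i hi x hx => mH ⟨hI i hi, hx⟩) (fun i hi j hj hij hji x hx y hy hxy => by
      refine h2 _ ⟨hI i hi, hx⟩ _ ⟨hI j hj, hy⟩ ?_
      rw [Prod.dist_eq, max_lt_iff]
      refine ⟨lt_of_le_of_lt ?_ hN, hxy⟩
      rw [Real.dist_eq, ← sub_div, abs_div, abs_of_pos hN0]
      gcongr
      have a1 : (i : ℝ) ≤ j + 1 := by exact_mod_cast hij
      have a2 : (j : ℝ) ≤ i + 1 := by exact_mod_cast hji
      rw [abs_le]; constructor <;> linarith) hc hc0
  obtain ⟨e', h3, h4⟩ := const_fill (T := S) hp hε hc hc0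
  refine ⟨e + e', Submodule.add_mem _ he h3, ?_⟩
  rw [map_add, he', h4, lmap_congr (g := id) (fun x hx => by simpa using h0 x hx) hc, lmap_id,
    lmap_congr (g := fun _ => p) (fun x hx => by
      rw [← h1 x hx]; push_cast; rw [div_self hN0.ne']) hc]
  simp

end Metric

theorem fill_star {E : Type} [NormedAddCommGroup E] [NormedSpace ℝ E] {S : Set E} {p : E}
    (hp : p ∈ S) (hS : ∀ x ∈ S, ∀ t : ℝ, 0 ≤ t → t ≤ 1 → x + t • (p - x) ∈ S)
    (hR : ∀ x ∈ S, ‖p - x‖ ≤ 1) {ε : ℝ} (hε : 0 < ε) {n : ℕ} {c : LC K E}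
    (hc : c ∈ Ch K S ε n) (hc0 : bd c = 0) : ∃ e ∈ Ch K S ε (n + 1), bd e = c := by
  obtain ⟨δ, hδ, hδ0, hδε⟩ : ∃ δ, (∀ l ∈ c.support, ∀ x ∈ l, ∀ y ∈ l, dist x y < δ) ∧
      0 < δ ∧ δ < ε := by
    classical
    have h1 : ∀ᶠ δ in nhdsWithin ε (Set.Iio ε),
        ∀ l ∈ c.support, ∀ x ∈ l.toFinset, ∀ y ∈ l.toFinset, dist x y < δ := by
      simp only [Filter.eventually_all_finset]
      intro l hl x hx y hy
      exact nhdsWithin_le_nhds (lt_mem_nhds ((hc hl).2.2 x (by simpa using hx) y (by simpa using hy)))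
    have h2 : ∀ᶠ δ in nhdsWithin ε (Set.Iio ε), 0 < δ := nhdsWithin_le_nhds (lt_mem_nhds hε)
    obtain ⟨δ, h3, h4, h5⟩ := (h1.and (h2.and self_mem_nhdsWithin)).exists
    exact ⟨δ, fun l hl x hx y hy => h3 l hl x (by simpa using hx) y (by simpa using hy), h4, h5⟩
  have hc' : c ∈ Ch K S δ n := fun l hl => ⟨(hc hl).1, (hc hl).2.1, hδ l hl⟩
  obtain ⟨N, hN⟩ := exists_nat_one_div_lt (sub_pos.2 hδε)
  have hN0 : (0 : ℝ) < (N : ℝ) + 1 := by positivity
  have hI : ∀ i ≤ N + 1, (i : ℝ) / (N + 1) ∈ Set.Icc (0 : ℝ) 1 := fun i hi =>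
    ⟨by positivity, by rw [div_le_one hN0]; exact_mod_cast hi⟩
  obtain ⟨e, he, he'⟩ := steps (T := S) (ε := ε)
    (fun i x => x + ((i : ℝ) / (N + 1)) • (p - x)) (N + 1)
    (fun i hi x hx => hS x hx _ (hI i hi).1 (hI i hi).2) (fun i hi j hj hij hji x hx y hy hxy => by
      rw [dist_eq_norm] at hxy ⊢
      have e1 : x + ((i : ℝ) / (N + 1)) • (p - x) - (y + ((j : ℝ) / (N + 1)) • (p - y)) =
          (1 - (i : ℝ) / (N + 1)) • (x - y) + ((i : ℝ) / (N + 1) - (j : ℝ) / (N + 1)) • (p - y) := by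
        module
      rw [e1]
      refine (norm_add_le _ _).trans_lt ?_
      rw [norm_smul, norm_smul, Real.norm_eq_abs, Real.norm_eq_abs,
        abs_of_nonneg (sub_nonneg.2 (hI i hi).2)]
      have a3 : |(i : ℝ) / (N + 1) - (j : ℝ) / (N + 1)| ≤ 1 / (N + 1) := by
        rw [← sub_div, abs_div, abs_of_pos hN0]
        gcongr
        have a1 : (i : ℝ) ≤ j + 1 := by exact_mod_cast hij
        have a2 : (j : ℝ) ≤ i + 1 := by exact_mod_cast hji
        rw [abs_le]; constructor <;> linarith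
      have a4 := mul_le_mul a3 (hR y hy) (norm_nonneg _) (by positivity)
      have a5 := mul_nonneg (hI i hi).1 (norm_nonneg (x - y))
      nlinarith) hc' hc0
  obtain ⟨e', h3, h4⟩ := const_fill (T := S) hp hε hc hc0
  refine ⟨e + e', Submodule.add_mem _ he h3, ?_⟩
  rw [map_add, he', h4, lmap_congr (g := id) (fun x hx => by simp) hc, lmap_id,
    lmap_congr (g := fun _ => p) (fun x hx => by
      push_cast; rw [div_self hN0.ne']; simp) hc]
  simp

end

end Pool.Agent.P.MP_233bd3_co
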