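import Mathlib

/-!
Definitions for MP_233bd3_co. A finite simplicial complex with vertex set `Fin n` is a Mathlib
`AbstractSimplicialComplex (Fin n)`: its faces are nonempty finite sets, closed under taking
nonempty subsets, and every singleton is a face.
-/

namespace Pool.Agent.P.MP_233bd3_co

/-- The geometric realization of a family `Γ` of faces on the finite vertex set `V`: the points of
the standard simplex in `ℝ^V` whose support lies in a member of `Γ`. -/
def geom {V : Type} [Fintype V] (Γ : Set (Finset V)) : Set (V → ℝ) :=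
  {x | x ∈ stdSimplex ℝ V ∧ ∃ F ∈ Γ, ∀ v, x v ≠ 0 → v ∈ F}

/-- `Δ` is a simplicial `m`-sphere: its geometric realization is homeomorphic to the unit sphere
of Euclidean `(m + 1)`-space. -/
def IsSphere {n : ℕ} (Δ : AbstractSimplicialComplex (Fin n)) (m : ℕ) : Prop :=
  Nonempty (geom Δ.faces ≃ₜ Metric.sphere (0 : EuclideanSpace ℝ (Fin (m + 1))) 1)

/-- `Δ` is `k`-neighborly: every set of `k` vertices is a face. -/
def IsNeighborly {n : ℕ} (Δ : AbstractSimplicialComplex (Fin n)) (k : ℕ) : Prop :=
  ∀ F : Finset (Fin n), F.card = k → F ∈ Δ.faces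

/-- `m_i(Δ)`, the number of missing `i`-faces: sets `F` of `i + 1` vertices that are not faces
while every nonempty proper subset of `F` is a face (the empty set is always a face). -/
noncomputable def missing {n : ℕ} (Δ : AbstractSimplicialComplex (Fin n)) (i : ℕ) : ℕ :=
  Set.ncard {F : Finset (Fin n) | F.card = i + 1 ∧ F ∉ Δ.faces ∧
    ∀ G : Finset (Fin n), G ⊂ F → G.Nonempty → G ∈ Δ.faces}

end Pool.Agent.P.MP_233bd3_co
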