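import Mathlib

/-!
A field of characteristic two with generic elements and their derivations, and the local form of
the differential identity of Papadakis and Petrotou.
-/

open MvPolynomial Matrix

namespace Pool.Agent.P.MP_233bd3_co

noncomputable section

/-- Generic elements `a i w` with dual commuting derivations. -/
structure Gen (K : Type) [Field K] (W : Type) [DecidableEq W] where
  a : ℕ → W → K
  D : ℕ → W → Derivation ℤ K K
  Da : ∀ i j i' j', D i j (a i' j') = if i' = i ∧ j' = j then 1 else 0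
  comm : ∀ i j i' j' x, D i j (D i' j' x) = D i' j' (D i j x)
  det_ne : ∀ (t : ℕ) (g : Fin t → W), Function.Injective g →
    (Matrix.of fun i j : Fin t => a i (g j)).det ≠ 0

theorem exists_der {F R K : Type} [CommRing F] [CommRing R] [Algebra F R] [Field K] [Algebra R K]
    [IsFractionRing R K] (δ : Derivation F R R) :
    ∃ D : Derivation ℤ K K, ∀ p : R, D (algebraMap R K p) = algebraMap R K (δ p) := by
  let φ : R →+* TrivSqZeroExt K K :=
    { toFun := fun p => TrivSqZeroExt.inl (algebraMap _ _ p) +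
        TrivSqZeroExt.inr (algebraMap _ _ (δ p))
      map_one' := by ext <;> simp
      map_mul' := fun p q => by
        ext <;> simp [Derivation.leibniz, mul_comm, -DualNumber.inr_eq_smul_eps]
      map_zero' := by ext <;> simp
      map_add' := fun p q => by ext <;> simp [-DualNumber.inr_eq_smul_eps] }
  have hφ : ∀ y : nonZeroDivisors R, IsUnit (φ y) := fun y => by
    rw [TrivSqZeroExt.isUnit_iff_isUnit_fst]
    simpa [φ] using IsLocalization.map_units K y
  let ψ : K →+* TrivSqZeroExt K K := IsLocalization.lift hφ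
  have hψ : ∀ p, ψ (algebraMap R K p) = φ p := fun p => IsLocalization.lift_eq hφ p
  have hfst : ∀ g, (ψ g).fst = g := by
    have : (TrivSqZeroExt.fstHom K K K).toRingHom.comp ψ = RingHom.id K := by
      apply IsLocalization.ringHom_ext (nonZeroDivisors R)
      refine RingHom.ext fun p => ?_
      simp only [RingHom.comp_apply, RingHom.id_apply]
      simpa [φ] using congrArg TrivSqZeroExt.fst (hψ p)
    intro g
    exact RingHom.congr_fun this g
  refine ⟨Derivation.mk' (((TrivSqZeroExt.sndHom K K).toAddMonoidHom.comp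
    ψ.toAddMonoidHom).toIntLinearMap) fun a b => ?_, fun p => ?_⟩
  · change (ψ (a * b)).snd = a * (ψ b).snd + b * (ψ a).snd
    rw [map_mul, TrivSqZeroExt.snd_mul, hfst, hfst, smul_eq_mul, op_smul_eq_mul, mul_comm b]
  · change (ψ _).snd = _
    rw [hψ]
    simp [φ, -DualNumber.inr_eq_smul_eps]

theorem pderiv_comm {σ F : Type} [CommRing F] (v w : σ) (p : MvPolynomial σ F) :
    pderiv v (pderiv w p) = pderiv w (pderiv v p) := by
  classical
  have : ⁅(pderiv v : Derivation F (MvPolynomial σ F) (MvPolynomial σ F)), pderiv w⁆ = 0 :=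
    derivation_ext fun u => by
      rw [Derivation.commutator_apply]
      simp only [pderiv_X, Pi.single_apply, Derivation.zero_apply]
      split_ifs <;> simp
  have := Derivation.congr_fun this p
  rwa [Derivation.commutator_apply, Derivation.zero_apply, sub_eq_zero] at this

theorem exists_gen (W : Type) [DecidableEq W] (K : Type) [Field K]
    [Algebra (MvPolynomial (ℕ × W) (ZMod 2)) K] [IsFractionRing (MvPolynomial (ℕ × W) (ZMod 2)) K] :
    Nonempty (Gen K W) := by
  choose D hD using fun v : ℕ × W =>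
    exists_der (R := MvPolynomial (ℕ × W) (ZMod 2)) (K := K) (pderiv v)
  refine ⟨⟨fun i j => algebraMap (MvPolynomial (ℕ × W) (ZMod 2)) K (X (i, j)),
    fun i j => D (i, j), fun i j i' j' => ?_, fun i j i' j' x => ?_, fun t g hg h => ?_⟩⟩
  · rw [hD, pderiv_X, Pi.single_apply]
    simp only [Prod.mk.injEq]
    split_ifs <;> simp
  · have h : ∀ p, ⁅D (i, j), D (i', j')⁆ (algebraMap (MvPolynomial (ℕ × W) (ZMod 2)) K p) = 0 := by
      intro p
      rw [Derivation.commutator_apply, hD, hD, hD, hD, pderiv_comm, sub_self]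
    obtain ⟨p, q, -, rfl⟩ := IsFractionRing.div_surjective (MvPolynomial (ℕ × W) (ZMod 2)) x
    rw [← sub_eq_zero, ← Derivation.commutator_apply, Derivation.leibniz_div, h, h]
    simp
  · let R := MvPolynomial (ℕ × W) (ZMod 2)
    have h1 : algebraMap R K (Matrix.of fun i j : Fin t => (X ((i : ℕ), g j) : R)).det = 0 := by
      rw [RingHom.map_det]; exact h
    rw [map_eq_zero_iff _ (IsFractionRing.injective R K)] at h1
    classical
    have h2 := congrArg (eval fun v : ℕ × W =>
      if ∃ j : Fin t, (j : ℕ) = v.1 ∧ g j = v.2 then (1 : ZMod 2) else 0) h1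
    rw [RingHom.map_det, map_zero] at h2
    have h3 : (eval fun v : ℕ × W =>
        if ∃ j : Fin t, (j : ℕ) = v.1 ∧ g j = v.2 then (1 : ZMod 2) else 0).mapMatrix
        (Matrix.of fun i j : Fin t => (X ((i : ℕ), g j) : R)) = 1 := by
      ext i j
      simp [Matrix.one_apply, Fin.val_inj, hg.eq_iff, R]
    rw [h3, det_one] at h2
    exact one_ne_zero h2

variable {K : Type} [Field K]

/-- The constants of a derivation. -/
def kerF (D : Derivation ℤ K K) : Subfield K where
  carrier := {x | D x = 0}
  mul_mem' := fun {x y} hx hy => by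
    change D _ = 0
    rw [D.leibniz, hx, hy]; simp
  one_mem' := D.map_one_eq_zero
  add_mem' := fun {x y} hx hy => by
    change D _ = 0
    rw [map_add, hx, hy, add_zero]
  zero_mem' := map_zero D
  neg_mem' := fun {x} hx => by
    change D _ = 0
    rw [map_neg, hx, neg_zero]
  inv_mem' := fun x hx => by
    change D _ = 0
    rw [D.leibniz_inv, hx, smul_zero]

theorem mem_kerF {D : Derivation ℤ K K} {x : K} : x ∈ kerF D ↔ D x = 0 := Iff.rfl

theorem det_mem {ι : Type} [Fintype ι] [DecidableEq ι] (L : Subfield K) {A : Matrix ι ι K}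
    (h : ∀ i j, A i j ∈ L) : A.det ∈ L := by
  rw [det_apply']
  exact L.sum_mem fun σ _ => L.mul_mem (intCast_mem L _) (L.prod_mem fun i _ => h _ _)

section Itr

variable {ι : Type} [DecidableEq ι] (E : ι → Derivation ℤ K K)
  (hE : ∀ i j x, E i (E j x) = E j (E i x))

/-- The product of commuting derivations. -/
def itr (s : Finset ι) : Module.End ℤ K :=
  s.noncommProd (fun i => (E i : K →ₗ[ℤ] K)) fun i _ j _ _ => LinearMap.ext (hE i j)

omit [DecidableEq ι] in
theorem itr_empty (x : K) : itr E hE ∅ x = x := rfl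

theorem itr_insert {s : Finset ι} {i : ι} (h : i ∉ s) (x : K) :
    itr E hE (insert i s) x = itr E hE s (E i x) := by
  rw [itr, Finset.noncommProd_insert_of_notMem' _ _ _ _ h]
  rfl

theorem itr_comm (D : Derivation ℤ K K) (h : ∀ i x, D (E i x) = E i (D x)) (s : Finset ι)
    (x : K) : D (itr E hE s x) = itr E hE s (D x) := by
  induction s using Finset.induction_on generalizing x with
  | empty => rfl
  | insert i s hi ih => rw [itr_insert _ _ hi, itr_insert _ _ hi, ih, h]

theorem itr_const {s : Finset ι} {c : K} (h : ∀ i ∈ s, E i c = 0) (x : K) :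
    itr E hE s (c * x) = c * itr E hE s x := by
  induction s using Finset.induction_on generalizing x with
  | empty => rfl
  | insert i s hi ih =>
    rw [itr_insert _ _ hi, itr_insert _ _ hi, Derivation.leibniz, h i (by simp),
      smul_zero, add_zero, smul_eq_mul, ih fun j hj => h j (by simp [hj])]

theorem itr_zero {s : Finset ι} {i : ι} (hi : i ∈ s) {x : K} (h : E i x = 0) :
    itr E hE s x = 0 := by
  rw [← Finset.insert_erase hi, itr_insert _ _ (Finset.notMem_erase _ _), h, map_zero]

theorem itr_sq [CharP K 2] (s : Finset ι) (c x : K) :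
    itr E hE s (c ^ 2 * x) = c ^ 2 * itr E hE s x :=
  itr_const E hE (fun i _ => by
    rw [sq, Derivation.leibniz, smul_eq_mul, CharTwo.add_self_eq_zero]) x

theorem itr_prod {b : ι → K} (hb : ∀ i j, E i (b j) = if j = i then 1 else 0) (s : Finset ι) :
    itr E hE s (∏ i ∈ s, b i) = 1 := by
  induction s using Finset.induction_on with
  | empty => rfl
  | insert i s hi ih =>
    have : E i (∏ j ∈ s, b j) = 0 := (kerF (E i)).prod_mem fun j hj => by
      rw [mem_kerF, hb, if_neg (by rintro rfl; exact hi hj)]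
    rw [itr_insert _ _ hi, Finset.prod_insert hi, Derivation.leibniz, this, hb]
    simpa using ih

theorem itr_low {κ : Type} [DecidableEq κ] {y : κ → K} (hy : ∀ i j l, E i (E j (y l)) = 0)
    (s : Finset ι) (t : Finset κ) (h : t.card < s.card) : itr E hE s (∏ l ∈ t, y l) = 0 := by
  induction s using Finset.induction_on generalizing t with
  | empty => simp at h
  | insert i s hi ih =>
    have h1 : ∀ t : Finset κ, E i (∏ l ∈ t, y l) = ∑ l ∈ t, E i (y l) * ∏ l ∈ t.erase l, y l := by
      intro t
      induction t using Finset.induction_on with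
      | empty => simp
      | insert m t hm ih =>
        rw [Finset.prod_insert hm, Derivation.leibniz, ih, Finset.sum_insert hm,
          Finset.erase_insert hm, add_comm, smul_eq_mul, smul_eq_mul, mul_comm, Finset.mul_sum]
        congr 1
        refine Finset.sum_congr rfl fun l hl => ?_
        rw [Finset.erase_insert_of_ne (by rintro rfl; exact hm hl),
          Finset.prod_insert fun h => hm (Finset.mem_of_mem_erase h)]
        ring
    rw [itr_insert _ _ hi, h1, map_sum]
    refine Finset.sum_eq_zero fun l hl => ?_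
    rw [itr_const _ _ fun j _ => hy j i l, ih, mul_zero]
    rw [Finset.card_insert_of_notMem hi] at h
    have := Finset.card_erase_add_one hl
    omega

theorem itr_det [CharP K 2] [Fintype ι] {b : ι → K}
    (hb : ∀ i j, E i (b j) = if j = i then 1 else 0) (B : Matrix ι ι K)
    (hB : ∀ i j l, E i (B j l) = 0) : itr E hE Finset.univ (∏ l, (B *ᵥ b) l) = B.det := by
  simp only [mulVec, dotProduct]
  rw [Finset.prod_univ_sum, Fintype.piFinset_univ, map_sum, ← det_transpose, det_apply',
    ← Finset.sum_subset (Finset.subset_univ (Finset.univ.filter Function.Bijective))]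
  · symm
    refine Finset.sum_bij (fun σ _ => ⇑σ) (fun σ _ => by simpa using σ.bijective)
      (fun σ _ τ _ h => DFunLike.coe_injective h)
      (fun f hf => ⟨Equiv.ofBijective f (by simpa using hf), Finset.mem_univ _, rfl⟩) fun σ _ => ?_
    rw [Finset.prod_mul_distrib, itr_const _ _ fun i _ => (kerF (E i)).prod_mem fun l _ => hB i _ _,
      Equiv.prod_comp σ b, itr_prod _ _ hb, mul_one]
    rcases Int.units_eq_one_or (Equiv.Perm.sign σ) with h | h <;> simp [h, CharTwo.neg_eq]
  · intro f _ hf
    have : ¬Function.Surjective f := fun h => hf (by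
      simpa using (Finite.surjective_iff_bijective.1 h))
    obtain ⟨i, hi⟩ := not_forall.1 this
    refine itr_zero _ _ (Finset.mem_univ i) ((kerF (E i)).prod_mem fun l _ =>
      (kerF (E i)).mul_mem (hB i _ _) ?_)
    rw [mem_kerF, hb, if_neg fun h => hi ⟨l, h⟩]

end Itr

variable {W : Type} [DecidableEq W] (G : Gen K W) {d : ℕ}

/-- The matrix of the columns `g j`. -/
def Gen.mat (g : Fin d → W) : Matrix (Fin d) (Fin d) K := Matrix.of fun i j => G.a i (g j)

/-- Coordinates of the column `z` in the basis of the columns `g j`. -/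
def Gen.yy (g : Fin d → W) (z : W) (j : Fin d) : K :=
  (G.mat g).cramer (fun i => G.a i z) j / (G.mat g).det

/-- The differential operator attached to a choice of one column in each row. -/
def Gen.dI (c : Fin d → W) (s : Finset (Fin d)) : Module.End ℤ K :=
  itr (fun i : Fin d => G.D i (c i)) (fun _ _ _ => G.comm _ _ _ _ _) s

variable {g : Fin d → W} {z : W}

theorem Gen.mulVec_yy (hg : Function.Injective g) :
    G.mat g *ᵥ G.yy g z = fun i : Fin d => G.a i z := by
  have : G.yy g z = (G.mat g).det⁻¹ • (G.mat g).cramer fun i => G.a i z := by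
    funext j; simp [Gen.yy, div_eq_inv_mul]
  rw [this, mulVec_smul, mulVec_cramer, smul_smul, inv_mul_cancel₀ (a := (G.mat g).det) (G.det_ne d g hg),
    one_smul]

theorem Gen.local_zero {c : Fin d → W} {i : Fin d} (h1 : ∀ j, g j ≠ c i) (h2 : z ≠ c i) :
    G.dI c Finset.univ ((∑ j, G.yy g z j) / ((G.mat g).det * ∏ j, G.yy g z j)) = 0 := by
  refine itr_zero _ _ (Finset.mem_univ i) ?_
  have a1 : ∀ i' j, G.mat g i' j ∈ kerF (G.D i (c i)) := fun i' j => by
    simp [mem_kerF, Gen.mat, G.Da, h1]
  have a2 : ∀ j, G.yy g z j ∈ kerF (G.D i (c i)) := fun j =>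
    div_mem (det_mem _ fun i' j' => by
      rw [updateCol_apply]
      split_ifs
      · simp [mem_kerF, G.Da, h2]
      · exact a1 _ _) (det_mem _ a1)
  exact div_mem (sum_mem fun j _ => a2 j) (mul_mem (det_mem _ a1) (prod_mem fun j _ => a2 j))

theorem Gen.local_pp [CharP K 2] (hg : Function.Injective g) (hz : ∀ j, g j ≠ z)
    (hy : ∀ j, G.yy g z j ≠ 0) (I : Fin d → Fin d) (w : Fin d) (q : K)
    (hI : ∏ i, G.yy g z (I i) = G.yy g z w * q ^ 2) :
    G.dI (fun i => g (I i)) Finset.univ
      ((∑ j, G.yy g z j) / ((G.mat g).det * ∏ j, G.yy g z j)) =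
      (G.yy g z w * q / ((G.mat g).det * ∏ j, G.yy g z j)) ^ 2 := by
  set A := G.mat g with hA
  set Δ := A.det with hΔ
  set y := G.yy g z with hy'
  have hΔ0 : Δ ≠ 0 := G.det_ne d g hg
  have hAy : A *ᵥ y = fun i : Fin d => G.a i z := G.mulVec_yy hg
  have DA : ∀ (i w i' j : Fin d), G.D i (g w) (A i' j) = if i' = i ∧ j = w then 1 else 0 := by
    intro i w i' j; simp [hA, Gen.mat, G.Da, Fin.val_inj, hg.eq_iff]
  have D0A : ∀ (i i' j : Fin d), G.D i z (A i' j) = 0 := by
    intro i i' j; simp [hA, Gen.mat, G.Da, hz]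
  have Db : ∀ (i w i' : Fin d), G.D i (g w) (G.a i' z) = 0 := by
    intro i w i'; simp [G.Da, (hz w).symm]
  have D0b : ∀ (i i' : Fin d), G.D i z (G.a i' z) = if i' = i then 1 else 0 := by
    intro i i'; simp [G.Da, Fin.val_inj]
  have D0Δ : ∀ i : Fin d, G.D i z Δ = 0 := fun i => det_mem (kerF _) (D0A i)
  have hC : ∀ l i, A.adjugate l i = (A.updateCol l (Pi.single i 1)).det := fun l i => by
    rw [← cramer_apply, cramer_eq_adjugate_mulVec]; simp
  have one_mem' : ∀ (D : Derivation ℤ K K) (i i' : Fin d),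
      (Pi.single i (1 : K) : Fin d → K) i' ∈ kerF D := fun D i i' => by
    rw [Pi.single_apply]; split_ifs; exacts [one_mem _, zero_mem _]
  have D0C : ∀ (i l i' : Fin d), G.D i z (A.adjugate l i') = 0 := fun i l i' => by
    rw [hC]
    refine det_mem (kerF _) fun a b => ?_
    rw [updateCol_apply]
    split_ifs; exacts [one_mem' _ _ _, D0A _ _ _]
  have DC : ∀ (i w i' : Fin d), G.D i (g w) (A.adjugate w i') = 0 := fun i w i' => by
    rw [hC]
    refine det_mem (kerF _) fun a b => ?_
    rw [updateCol_apply]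
    split_ifs with h
    · exact one_mem' _ _ _
    · simp [mem_kerF, DA, h]
  let B : Matrix (Fin d) (Fin d) K := Δ⁻¹ • A.adjugate
  have D0B : ∀ (i l i' : Fin d), G.D i z (B l i') = 0 := fun i l i' =>
    (kerF _).mul_mem ((kerF _).inv_mem (D0Δ i)) (D0C i l i')
  have hyB : y = B *ᵥ fun i : Fin d => G.a i z := by
    funext j
    simp [hy', Gen.yy, B, smul_mulVec, cramer_eq_adjugate_mulVec, div_eq_inv_mul, hA, hΔ]
  have hB : B.det = Δ⁻¹ := by
    have : B * A = 1 := by
      simp only [B, smul_mul, adjugate_mul, smul_smul]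
      rw [inv_mul_cancel₀ hΔ0, one_smul]
    have := congrArg det this
    rw [det_mul, det_one] at this
    exact eq_inv_of_mul_eq_one_left this
  have D0y : ∀ (i l : Fin d), G.D i z (y l) = B l i := fun i l => by
    rw [hyB]
    simp [mulVec, dotProduct, Derivation.leibniz, D0B, D0b]
  have DΔ : ∀ (i w : Fin d), G.D i (g w) Δ = Δ * B w i := fun i w => by
    have : Δ = ∑ i', A.adjugate w i' * A i' w := by
      simpa [mul_apply] using (congrFun (congrFun (adjugate_mul A) w) w).symm
    rw [show Δ * B w i = A.adjugate w i by simp [B, hΔ0]]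
    conv_lhs => rw [this]
    simp [Derivation.leibniz, DC, DA]
  have Dy : ∀ (i w l : Fin d), G.D i (g w) (y l) = y w * G.D i z (y l) := fun i w l => by
    have h0 : A *ᵥ (fun l => G.D i (g w) (y l) - y w * G.D i z (y l)) = 0 := by
      funext i'
      have a1 := congrArg (G.D i (g w)) (congrFun hAy i')
      have a2 := congrArg (G.D i z) (congrFun hAy i')
      simp only [mulVec, dotProduct, map_sum, Derivation.leibniz, smul_eq_mul, DA, Db, D0A, D0b,
        Finset.sum_add_distrib, mul_zero, add_zero, mul_ite, mul_one] at a1 a2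
      simp only [mulVec, dotProduct, mul_sub, Finset.sum_sub_distrib, mul_left_comm _ (y w),
        ← Finset.mul_sum, a2, Pi.zero_apply]
      rw [CharTwo.add_eq_zero] at a1
      rw [a1]
      by_cases h : i' = i <;> simp [h]
    exact sub_eq_zero.1 (congrFun (eq_zero_of_mulVec_eq_zero hΔ0 h0) l)
  let Ω : Subfield K := ⨅ i : Fin d, ⨅ w : Fin d, kerF (G.D i (g w) - y w • G.D i z)
  have hΩ : ∀ φ, φ ∈ Ω ↔ ∀ i w : Fin d, G.D i (g w) φ = y w * G.D i z φ := fun φ => by
    simp [Ω, Subfield.mem_iInf, mem_kerF, sub_eq_zero]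
  have yΩ : ∀ l, y l ∈ Ω := fun l => (hΩ _).2 fun i w => Dy i w l
  have star : ∀ φ ∈ Ω, ∀ i w : Fin d, G.D i (g w) (Δ⁻¹ * φ) = G.D i z (Δ⁻¹ * (y w * φ)) := by
    intro φ hφ i w
    simp only [Derivation.leibniz, Derivation.leibniz_inv, (hΩ φ).1 hφ, DΔ, D0Δ, D0y, smul_eq_mul,
      CharTwo.neg_eq]
    field_simp
    ring
  have chain : ∀ s : Finset (Fin d), ∀ φ ∈ Ω, G.dI (fun i => g (I i)) s (Δ⁻¹ * φ) =
      G.dI (fun _ => z) s (Δ⁻¹ * ((∏ i ∈ s, y (I i)) * φ)) := by
    intro s
    induction s using Finset.induction_on with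
    | empty => intro φ _; simp [Gen.dI, itr_empty]
    | insert i s hi ih =>
      intro φ hφ
      rw [Gen.dI, itr_insert _ _ hi, star φ hφ, ← itr_comm _ _ _ fun _ _ => G.comm _ _ _ _ _]
      erw [ih _ (mul_mem (yΩ _) hφ)]
      rw [Gen.dI, Gen.dI, itr_insert _ _ hi, itr_comm _ _ _ fun _ _ => G.comm _ _ _ _ _,
        Finset.prod_insert hi, mul_comm (y (I i)) (∏ i ∈ s, y (I i)), mul_assoc]
  have hP : ∏ j, y j ≠ 0 := Finset.prod_ne_zero_iff.2 fun j _ => hy j
  have e1 : (∑ j, y j) / (Δ * ∏ j, y j) = Δ⁻¹ * ((∑ j, y j) / ∏ j, y j) := by field_simp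
  have e2 : Δ⁻¹ * (y w * q ^ 2 * ((∑ j, y j) / ∏ j, y j)) =
      Δ⁻¹ * ((q / ∏ j, y j) ^ 2 * ∑ j, y w * y j * ∏ j, y j) := by
    rw [← Finset.sum_mul, ← Finset.mul_sum]; field_simp
  rw [e1, chain _ _ (div_mem (sum_mem fun j _ => yΩ j) (prod_mem fun j _ => yΩ j)), hI, e2, Gen.dI,
    itr_const _ _ fun i _ => (kerF _).inv_mem (D0Δ i), itr_sq, map_sum,
    Finset.sum_eq_single_of_mem w (Finset.mem_univ w)]
  · have := itr_det (fun i : Fin d => G.D i z) (fun _ _ _ => G.comm _ _ _ _ _)
      (b := fun i : Fin d => G.a i z) D0b B D0B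
    rw [← hyB, hB] at this
    rw [← sq, itr_sq, this]
    field_simp
  · intro j _ hj
    have : y w * y j * ∏ j, y j = (y w * y j) ^ 2 * ∏ l ∈ (Finset.univ.erase w).erase j, y l := by
      rw [← Finset.mul_prod_erase _ y (Finset.mem_univ w),
        ← Finset.mul_prod_erase _ y (Finset.mem_erase.2 ⟨hj, Finset.mem_univ j⟩)]
      ring
    rw [this, itr_sq, itr_low _ _ (fun i i' l => by rw [D0y, D0B]), mul_zero]
    exact (Finset.card_erase_le).trans_lt (Finset.card_erase_lt_of_mem (Finset.mem_univ w))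

end

end Pool.Agent.P.MP_233bd3_co
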