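import Pool.Agent.P.MP_233bd3_co.Part
import Pool.Agent.P.MP_233bd3_co.Gen

/-!
The degree map of the generic Artinian reduction, Poincare duality and anisotropy.
-/

open MvPolynomial Matrix

namespace Pool.Agent.P.MP_233bd3_co

noncomputable section

variable {K : Type} [Field K]

theorem rows_of_det {W : Type} {a : ℕ → W → K} (h : ∀ (t : ℕ) (g : Fin t → W),
    Function.Injective g → (Matrix.of fun i j : Fin t => a i (g j)).det ≠ 0) (d : ℕ) :
    Rows a d := by
  have hg : ∀ T : Finset W, Function.Injective fun j => (T.equivFin.symm j : W) := fun T =>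
    Subtype.val_injective.comp T.equivFin.symm.injective
  refine ⟨fun T _ b => ?_, fun T _ l hl i hi => ?_⟩
  · obtain ⟨l, hl⟩ := vecMul_surjective_iff_isUnit.2 ((isUnit_iff_isUnit_det _).2
      (isUnit_iff_ne_zero.2 (h _ _ (hg T)))) fun j => b (T.equivFin.symm j)
    refine ⟨fun i => if hi : i < T.card then l ⟨i, hi⟩ else 0, fun j hj => ?_⟩
    have := congrFun hl (T.equivFin ⟨j, hj⟩)
    rw [Finset.sum_range]
    simpa [vecMul, dotProduct] using this
  · have := eq_zero_of_vecMul_eq_zero (h _ _ (hg T)) (v := fun i => l i) (funext fun j => by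
      have := hl _ (T.equivFin.symm j).2
      rw [Finset.sum_range] at this
      simpa [vecMul, dotProduct] using this)
    exact congrFun this ⟨i, hi⟩

variable {V : Type} [DecidableEq V] (G : Gen K (Option V)) (d : ℕ)

/-- The bracket of a set of `d` columns. -/
def br (T : Finset (Option V)) : K :=
  if h : T.card = d then (G.mat fun j => ((T.equivFinOfCardEq h).symm j : Option V)).det else 0

/-- Rows restricted to the vertices. -/
def Gen.r (i : ℕ) (v : V) : K := G.a i (some v)

theorem Gen.rows : Rows G.r d :=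
  rows_of_det (fun t g hg => G.det_ne t (some ∘ g) ((Option.some_injective V).comp hg)) d

variable {d}

theorem br_ne {T : Finset (Option V)} (h : T.card = d) : br G d T ≠ 0 := by
  rw [br, dif_pos h]
  exact G.det_ne d _ (Subtype.val_injective.comp (T.equivFinOfCardEq h).symm.injective)

theorem br_eq [CharP K 2] {g : Fin d → Option V} (hg : Function.Injective g)
    {T : Finset (Option V)} (hT : ∀ o, o ∈ T ↔ ∃ j, g j = o) : (G.mat g).det = br G d T := by
  have h : T.card = d := by
    have : T = Finset.univ.map ⟨g, hg⟩ := by ext o; simp [hT]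
    rw [this]; simp
  let f : Fin d → Fin d := fun j => T.equivFinOfCardEq h ⟨g j, (hT _).2 ⟨j, rfl⟩⟩
  have hf : Function.Injective f := fun j j' e =>
    hg (congrArg Subtype.val ((T.equivFinOfCardEq h).injective e))
  have := det_permute' (Equiv.ofBijective f (Finite.injective_iff_bijective.1 hf))
    (G.mat fun j => ((T.equivFinOfCardEq h).symm j : Option V))
  rw [br, dif_pos h]
  refine Eq.trans (congrArg det ?_) (this.trans ?_)
  · ext i j; simp [Gen.mat, f]
  · rcases Int.units_eq_one_or (Equiv.Perm.sign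
      (Equiv.ofBijective f (Finite.injective_iff_bijective.1 hf))) with h | h <;>
      simp [h, CharTwo.neg_eq]

variable (d) in
/-- The bracket of a facet. -/
def dF (F : Finset V) : K := br G d (F.image some)

variable (d) in
/-- The bracket of a ridge together with the extra column. -/
def dR (ρ : Finset V) : K := br G d (insert none (ρ.image some))

variable (d) in
/-- The point of the facet `F` over the extra column. -/
def yF (F : Finset V) (v : V) : K := if v ∈ F then dR G d (F.erase v) / dF G d F else 0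

theorem dF_ne {F : Finset V} (h : F.card = d) : dF G d F ≠ 0 :=
  br_ne G (by rw [Finset.card_image_of_injective _ (Option.some_injective V), h])

theorem dR_ne {ρ : Finset V} (h : ρ.card + 1 = d) : dR G d ρ ≠ 0 :=
  br_ne G (by rw [Finset.card_insert_of_notMem (by simp),
    Finset.card_image_of_injective _ (Option.some_injective V), h])

theorem yF_ne {F : Finset V} (h : F.card = d) {v : V} (hv : v ∈ F) : yF G d F v ≠ 0 := by
  rw [yF, if_pos hv]
  exact div_ne_zero (dR_ne G (by rw [Finset.card_erase_add_one hv, h])) (dF_ne G h)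

theorem exists_enum [CharP K 2] {F : Finset V} (h : F.card = d) : ∃ g : Fin d → V,
    Function.Injective g ∧ (∀ v, v ∈ F ↔ ∃ j, g j = v) ∧
    (G.mat (some ∘ g)).det = dF G d F ∧ ∀ j, G.yy (some ∘ g) none j = yF G d F (g j) := by
  let g : Fin d → V := fun j => (F.equivFinOfCardEq h).symm j
  have hg : Function.Injective g :=
    Subtype.val_injective.comp (F.equivFinOfCardEq h).symm.injective
  have hF : ∀ v, v ∈ F ↔ ∃ j, g j = v := fun v =>
    ⟨fun hv => ⟨F.equivFinOfCardEq h ⟨v, hv⟩, by simp [g]⟩, by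
      rintro ⟨j, rfl⟩; exact Finset.coe_mem _⟩
  have h1 : (G.mat (some ∘ g)).det = dF G d F :=
    br_eq G ((Option.some_injective V).comp hg) fun o => by
      simp only [Finset.mem_image, hF, Function.comp]
      exact ⟨fun ⟨_, ⟨j, rfl⟩, e⟩ => ⟨j, e⟩, fun ⟨j, e⟩ => ⟨_, ⟨j, rfl⟩, e⟩⟩
  refine ⟨g, hg, hF, h1, fun j => ?_⟩
  rw [Gen.yy, h1, yF, if_pos ((hF _).2 ⟨j, rfl⟩), cramer_apply]
  congr 1
  have h2 : (G.mat (some ∘ g)).updateCol j (fun i => G.a i none) =
      G.mat (Function.update (some ∘ g) j none) := by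
    ext i l
    by_cases e : l = j <;> simp [Gen.mat, updateCol_apply, e]
  rw [h2]
  refine br_eq G (fun l l' e => ?_) fun o => ?_
  · by_cases a : l = j <;> by_cases b : l' = j <;> simp_all [hg.eq_iff]
  · simp only [Finset.mem_insert, Finset.mem_image, Finset.mem_erase, hF]
    constructor
    · rintro (rfl | ⟨_, ⟨a, l, rfl⟩, rfl⟩)
      · exact ⟨j, by simp⟩
      · exact ⟨l, by rw [Function.update_of_ne (by rintro rfl; exact a rfl)]; rfl⟩
    · rintro ⟨l, rfl⟩
      by_cases e : l = j
      · simp [e]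
      · exact Or.inr ⟨g l, ⟨hg.ne e, l, rfl⟩, by rw [Function.update_of_ne e]; rfl⟩

variable [Fintype V]

theorem sum_enum {F : Finset V} {g : Fin d → V} (hg : Function.Injective g)
    (hF : ∀ v, v ∈ F ↔ ∃ j, g j = v) (f : V → K) :
    ∑ v, f v * yF G d F v = ∑ j, f (g j) * yF G d F (g j) := by
  have : F = Finset.univ.map ⟨g, hg⟩ := by ext o; simp [hF]
  rw [← Finset.sum_subset (Finset.subset_univ F) fun v _ hv => by simp [yF, hv]]
  conv_lhs => rw [this, Finset.sum_map, ← this]
  rfl

omit [DecidableEq V] [Fintype V] in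
theorem prod_enum {F : Finset V} {g : Fin d → V} (hg : Function.Injective g)
    (hF : ∀ v, v ∈ F ↔ ∃ j, g j = v) (f : V → K) : ∏ v ∈ F, f v = ∏ j, f (g j) := by
  have : F = Finset.univ.map ⟨g, hg⟩ := by ext o; simp [hF]
  rw [this, Finset.prod_map]
  rfl

theorem ev_lin (F : Finset V) (u : V → K) :
    aeval (yF G d F) (lin u) = ∑ v, u v * yF G d F v := by simp [lin_apply]

theorem ev_th [CharP K 2] {F : Finset V} (h : F.card = d) {i : ℕ} (hi : i < d) :
    aeval (yF G d F) (th G.r i) = G.a i none := by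
  obtain ⟨g, hg, hF, -, h2⟩ := exists_enum G h
  have := congrFun (G.mulVec_yy (z := none) ((Option.some_injective V).comp hg)) ⟨i, hi⟩
  rw [th, ev_lin, sum_enum G hg hF, ← this]
  simp [mulVec, dotProduct, h2, Gen.mat, Gen.r]

omit [Fintype V] in
theorem ev_mono {F : Finset V} {α : V →₀ ℕ} (h : ¬α.support ⊆ F) (c : K) :
    aeval (yF G d F) (monomial α c) = 0 := by
  obtain ⟨v, hv, hv'⟩ := Finset.not_subset.1 h
  rw [aeval_monomial, Finsupp.prod, Finset.prod_eq_zero hv, mul_zero]
  simp [yF, hv', Finsupp.mem_support_iff.1 hv]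

variable (d) in
/-- The weight of a facet in the localization formula. -/
def wF (F : Finset V) : K := (dF G d F * ∏ v ∈ F, yF G d F v)⁻¹

open Classical in
variable (d) in
/-- The localization formula. -/
def piL (Γ : Set (Finset V)) : MvPolynomial V K →ₗ[K] K :=
  ∑ F : Finset V, if F ∈ Γ ∧ F.card = d then wF G d F • (aeval (yF G d F)).toLinearMap else 0

variable {Γ : Set (Finset V)}

open Classical in
theorem piL_apply (p : MvPolynomial V K) : piL G d Γ p =
    ∑ F : Finset V, if F ∈ Γ ∧ F.card = d then wF G d F * aeval (yF G d F) p else 0 := by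
  rw [piL, LinearMap.sum_apply]
  exact Finset.sum_congr rfl fun F _ => by split_ifs <;> simp

theorem piL_SR {p : MvPolynomial V K} (h : p ∈ SR K Γ ∅) : piL G d Γ p = 0 := by
  rw [piL_apply]
  refine Finset.sum_eq_zero fun F _ => ?_
  split_ifs with hF
  · rw [p.as_sum, map_sum, Finset.sum_eq_zero fun α hα =>
      ev_mono G (by simpa using h α hα F hF.1) _, mul_zero]
  · rfl

theorem piL_th [CharP K 2] {i : ℕ} (hi : i < d) (p : MvPolynomial V K) :
    piL G d Γ (th G.r i * p) = G.a i none * piL G d Γ p := by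
  rw [piL_apply, piL_apply, Finset.mul_sum]
  refine Finset.sum_congr rfl fun F _ => ?_
  split_ifs with hF
  · rw [map_mul, ev_th G hF.2 hi]; ring
  · simp

theorem piL_ridge (H : HS K Γ d) {ρ : Finset V} (h : ρ.card + 1 = d) :
    piL G d Γ (∏ v ∈ ρ, X v) = 0 := by
  classical
  have h1 := congrArg (· * (dR G d ρ)⁻¹) (H.pm ρ h)
  simp only [zero_mul, Finset.sum_mul] at h1
  refine Eq.trans ?_ h1
  rw [piL_apply, ← Finset.sum_subset (Finset.subset_univ (ρᶜ.image fun v => insert v ρ)),
    Finset.sum_image]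
  · refine Finset.sum_congr rfl fun v hv => ?_
    have hv' := Finset.mem_compl.1 hv
    have hc : (insert v ρ).card = d := by rw [Finset.card_insert_of_notMem hv', h]
    by_cases a : insert v ρ ∈ Γ
    · have a1 : ∏ w ∈ ρ, yF G d (insert v ρ) w ≠ 0 := Finset.prod_ne_zero_iff.2 fun w hw =>
        yF_ne G hc (Finset.mem_insert_of_mem hw)
      have a2 := dF_ne G hc
      simp only [a, hc, and_self, if_true, wF, Finset.prod_insert hv', map_prod, aeval_X]
      rw [yF, if_pos (Finset.mem_insert_self _ _), Finset.erase_insert hv']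
      have a3 := dR_ne G h
      field_simp
    · simp [a]
  · intro v hv w _ e
    have : v ∈ insert w ρ := (show insert v ρ = insert w ρ from e) ▸ Finset.mem_insert_self v ρ
    exact (Finset.mem_insert.1 this).resolve_right (Finset.mem_compl.1 hv)
  · intro F _ hF
    split_ifs with a
    · have : ¬ρ ⊆ F := fun b => by
        obtain ⟨v, hv, rfl⟩ := Finset.exists_eq_insert_iff.2 ⟨b, h.trans a.2.symm⟩
        exact hF (Finset.mem_image.2 ⟨v, Finset.mem_compl.2 hv, rfl⟩)
      obtain ⟨v, hv, hv'⟩ := Finset.not_subset.1 this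
      rw [map_prod, Finset.prod_eq_zero hv, mul_zero]
      simp [yF, hv']
    · rfl

theorem piL_facet {F : Finset V} (hF : F ∈ Γ) (h : F.card = d) :
    piL G d Γ (∏ v ∈ F, X v) ≠ 0 := by
  rw [piL_apply, Finset.sum_eq_single F]
  · rw [if_pos ⟨hF, h⟩, map_prod]
    have a1 : ∏ w ∈ F, yF G d F w ≠ 0 := Finset.prod_ne_zero_iff.2 fun w hw => yF_ne G h hw
    simpa [wF, a1] using dF_ne G h
  · intro F' _ e
    split_ifs with a
    · have : ¬F ⊆ F' := fun b => e (Finset.eq_of_subset_of_card_le b (by omega)).symm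
      obtain ⟨v, hv, hv'⟩ := Finset.not_subset.1 this
      rw [map_prod, Finset.prod_eq_zero hv, mul_zero]
      simp [yF, hv']
    · rfl
  · simp

omit [Fintype V] [DecidableEq V] in
theorem card_support_le (α : V →₀ ℕ) : α.support.card ≤ α.degree := by
  rw [Finsupp.degree_apply, Finset.card_eq_sum_ones]
  exact Finset.sum_le_sum fun v hv => Nat.one_le_iff_ne_zero.2 (Finsupp.mem_support_iff.1 hv)

omit [Fintype V] [DecidableEq V] in
theorem X_mul_mono (v : V) (α : V →₀ ℕ) :
    X v * monomial α (1 : K) = monomial (α + Finsupp.single v 1) 1 := by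
  rw [X, monomial_mul, add_comm, one_mul]

omit [Fintype V] [DecidableEq V] in
theorem mono_eq_prod {α : V →₀ ℕ} (h : ∀ v, α v ≤ 1) :
    monomial α (1 : K) = ∏ v ∈ α.support, X v := by
  rw [monomial_eq, C_1, one_mul, Finsupp.prod]
  refine Finset.prod_congr rfl fun v hv => ?_
  rw [le_antisymm (h v) (Nat.one_le_iff_ne_zero.2 (Finsupp.mem_support_iff.1 hv)), pow_one]

omit [Fintype V] [DecidableEq V] in
theorem degree_eq_card {α : V →₀ ℕ} (h : ∀ v, α v ≤ 1) : α.degree = α.support.card := by
  rw [Finsupp.degree_apply, Finset.card_eq_sum_ones]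
  exact Finset.sum_congr rfl fun v hv =>
    le_antisymm (h v) (Nat.one_le_iff_ne_zero.2 (Finsupp.mem_support_iff.1 hv))

variable [CharP K 2]

theorem piL_low (H : HS K Γ d) (α : V →₀ ℕ) (hα : α.degree < d) :
    piL G d Γ (monomial α 1) = 0 := by
  induction h : d - α.support.card using Nat.strong_induction_on generalizing α with
  | _ m ih =>
  have hc := card_support_le α
  have step : ∀ (β : V →₀ ℕ) (b : Option V → K), β.support = α.support → β.degree + 1 < d →
      ∑ w ∈ α.support, b (some w) * piL G d Γ (monomial (β + Finsupp.single w 1) 1) =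
        b none * piL G d Γ (monomial β 1) := by
    intro β b hβ hβ'
    have hT : (insert none (α.support.image some)).card ≤ d := by
      rw [Finset.card_insert_of_notMem (by simp),
        Finset.card_image_of_injective _ (Option.some_injective V)]
      omega
    obtain ⟨l, hl⟩ := (rows_of_det G.det_ne d).surj _ hT b
    set t := (insert none (α.support.image some)).card
    have h1 : piL G d Γ (lin (fun v => ∑ i ∈ Finset.range t, l i * G.r i v) * monomial β 1) =
        b none * piL G d Γ (monomial β 1) := by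
      rw [lin_comb, Finset.sum_mul, map_sum, ← hl none (by simp), Finset.sum_mul]
      refine Finset.sum_congr rfl fun i hi => ?_
      rw [smul_mul_assoc, map_smul, piL_th G ((Finset.mem_range.1 hi).trans_le hT), smul_eq_mul,
        mul_assoc]
    rw [← h1, lin_apply, Finset.sum_mul, map_sum,
      ← Finset.sum_subset (Finset.subset_univ α.support)]
    · refine Finset.sum_congr rfl fun w hw => ?_
      rw [smul_mul_assoc, map_smul, X_mul_mono, smul_eq_mul, ← hl (some w)
        (Finset.mem_insert_of_mem (Finset.mem_image_of_mem _ hw))]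
      rfl
    · intro w _ hw
      have h2 : (β + Finsupp.single w 1).support.card = α.support.card + 1 := by
        rw [Finsupp.support_add_eq (by simpa [hβ] using hw), Finsupp.support_single _ one_ne_zero,
          hβ, Finset.card_union_of_disjoint (by simpa using hw), Finset.card_singleton]
      rw [smul_mul_assoc, map_smul, X_mul_mono, ih _ (by omega) _ (by simpa using hβ') rfl,
        smul_zero]
  by_cases h1 : ∀ v, α v ≤ 1
  · by_cases h2 : α.degree + 1 = d
    · rw [mono_eq_prod h1, piL_ridge G H (degree_eq_card h1 ▸ h2)]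
    · simpa using (step α (Pi.single none 1) rfl (by omega)).symm
  · obtain ⟨v, hv⟩ := not_forall.1 h1
    have h2 : α - Finsupp.single v 1 + Finsupp.single v 1 = α :=
      tsub_add_cancel_of_le (Finsupp.single_le_iff.2 (by omega))
    have h3 : (α - Finsupp.single v 1).degree + 1 = α.degree := by
      conv_rhs => rw [← h2]
      simp
    have := step (α - Finsupp.single v 1) (Pi.single (some v) 1) (by
      ext w
      by_cases e : w = v
      · subst e; simp; omega
      · simp [Finsupp.single_eq_of_ne e]) (by omega)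
    rw [Finset.sum_eq_single_of_mem v (Finsupp.mem_support_iff.2 (by omega))
      fun w _ e => by simp [e], h2] at this
    simpa using this

variable (d) in
/-- The degree map. -/
def deg (Γ : Set (Finset V)) : MvPolynomial V K →ₗ[K] K := piL G d Γ ∘ₗ homogeneousComponent d

omit [CharP K 2] in
theorem deg_hom {p : MvPolynomial V K} (h : p.IsHomogeneous d) : deg G d Γ p = piL G d Γ p := by
  rw [deg, LinearMap.comp_apply, homogeneousComponent_eq_self h]

omit [CharP K 2] [Fintype V] in
theorem hc_SR {τ : Finset V} {p : MvPolynomial V K} (h : p ∈ SR K Γ τ) (j : ℕ) :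
    homogeneousComponent j p ∈ SR K Γ τ := fun α hα =>
  h α (by rw [support_homogeneousComponent] at hα; exact (Finset.mem_filter.1 hα).1)

theorem deg_JJ (H : HS K Γ d) {p : MvPolynomial V K} (h : p ∈ JJ Γ G.r d ∅) :
    deg G d Γ p = 0 := by
  obtain ⟨y, hy, z, hz, rfl⟩ := Submodule.mem_sup.1 h
  rw [map_add, show deg G d Γ y = 0 from piL_SR G (hc_SR hy d), zero_add]
  refine TM_le (U := (LinearMap.ker (deg G d Γ)).toAddSubgroup) (fun i hi m => ?_) hz
  change piL G d Γ (homogeneousComponent d (th G.r i * m)) = 0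
  rw [th, hc_mul (lin_hom _), if_pos (by omega), ← th, piL_th G hi,
    (homogeneousComponent (d - 1) m).as_sum, map_sum, Finset.sum_eq_zero, mul_zero]
  intro α hα
  have : α.degree = d - 1 := by
    rw [support_homogeneousComponent] at hα; exact (Finset.mem_filter.1 hα).2
  rw [← mul_one (coeff _ _), ← smul_eq_mul, ← smul_monomial, map_smul,
    piL_low G H α (by omega), smul_zero]

omit [Fintype V] [DecidableEq V] [CharP K 2] in
theorem prodX_hom (σ : Finset V) : (∏ v ∈ σ, (X v : MvPolynomial V K)).IsHomogeneous σ.card := by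
  simpa using IsHomogeneous.prod σ (fun v => (X v : MvPolynomial V K)) (fun _ => 1)
    fun v _ => isHomogeneous_X K v

omit [CharP K 2] in
theorem prodX_mul_JJ {a : ℕ → V → K} {σ : Finset V} {p : MvPolynomial V K}
    (h : p ∈ JJ Γ a d σ) : (∏ v ∈ σ, X v) * p ∈ JJ Γ a d ∅ := by
  obtain ⟨y, hy, z, hz, rfl⟩ := Submodule.mem_sup.1 h
  rw [mul_add]
  refine Submodule.add_mem_sup (fun α hα F hF h' => ?_) (Ideal.mul_mem_left _ _ hz)
  obtain ⟨β, hβ, γ, hγ, rfl⟩ := Finset.mem_add.1 (support_mul _ _ hα)
  refine hy γ hγ F hF (Finset.union_subset ((Finsupp.support_mono le_add_self).trans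
    (Finset.union_subset_left h')) fun v hv => Finset.union_subset_left h' ?_)
  have : X v ∣ ∏ v ∈ σ, (X v : MvPolynomial V K) := Finset.dvd_prod_of_mem _ hv
  rw [X, monomial_one_dvd_iff_modMonomial_eq_zero] at this
  have h2 : Finsupp.single v 1 ≤ β := by
    by_contra h3
    have h4 := coeff_modMonomial_of_not_le (∏ v ∈ σ, (X v : MvPolynomial V K)) h3
    rw [this, coeff_zero] at h4
    exact mem_support_iff.1 hβ h4.symm
  have := Finsupp.single_le_iff.1 h2
  simp only [Finsupp.mem_support_iff, Finsupp.add_apply]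
  omega

theorem pd_star (H : HS K Γ d) (σ : Finset V) (p : MvPolynomial V K)
    (hp : ∀ q, deg G d Γ ((∏ v ∈ σ, X v) * (p * q)) = 0) : p ∈ JJ Γ G.r d σ := by
  induction h : Fintype.card V - σ.card using Nat.strong_induction_on generalizing σ p with
  | _ m ih =>
  by_cases hσ : σ ∈ Γ
  swap
  · exact Submodule.mem_sup_left (SR_top H.down hσ _)
  obtain ⟨F, h1, h2, h3⟩ := H.facet hσ
  have ih' : ∀ p, (∀ v ∉ σ, ∀ q, deg G d Γ ((∏ v ∈ σ, X v) * (p * (X v * q))) = 0) →
      ∀ v ∉ σ, p ∈ JJ Γ G.r d (insert v σ) := fun p hp v hv =>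
    ih _ (by
      have := Finset.card_le_univ (insert v σ)
      rw [Finset.card_insert_of_notMem hv] at this ⊢
      omega) _ p (fun q => by
        rw [Finset.prod_insert hv, ← hp v hv q]; congr 1; ring) rfl
  have e1 : (∏ v ∈ σ, X v) * ∏ v ∈ F \ σ, (X v : MvPolynomial V K) = ∏ v ∈ F, X v := by
    rw [mul_comm, Finset.prod_sdiff h2]
  obtain ⟨x, y, h4, h5⟩ := (cm H (G.rows d) σ).2 p (∏ v ∈ F \ σ, X v)
    (ih' p fun v _ q => hp _) (ih' _ fun v _ q => by
      rw [← mul_assoc, e1, ← mul_assoc, deg, LinearMap.comp_apply,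
        hc_mul ((prodX_hom F).mul (isHomogeneous_X K v)), if_neg (by omega), map_zero])
  have h6 := deg_JJ G H (prodX_mul_JJ h5)
  rw [mul_add, map_add, mul_left_comm, mul_left_comm _ (C y), e1, ← smul_eq_C_mul, ← smul_eq_C_mul,
    map_smul, map_smul, ← mul_one p, hp, smul_zero, zero_add, deg_hom G (h3 ▸ prodX_hom F),
    smul_eq_mul, mul_eq_zero] at h6
  obtain rfl := h6.resolve_right (piL_facet G h1 h3)
  have hx : x ≠ 0 := h4.resolve_right fun h => h rfl
  have := Ideal.mul_mem_left _ (C x⁻¹) h5
  rwa [C_0, zero_mul, add_zero, ← mul_assoc, ← C_mul, inv_mul_cancel₀ hx, C_1, one_mul] at this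

theorem pd_hom (H : HS K Γ d) {i j : ℕ} (hij : i + j = d) {p : MvPolynomial V K}
    (hp : p.IsHomogeneous i) (h : ∀ q : MvPolynomial V K, q.IsHomogeneous j →
      deg G d Γ (p * q) = 0) : p ∈ JJ Γ G.r d ∅ := by
  refine pd_star G H ∅ p fun q => ?_
  rw [Finset.prod_empty, one_mul, ← h _ (homogeneousComponent_isHomogeneous j q), deg,
    LinearMap.comp_apply, LinearMap.comp_apply, hc_mul hp, hc_mul hp, if_pos (by omega),
    if_pos (by omega), show d - i = j by omega,
    homogeneousComponent_eq_self (homogeneousComponent_isHomogeneous j q)]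

theorem pp_identity {k : ℕ} (u : MvPolynomial V K) (w : V) (n : Fin k → V)
    (h : piL G (2 * k + 1) Γ (lin 1 * u ^ 2) = 0) :
    piL G (2 * k + 1) Γ (u * (X w * ∏ l, X (n l))) = 0 := by
  classical
  obtain ⟨e⟩ : Nonempty (Fin (2 * k + 1) ≃ Option (Fin k × Bool)) :=
    ⟨Fintype.equivOfCardEq (by simp [mul_comm])⟩
  let I : Fin (2 * k + 1) → V := fun i => (e i).elim w fun x => n x.1
  have hI : ∀ y : V → K, ∏ i, y (I i) = y w * (∏ l, y (n l)) ^ 2 := fun y => by
    rw [Equiv.prod_comp e fun o => y (o.elim w fun x => n x.1)]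
    simp [Fintype.prod_option, Fintype.prod_prod_type, sq, Finset.prod_mul_distrib]
  have h1 := congrArg (G.dI (fun i => some (I i)) Finset.univ) h
  rw [map_zero, piL_apply, map_sum] at h1
  refine pow_eq_zero_iff two_ne_zero |>.1 ?_
  rw [piL_apply, CharTwo.sum_sq]
  refine Eq.trans (Finset.sum_congr rfl fun F _ => ?_) h1
  split_ifs with hF
  swap
  · simp
  obtain ⟨g, hg, hF', h2, h3⟩ := exists_enum G hF.2
  have e1 : wF G (2 * k + 1) F * aeval (yF G (2 * k + 1) F) (lin 1 * u ^ 2) =
      aeval (yF G (2 * k + 1) F) u ^ 2 * ((∑ j, G.yy (some ∘ g) none j) /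
        ((G.mat (some ∘ g)).det * ∏ j, G.yy (some ∘ g) none j)) := by
    rw [map_mul, map_pow, ev_lin, sum_enum G hg hF', wF, prod_enum hg hF', h2]
    simp only [h3, Pi.one_apply, one_mul]
    ring
  rw [e1, Gen.dI, itr_sq, ← Gen.dI, map_mul, map_mul, map_prod]
  simp only [aeval_X]
  by_cases hIF : ∀ i, I i ∈ F
  · choose I' hI' using fun i => (hF' _).1 (hIF i)
    obtain ⟨w', rfl⟩ : ∃ j, g j = w := ⟨I' (e.symm none), by simp [hI', I]⟩
    have := G.local_pp (z := none) ((Option.some_injective V).comp hg) (by simp)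
      (fun j => by rw [h3]; exact yF_ne G hF.2 ((hF' _).2 ⟨j, rfl⟩)) I' w'
      (∏ l, yF G (2 * k + 1) F (n l)) (by simp only [h3, hI']; exact hI _)
    simp only [Function.comp_apply, hI'] at this
    rw [this, wF, prod_enum hg hF', h2]
    simp only [h3]
    ring
  · obtain ⟨i, hi⟩ := not_forall.1 hIF
    rw [G.local_zero (i := i) (fun j e => hi ((hF' _).2 ⟨j, by simpa using e⟩)) (by simp)]
    have h4 := hI (yF G (2 * k + 1) F)
    rw [Finset.prod_eq_zero (Finset.mem_univ i) (by simp [yF, hi]), eq_comm, mul_eq_zero,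
      pow_eq_zero_iff two_ne_zero, ← mul_eq_zero] at h4
    simp [h4]

omit [Fintype V] [DecidableEq V] [CharP K 2] in
theorem mono_eq_prod_fin (m : ℕ) (α : V →₀ ℕ) (h : α.degree = m) :
    ∃ n : Fin m → V, monomial α (1 : K) = ∏ l, X (n l) := by
  induction m generalizing α with
  | zero => exact ⟨Fin.elim0, by simp [(Finsupp.degree_eq_zero_iff α).1 h]⟩
  | succ m ih =>
    obtain ⟨v, hv⟩ : ∃ v, α v ≠ 0 := by
      by_contra! h'
      have : α = 0 := Finsupp.ext h'
      simp [this] at h
    have h2 : α - Finsupp.single v 1 + Finsupp.single v 1 = α :=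
      tsub_add_cancel_of_le (Finsupp.single_le_iff.2 (by omega))
    obtain ⟨n, hn⟩ := ih (α - Finsupp.single v 1) (by
      have := congrArg Finsupp.degree h2
      simp only [map_add, Finsupp.degree_single] at this
      omega)
    exact ⟨Fin.cons v n, by rw [← h2, ← X_mul_mono, hn, Fin.prod_univ_succ]; simp⟩

omit [Fintype V] [DecidableEq V] [CharP K 2] in
theorem hom_induction {M : Type} [AddCommGroup M] [Module K M] (f : MvPolynomial V K →ₗ[K] M)
    (U : Submodule K M) {m : ℕ} (h : ∀ α : V →₀ ℕ, α.degree = m → f (monomial α 1) ∈ U)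
    {p : MvPolynomial V K} (hp : p.IsHomogeneous m) : f p ∈ U := by
  rw [p.as_sum, map_sum]
  refine U.sum_mem fun α hα => ?_
  rw [← mul_one (coeff _ _), ← smul_eq_mul, ← smul_monomial, map_smul]
  refine U.smul_mem _ (h α ?_)
  by_contra h'
  exact mem_support_iff.1 hα (hp.coeff_eq_zero h')

theorem lefschetz {k : ℕ} (H : HS K Γ (2 * k + 1)) {u : MvPolynomial V K}
    (hu : u.IsHomogeneous k) (h : lin 1 * u ∈ JJ Γ G.r (2 * k + 1) ∅) :
    u ∈ JJ Γ G.r (2 * k + 1) ∅ := by
  have h1 := deg_JJ G H (Ideal.mul_mem_right u _ h)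
  rw [mul_assoc, ← sq, deg_hom G (by
    convert (lin_hom (1 : V → K)).mul (hu.pow 2) using 1; ring)] at h1
  refine pd_hom G H (j := k + 1) (by ring) hu fun q hq => ?_
  refine hom_induction (deg G (2 * k + 1) Γ ∘ₗ LinearMap.mulLeft K u) ⊥ (fun α hα => ?_) hq
  obtain ⟨n, hn⟩ := mono_eq_prod_fin (K := K) _ α hα
  have h2 := pp_identity G u (n 0) (fun l => n l.succ) h1
  rw [← Fin.prod_univ_succ (fun l => (X (n l) : MvPolynomial V K)), ← hn] at h2
  rw [Submodule.mem_bot, LinearMap.comp_apply, LinearMap.mulLeft_apply, deg_hom G (by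
    convert hu.mul (isHomogeneous_monomial (1 : K) hα) using 1; ring), h2]

end

end Pool.Agent.P.MP_233bd3_co
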