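import Pool.Agent.P.MP_233bd3_co.Deg

/-!
The number of missing `(k+1)`-faces of a neighborly `2k`-sphere is never one below the maximum.
-/

open MvPolynomial Module

namespace Pool.Agent.P.MP_233bd3_co

noncomputable section

variable {K : Type} [Field K]

theorem fr_split {M N : Type} [AddCommGroup M] [Module K M] [AddCommGroup N] [Module K N]
    (U : Submodule K M) [Module.Finite K U] (f : M →ₗ[K] N) :
    finrank K U = finrank K (U.map f) + finrank K (U ⊓ LinearMap.ker f : Submodule K M) := by
  rw [← LinearMap.finrank_range_add_finrank_ker (f ∘ₗ U.subtype), LinearMap.range_comp,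
    Submodule.range_subtype, LinearMap.ker_comp, ← Submodule.finrank_map_subtype_eq,
    Submodule.map_comap_subtype]

theorem fr_map_eq {M N P : Type} [AddCommGroup M] [Module K M] [AddCommGroup N] [Module K N]
    [AddCommGroup P] [Module K P] (U : Submodule K M) [Module.Finite K U] (f : M →ₗ[K] N)
    (g : M →ₗ[K] P) (h : ∀ x ∈ U, f x = 0 ↔ g x = 0) :
    finrank K (U.map f) = finrank K (U.map g) := by
  have h1 := fr_split U f
  have h2 := fr_split U g
  have : U ⊓ LinearMap.ker f = U ⊓ LinearMap.ker g := by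
    ext x
    exact and_congr_right fun hx => h x hx
  rw [this] at h1
  omega

theorem fr_flip {M N : Type} [AddCommGroup M] [Module K M] [AddCommGroup N] [Module K N]
    [Module.Finite K M] [Module.Finite K N] (b : M →ₗ[K] N →ₗ[K] K) :
    finrank K (LinearMap.range b.flip) = finrank K (LinearMap.range b) := by
  rw [← LinearMap.finrank_range_dualMap_eq_finrank_range b,
    show b.flip = b.dualMap ∘ₗ (Module.evalEquiv K N).toLinearMap from rfl,
    LinearMap.range_comp_of_range_eq_top _ (LinearEquiv.range _)]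

variable {V : Type} [DecidableEq V] [Fintype V]

omit [DecidableEq V] in
theorem hom_finite (j : ℕ) : Module.Finite K (homogeneousSubmodule V K j) :=
  Module.Finite.iff_fg.2 (homogeneousSubmodule_fg V K j)

attribute [local instance] hom_finite

/-- The quotient map as a linear map. -/
def mkL (J : Ideal (MvPolynomial V K)) : MvPolynomial V K →ₗ[K] (MvPolynomial V K ⧸ J) :=
  (Ideal.Quotient.mkₐ K J).toLinearMap

omit [DecidableEq V] [Fintype V] in
theorem mkL_eq_zero {J : Ideal (MvPolynomial V K)} {p : MvPolynomial V K} :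
    mkL J p = 0 ↔ p ∈ J := Ideal.Quotient.eq_zero_iff_mem

omit [DecidableEq V] [Fintype V] in
theorem mkL_eq {J : Ideal (MvPolynomial V K)} {p q : MvPolynomial V K} :
    mkL J p = mkL J q ↔ p - q ∈ J := Ideal.Quotient.eq

/-- The Hilbert function of the quotient by `J`. -/
def hf (J : Ideal (MvPolynomial V K)) (j : ℕ) : ℕ :=
  finrank K ((homogeneousSubmodule V K j).map (mkL J))

/-- The exponent vector of a squarefree monomial. -/
def ind (T : Finset V) : V →₀ ℕ := Finsupp.equivFunOnFinite.symm fun v => if v ∈ T then 1 else 0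

theorem ind_apply (T : Finset V) (v : V) : ind T v = if v ∈ T then 1 else 0 := rfl

theorem support_ind (T : Finset V) : (ind T).support = T := by
  ext v; simp [ind_apply]

theorem degree_ind (T : Finset V) : (ind T).degree = T.card := by
  rw [degree_eq_card fun v => by rw [ind_apply]; split_ifs <;> simp, support_ind]

theorem ind_le {T : Finset V} {α : V →₀ ℕ} (h : T ⊆ α.support) : ind T ≤ α := fun v => by
  rw [ind_apply]
  split_ifs with hv
  · exact Nat.one_le_iff_ne_zero.2 (Finsupp.mem_support_iff.1 (h hv))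
  · exact Nat.zero_le _

theorem eq_ind {T : Finset V} {α : V →₀ ℕ} (h : T ⊆ α.support) (h' : α.degree ≤ T.card) :
    α = ind T := by
  obtain ⟨β, rfl⟩ := exists_add_of_le (ind_le h)
  rw [map_add, degree_ind] at h'
  rw [(Finsupp.degree_eq_zero_iff β).1 (by omega), add_zero]

variable {a : ℕ → V → K} {d : ℕ} {Γ : Set (Finset V)}

omit [DecidableEq V] in
theorem hc_TM {z : MvPolynomial V K} (hz : z ∈ TM (th a) (MvPolynomial V K) d) (j : ℕ) :
    homogeneousComponent j z ∈ TM (th a) (MvPolynomial V K) d := by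
  refine TM_le (U := (((TM (th a) (MvPolynomial V K) d).restrictScalars K).comap
    (homogeneousComponent j)).toAddSubgroup) (fun i hi m => ?_) hz
  change homogeneousComponent j (lin (a i) * m) ∈ TM (th a) (MvPolynomial V K) d
  rw [hc_mul (lin_hom _)]
  split_ifs
  exacts [th_mem hi _, Submodule.zero_mem _]

omit [DecidableEq V] in
theorem TM_ker {N : Type} [AddCommGroup N] [Module K N] (f : MvPolynomial V K →ₗ[K] N)
    (h : ∀ i < d, ∀ m, f (th a i * m) = 0) {z : MvPolynomial V K}
    (hz : z ∈ TM (th a) (MvPolynomial V K) d) : f z = 0 :=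
  TM_le (U := (LinearMap.ker f).toAddSubgroup) h hz

theorem JJ_split {p : MvPolynomial V K} {j : ℕ} (hp : p.IsHomogeneous j) (h : p ∈ JJ Γ a d ∅) :
    ∃ y ∈ SR K Γ ∅, y.IsHomogeneous j ∧ p - y ∈ TM (th a) (MvPolynomial V K) d := by
  obtain ⟨y, hy, z, hz, e⟩ := Submodule.mem_sup.1 h
  refine ⟨_, hc_SR hy j, homogeneousComponent_isHomogeneous j y, ?_⟩
  have := hc_TM hz j
  rwa [eq_sub_of_add_eq' e, map_sub, homogeneousComponent_eq_self hp] at this

theorem hf_TM (R : Rows a d) {F : Finset V} (hF : F.card = d) :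
    ∃ c, c + d = Fintype.card V ∧ ∀ j, hf (TM (th a) (MvPolynomial V K) d) j = c.multichoose j := by
  obtain ⟨c, P, h0, h1, -, h2⟩ := exists_elim (Ur a Finset.univ d)
  have e1 : idl (Ur a Finset.univ d) = TM (th a) (MvPolynomial V K) d := by
    rw [idl_Ur, sup_eq_right]
    intro p hp
    rw [show p = 0 from MvPolynomial.ext _ _ fun α => mem_SR_self.1 hp α (Finset.subset_univ _)]
    exact Submodule.zero_mem _
  have e2 : Ur a Finset.univ d =
      LinearMap.range (Fintype.linearCombination K fun i : Fin d => a i) := by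
    ext u
    constructor
    · rintro ⟨l, hl⟩
      refine ⟨fun i => l i, funext fun v => ?_⟩
      rw [← hl v (Finset.mem_univ v), Finset.sum_range]
      simp [Fintype.linearCombination_apply]
    · rintro ⟨l, rfl⟩
      refine ⟨fun i => if h : i < d then l ⟨i, h⟩ else 0, fun v _ => ?_⟩
      rw [Finset.sum_range]
      simp [Fintype.linearCombination_apply]
  have e3 : finrank K (Ur a Finset.univ d) = d := by
    rw [e2, LinearMap.finrank_range_of_inj ((injective_iff_map_eq_zero _).2 fun l hl => ?_)]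
    · simp
    funext i
    have := R.indep F hF.le (fun i => if h : i < d then l ⟨i, h⟩ else 0) (fun v _ => by
      rw [hF, Finset.sum_range]
      simpa [Fintype.linearCombination_apply] using congrFun hl v) i (hF ▸ i.2)
    simpa using this
  refine ⟨c, e3 ▸ h0, fun j => ?_⟩
  rw [← finrank_hom (K := K), ← h2]
  exact fr_map_eq _ _ _ fun x _ => by rw [mkL_eq_zero, ← e1, ← h1]; rfl

variable [CharP K 2] (G : Gen K (Option V))

theorem hf_symm (H : HS K Γ d) {i j : ℕ} (hij : i + j = d) :
    hf (JJ Γ G.r d ∅) i = hf (JJ Γ G.r d ∅) j := by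
  let f : ∀ j, MvPolynomial V K →ₗ[K] homogeneousSubmodule V K j →ₗ[K] K := fun j =>
    ((LinearMap.mul K _).compr₂ (deg G d Γ)).compl₂ (homogeneousSubmodule V K j).subtype
  have key : ∀ i j, i + j = d → hf (JJ Γ G.r d ∅) i =
      finrank K (LinearMap.range (f j ∘ₗ (homogeneousSubmodule V K i).subtype)) := by
    intro i j hij
    rw [LinearMap.range_comp, Submodule.range_subtype]
    refine fr_map_eq _ _ _ fun x hx => mkL_eq_zero.trans
      ⟨fun h => LinearMap.ext fun q => deg_JJ G H (Ideal.mul_mem_right _ _ h),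
        fun h => pd_hom G H hij hx fun q hq => LinearMap.congr_fun h ⟨q, hq⟩⟩
  rw [key i j hij, key j i (by omega), ← fr_flip]
  have : (f j ∘ₗ (homogeneousSubmodule V K i).subtype).flip =
      f i ∘ₗ (homogeneousSubmodule V K j).subtype := by
    ext x y
    exact congrArg (deg G d Γ) (mul_comm _ _)
  rw [this]

include G in
theorem main_alg {k : ℕ} (hk : 1 ≤ k) (H : HS K Γ (2 * k + 1))
    (hN : ∀ F : Finset V, F.card = k → F ∈ Γ) :
    Set.ncard {F : Finset V | F.card = k + 2 ∧ F ∉ Γ ∧ ∀ T ⊂ F, T ∈ Γ} + 1 ≠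
      (Fintype.card V - k - 3).choose k := by
  intro hm
  set M := {F : Finset V | F.card = k + 2 ∧ F ∉ Γ ∧ ∀ T ⊂ F, T ∈ Γ} with hM
  set d := 2 * k + 1 with hd
  let Γ' : Set (Finset V) := {τ | ∀ T ⊆ τ, T.card = k + 1 → T ∈ Γ}
  have down' : ∀ F ∈ Γ', ∀ T ⊆ F, T ∈ Γ' := fun F hF T hT U hU => hF U (hU.trans hT)
  set J := JJ Γ G.r d ∅ with hJ
  set J' := JJ Γ' G.r d ∅ with hJ'
  set ℓ : MvPolynomial V K := lin 1 with hℓ
  have hℓ1 : ℓ.IsHomogeneous 1 := lin_hom _
  obtain ⟨F0, -, -, hF0⟩ := H.facet H.empty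
  obtain ⟨c, hc, hcj⟩ := hf_TM (G.rows d) hF0
  have small : ∀ F : Finset V, F.card ≤ k → F ∈ Γ := fun F hF => by
    obtain ⟨T, h1, h2⟩ := Finset.exists_superset_card_eq hF (by omega : k ≤ Fintype.card V)
    exact H.down T (hN T h2) F h1
  have small' : ∀ F ∈ Γ', F.card ≤ k + 1 → F ∈ Γ := fun F hF h => by
    rcases h.eq_or_lt with h | h
    exacts [hF F subset_rfl h, small F (by omega)]
  have hSR : SR K Γ' ∅ ≤ SR K Γ ∅ := fun p hp => (mem_SR H.down).2 fun α hα =>
    (mem_SR down').1 hp α fun T hT _ => H.down _ hα T hT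
  have hJJ : J' ≤ J := sup_le_sup_right hSR _
  have low : ∀ j ≤ k, ∀ p : MvPolynomial V K, p.IsHomogeneous j → p ∈ J →
      p ∈ TM (th G.r) (MvPolynomial V K) d := by
    intro j hj p hp h
    obtain ⟨y, h1, h2, h3⟩ := JJ_split hp h
    have : y = 0 := MvPolynomial.ext _ _ fun α => by
      by_cases e : α.degree = j
      · exact (mem_SR H.down).1 h1 α (small _ (by
          have := card_support_le α; rw [Finset.union_empty]; omega))
      · exact h2.coeff_eq_zero e
    simpa [this] using h3
  have mid : ∀ j ≤ k + 1, ∀ p : MvPolynomial V K, p.IsHomogeneous j → p ∈ J → p ∈ J' := by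
    intro j hj p hp h
    obtain ⟨y, h1, h2, h3⟩ := JJ_split hp h
    refine Submodule.mem_sup.2 ⟨y, (mem_SR down').2 fun α hα => ?_, _, h3, by ring⟩
    by_cases e : α.degree = j
    · exact (mem_SR H.down).1 h1 α (small' _ hα (by
        have := card_support_le α; rw [Finset.union_empty]; omega))
    · exact h2.coeff_eq_zero e
  have aN : ∀ j ≤ k, hf J j = c.multichoose j := fun j hj => by
    rw [← hcj]
    exact fr_map_eq _ _ _ fun x hx => by
      rw [mkL_eq_zero, mkL_eq_zero]
      exact ⟨low j hj x hx, fun h => Submodule.mem_sup_right h⟩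
  have a1 : hf J k = hf J (k - 1) + M.ncard + 1 := by
    rw [aN k le_rfl, aN (k - 1) (by omega), add_assoc, hm]
    obtain ⟨k, rfl⟩ := Nat.exists_eq_add_of_le' hk
    rcases c with _ | c
    · rw [Nat.choose_eq_zero_of_lt (by omega)] at hm
      omega
    · rw [Nat.multichoose_succ_succ, Nat.multichoose_eq c, add_comm, Nat.add_sub_cancel]
      congr 2
      omega
  have a2 : hf J' (k + 1) = hf J k := by
    rw [hf_symm G H (i := k) (j := k + 1) (by omega)]
    exact fr_map_eq _ _ _ fun x hx => by
      rw [mkL_eq_zero, mkL_eq_zero]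
      exact ⟨fun h => hJJ h, mid _ le_rfl x hx⟩
  have a3 : hf J' (k + 2) = hf J (k - 1) + M.ncard := by
    classical
    let φ : (MvPolynomial V K ⧸ J') →ₗ[K] (MvPolynomial V K ⧸ J) :=
      (Ideal.Quotient.factorₐ K hJJ).toLinearMap
    have b1 : φ ∘ₗ mkL J' = mkL J := rfl
    have b2 : (homogeneousSubmodule V K (k + 2)).map (mkL J') ⊓ LinearMap.ker φ =
        Submodule.span K (Set.range fun T : M => mkL J' (monomial (ind T.1) 1)) := by
      apply le_antisymm
      · rintro _ ⟨⟨p, hp, rfl⟩, h⟩
        obtain ⟨y, h1, h2, h3⟩ := JJ_split hp (mkL_eq_zero.1 h)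
        rw [(mkL_eq (J := J')).2 (Submodule.mem_sup_right h3), y.as_sum, map_sum]
        refine Submodule.sum_mem _ fun α hα => ?_
        rw [← mul_one (coeff _ _), ← smul_eq_mul, ← smul_monomial, map_smul]
        refine Submodule.smul_mem _ _ ?_
        have c1 : α.degree = k + 2 := by
          by_contra h'
          exact mem_support_iff.1 hα (h2.coeff_eq_zero h')
        have c2 : α.support ∉ Γ := fun h' => h1 α hα _ h' (by simp)
        by_cases c3 : α.support ∈ Γ'
        · have c4 : α.support.card = k + 2 := by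
            have := card_support_le α
            by_contra h'
            exact c2 (small' _ c3 (by omega))
          refine Submodule.subset_span ⟨⟨α.support, c4, c2, fun T hT => small' T
            (down' _ c3 _ hT.subset) (by have := Finset.card_lt_card hT; omega)⟩, ?_⟩
          simp only
          rw [← eq_ind subset_rfl (by omega)]
        · rw [(mkL_eq_zero (J := J')).2 (Submodule.mem_sup_left ((mem_SR down').2 fun β hβ => ?_))]
          · exact Submodule.zero_mem _
          · rw [coeff_monomial, if_neg]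
            rintro rfl
            exact c3 (by simpa using hβ)
      · rw [Submodule.span_le]
        rintro _ ⟨T, rfl⟩
        refine ⟨⟨_, isHomogeneous_monomial _ (by rw [degree_ind, T.2.1]), rfl⟩,
          mkL_eq_zero.2 (Submodule.mem_sup_left ((mem_SR H.down).2 fun β hβ => ?_))⟩
        rw [coeff_monomial, if_neg]
        rintro rfl
        exact T.2.2.1 (by simpa [support_ind] using hβ)
    have b3 : LinearIndependent K fun T : M => mkL J' (monomial (ind T.1) 1) := by
      rw [Fintype.linearIndependent_iff]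
      intro l hl T
      have h1 : (∑ T : M, l T • monomial (ind T.1) (1 : K)) ∈ J' := by
        rw [← mkL_eq_zero, map_sum]
        simpa using hl
      obtain ⟨y, hy, z, hz, e⟩ := Submodule.mem_sup.1 h1
      have h2 : z ∈ SR K Γ ∅ := by
        rw [eq_sub_of_add_eq' e]
        refine Ideal.sub_mem _ (Submodule.sum_mem _ fun U _ => (mem_SR H.down).2 fun β hβ => ?_)
          (hSR hy)
        rw [coeff_smul, coeff_monomial, if_neg, smul_zero]
        rintro rfl
        exact U.2.2.1 (by simpa [support_ind] using hβ)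
      have h3 : coeff (ind T.1) z = 0 :=
        (cm H (G.rows d) ∅).1.inter (U := (LinearMap.ker (lcoeff K (ind T.1))).toAddSubgroup)
          (fun i p hp => by
            change coeff (ind T.1) (th G.r i * p) = 0
            rw [th, lin_apply, Finset.sum_mul, coeff_sum]
            refine Finset.sum_eq_zero fun v _ => ?_
            rw [smul_mul_assoc, coeff_smul, coeff_X_mul']
            split_ifs with hv
            · rw [support_ind] at hv
              rw [(mem_SR H.down).1 hp _ (T.2.2.2 _ ?_), smul_zero]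
              refine (Finset.erase_ssubset hv).trans_le' fun w hw => ?_
              by_cases e : w = v
              · subst e; simp [ind_apply, hv] at hw
              · simpa [ind_apply, e, Finsupp.single_eq_of_ne e] using hw
            · simp) hz h2
      have h4 : coeff (ind T.1) y = 0 := (mem_SR down').1 hy _ (by
        rw [support_ind, Finset.union_empty]
        exact fun U hU h => T.2.2.2 U (hU.ssubset_of_ne (by
          rintro rfl; have := T.2.1; omega)))
      have h5 := congrArg (coeff (ind T.1)) e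
      rw [coeff_add, h3, h4, coeff_sum, Finset.sum_eq_single T] at h5
      · simpa using h5.symm
      · intro U _ hU
        rw [coeff_smul, coeff_monomial, if_neg, smul_zero]
        intro e
        exact hU (Subtype.ext (by rw [← support_ind U.1, e, support_ind]))
      · simp
    rw [hf, fr_split _ φ, b2, finrank_span_eq_card b3, ← Submodule.map_comp, b1,
      hf_symm G H (i := k - 1) (j := k + 2) (by omega), ← Nat.card_coe_set_eq,
      Nat.card_eq_fintype_card]
    rfl
  have inj : ∀ u : MvPolynomial V K, u.IsHomogeneous k → ℓ * u ∈ J' → u ∈ J' := fun u hu h =>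
    mid k (by omega) u hu (lefschetz G H hu (hJJ h))
  have surj : ∀ f : MvPolynomial V K, f.IsHomogeneous (k + 1) →
      ∃ g : MvPolynomial V K, g.IsHomogeneous k ∧ f - ℓ * g ∈ J' := by
    intro f hf'
    have b1 : (homogeneousSubmodule V K k).map (mkL J' ∘ₗ LinearMap.mulLeft K ℓ) =
        (homogeneousSubmodule V K (k + 1)).map (mkL J') := by
      refine Submodule.eq_of_le_of_finrank_eq ?_ ?_
      · rintro _ ⟨g, hg, rfl⟩
        exact ⟨ℓ * g, add_comm 1 k ▸ hℓ1.mul hg, rfl⟩
      · refine Eq.trans (fr_map_eq _ _ (mkL J) fun x hx => ?_) a2.symm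
        rw [mkL_eq_zero]
        exact mkL_eq_zero.trans ⟨fun h => hJJ (inj x hx h),
          fun h => Ideal.mul_mem_left _ _ (mid k (by omega) x hx h)⟩
    obtain ⟨g, hg, e⟩ := b1.ge ⟨f, hf', rfl⟩
    exact ⟨g, hg, mkL_eq.1 e.symm⟩
  let L : (MvPolynomial V K ⧸ J') →ₗ[K] (MvPolynomial V K ⧸ J') := LinearMap.mulLeft K (mkL J' ℓ)
  have hL : ∀ p, L (mkL J' p) = mkL J' (ℓ * p) := fun _ => rfl
  have a4 : finrank K ((homogeneousSubmodule V K (k + 1)).map (mkL J') ⊓ LinearMap.ker L :
      Submodule K _) = 1 := by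
    have b1 : ((homogeneousSubmodule V K (k + 1)).map (mkL J')).map L =
        (homogeneousSubmodule V K (k + 2)).map (mkL J') := by
      apply le_antisymm
      · rintro _ ⟨_, ⟨g, hg, rfl⟩, rfl⟩
        exact ⟨ℓ * g, add_comm 1 (k + 1) ▸ hℓ1.mul hg, rfl⟩
      · rintro _ ⟨p, hp, rfl⟩
        refine hom_induction _ _ (fun α hα => ?_) hp
        obtain ⟨n, hn⟩ := mono_eq_prod_fin (K := K) _ α hα
        obtain ⟨g, hg, e⟩ := surj (∏ l : Fin (k + 1), X (n l.succ)) (by
          simpa using IsHomogeneous.prod Finset.univ (fun l : Fin (k + 1) =>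
            (X (n l.succ) : MvPolynomial V K)) (fun _ => 1) fun _ _ => isHomogeneous_X K _)
        refine ⟨_, ⟨X (n 0) * g, add_comm 1 k ▸ (isHomogeneous_X K _).mul hg, rfl⟩, ?_⟩
        rw [hL, hn, Fin.prod_univ_succ, eq_comm, mkL_eq]
        convert Ideal.mul_mem_left _ (X (n 0)) e using 1
        ring
    have b2 := fr_split ((homogeneousSubmodule V K (k + 1)).map (mkL J')) L
    rw [b1] at b2
    change hf J' (k + 1) = hf J' (k + 2) + _ at b2
    omega
  have W1 : ∀ f f' : MvPolynomial V K, f.IsHomogeneous (k + 1) → f'.IsHomogeneous (k + 1) →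
      ℓ * f ∈ J' → ℓ * f' ∈ J' → ∃ x y : K, (x ≠ 0 ∨ y ≠ 0) ∧ x • f + y • f' ∈ J' := by
    intro f f' h1 h2 h3 h4
    obtain ⟨v, -, hv⟩ := finrank_eq_one_iff'.1 a4
    obtain ⟨x, hx⟩ := hv ⟨mkL J' f, ⟨f, h1, rfl⟩, (hL f).trans (mkL_eq_zero.2 h3)⟩
    obtain ⟨y, hy⟩ := hv ⟨mkL J' f', ⟨f', h2, rfl⟩, (hL f').trans (mkL_eq_zero.2 h4)⟩
    have hx' : x • v.1 = mkL J' f := congrArg Subtype.val hx
    have hy' : y • v.1 = mkL J' f' := congrArg Subtype.val hy
    by_cases h0 : x = 0
    · refine ⟨1, 0, Or.inl one_ne_zero, mkL_eq_zero.1 ?_⟩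
      simp [← hx', h0]
    · refine ⟨y, -x, Or.inr (neg_ne_zero.2 h0), mkL_eq_zero.1 ?_⟩
      rw [map_add, map_smul, map_smul, ← hx', ← hy']
      module
  have dg : ∀ p ∈ J', ∀ q, deg G d Γ (p * q) = 0 := fun p hp q =>
    deg_JJ G H (Ideal.mul_mem_right _ _ (hJJ hp))
  have comm : ∀ (i j : V) (g gi gj : MvPolynomial V K), g.IsHomogeneous k → gi.IsHomogeneous k →
      gj.IsHomogeneous k → X i * g - ℓ * gi ∈ J' → X j * g - ℓ * gj ∈ J' →
      X j * gi - X i * gj ∈ J' := by
    intro i j g gi gj hg hgi hgj hi hj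
    have hom : ∀ gi gj : MvPolynomial V K, gi.IsHomogeneous k → gj.IsHomogeneous k →
        (X j * gi - X i * gj).IsHomogeneous (k + 1) := fun gi gj h1 h2 =>
      add_comm 1 k ▸ ((isHomogeneous_X K _).mul h1).sub ((isHomogeneous_X K _).mul h2)
    have ker : ∀ g gi gj : MvPolynomial V K, X i * g - ℓ * gi ∈ J' → X j * g - ℓ * gj ∈ J' →
        ℓ * (X j * gi - X i * gj) ∈ J' := fun g gi gj h1 h2 => by
      convert Ideal.sub_mem _ (Ideal.mul_mem_left _ (X i) h2) (Ideal.mul_mem_left _ (X j) h1)
        using 1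
      ring
    have alt : ∀ gi gj g' gi' gj' : MvPolynomial V K, X i * g' - ℓ * gi' ∈ J' →
        X j * g' - ℓ * gj' ∈ J' → deg G d Γ ((X j * gi - X i * gj) * g') =
          deg G d Γ (ℓ * gj' * gi) - deg G d Γ (ℓ * gi' * gj) := fun gi gj g' gi' gj' h1 h2 => by
      rw [← sub_eq_zero, ← map_sub, ← map_sub, ← sub_self (0 : K)]
      nth_rw 1 [← dg _ h2 gi]
      rw [← dg _ h1 gj, ← map_sub]
      congr 1
      ring
    refine mid _ le_rfl _ (hom gi gj hgi hgj) (pd_hom G H (j := k) (by omega) (hom gi gj hgi hgj)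
      fun g' hg' => ?_)
    by_contra h0
    obtain ⟨gi', hgi', hi'⟩ := surj (X i * g') (add_comm 1 k ▸ (isHomogeneous_X K _).mul hg')
    obtain ⟨gj', hgj', hj'⟩ := surj (X j * g') (add_comm 1 k ▸ (isHomogeneous_X K _).mul hg')
    obtain ⟨x, y, hxy, h⟩ := W1 _ _ (hom gi gj hgi hgj) (hom gi' gj' hgi' hgj') (ker g gi gj hi hj)
      (ker g' gi' gj' hi' hj')
    have e1 := dg _ h g'
    have e2 := dg _ h g
    rw [add_mul, smul_mul_assoc, smul_mul_assoc, map_add, map_smul, map_smul] at e1 e2
    rw [alt gi' gj' g' gi' gj' hi' hj', mul_right_comm ℓ gj', sub_self, smul_zero, add_zero,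
      smul_eq_mul, mul_eq_zero] at e1
    rw [alt gi gj g gi gj hi hj, mul_right_comm ℓ gj, sub_self, smul_zero, zero_add,
      alt gi' gj' g gi gj hi hj, smul_eq_mul, mul_eq_zero] at e2
    refine hxy.elim (fun hx => hx (e1.resolve_right h0)) fun hy => hy (e2.resolve_right fun e => h0 ?_)
    rw [alt gi gj g' gi' gj' hi' hj', mul_right_comm ℓ gj', mul_right_comm ℓ gi', ← neg_sub, e,
      neg_zero]
  choose s0 hs0 using fun α : V →₀ ℕ =>
    surj _ (homogeneousComponent_isHomogeneous (k + 1) (monomial α (1 : K)))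
  obtain ⟨s, hs⟩ : ∃ s : MvPolynomial V K →ₗ[K] MvPolynomial V K, ∀ α, s (monomial α 1) = s0 α :=
    ⟨(basisMonomials V K).constr K s0, fun α => (basisMonomials V K).constr_basis K s0 α⟩
  have lin_ind : ∀ {N : Type} [AddCommGroup N] [Module K N] (f : MvPolynomial V K →ₗ[K] N)
      (U : Submodule K N), (∀ α, f (monomial α 1) ∈ U) → ∀ p, f p ∈ U := by
    intro N _ _ f U h p
    rw [p.as_sum, map_sum]
    refine U.sum_mem fun α _ => ?_
    rw [← mul_one (coeff _ _), ← smul_eq_mul, ← smul_monomial, map_smul]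
    exact U.smul_mem _ (h α)
  have s1 : ∀ p, (s p).IsHomogeneous k := lin_ind s (homogeneousSubmodule V K k) fun α => by
    rw [hs]; exact (hs0 α).1
  have s2 : ∀ p, homogeneousComponent (k + 1) p - ℓ * s p ∈ J' :=
    lin_ind (homogeneousComponent (k + 1) - LinearMap.mulLeft K ℓ ∘ₗ s) (J'.restrictScalars K)
      fun α => by simpa [hs] using (hs0 α).2
  have s3 : ∀ p, homogeneousComponent (k + 1) p ∈ J' → s p ∈ J' := fun p h =>
    inj _ (s1 p) (by simpa using Ideal.sub_mem _ h (s2 p))
  have pick : ∀ α : V →₀ ℕ, ∃ v, α.degree = k + 2 → α v ≠ 0 := fun α => by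
    by_contra! h
    have h1 : α = 0 := Finsupp.ext fun v => (h v).2
    obtain ⟨v, -⟩ := Finset.card_pos.1 (by omega : 0 < F0.card)
    have := (h v).1
    simp [h1] at this
  choose v0 hv0 using pick
  obtain ⟨Φ, hΦ⟩ : ∃ Φ : MvPolynomial V K →ₗ[K] (MvPolynomial V K ⧸ J'), ∀ α,
      Φ (monomial α 1) = if α.degree = k + 2 then
        mkL J' (X (v0 α) * s (monomial (α - Finsupp.single (v0 α) 1) 1)) else 0 :=
    ⟨_, fun α => (basisMonomials V K).constr_basis K _ α⟩
  have Φ1 : ∀ i p, Φ (X i * p) = mkL J' (X i * s p) := by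
    intro i p
    refine sub_eq_zero.1 (lin_ind (Φ ∘ₗ LinearMap.mulLeft K (X i) -
      mkL J' ∘ₗ LinearMap.mulLeft K (X i) ∘ₗ s) ⊥ (fun β => sub_eq_zero.2 ?_) p)
    simp only [LinearMap.comp_apply, LinearMap.mulLeft_apply]
    rw [X_mul_mono, hΦ]
    have hβ := isHomogeneous_monomial (σ := V) (1 : K) (d := β) rfl
    split_ifs with h
    · set j := v0 (β + Finsupp.single i 1) with hj
      by_cases e : j = i
      · rw [e, add_tsub_cancel_right]
      have h1 : β.degree = k + 1 := by simpa using h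
      have h2 : β - Finsupp.single j 1 + Finsupp.single j 1 = β :=
        tsub_add_cancel_of_le (Finsupp.single_le_iff.2 (by
          have := hv0 _ h
          rw [← hj, Finsupp.add_apply, Finsupp.single_eq_of_ne e] at this
          omega))
      have h3 : (β - Finsupp.single j 1).degree = k := by
        have := congrArg Finsupp.degree h2
        simp only [map_add, Finsupp.degree_single] at this
        omega
      have h4 : β + Finsupp.single i 1 - Finsupp.single j 1 =
          β - Finsupp.single j 1 + Finsupp.single i 1 := by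
        conv_lhs => rw [← h2, add_right_comm, add_tsub_cancel_right]
      have key : ∀ w, X w * monomial (β - Finsupp.single j 1) (1 : K) -
          ℓ * s (monomial (β - Finsupp.single j 1 + Finsupp.single w 1) 1) ∈ J' := fun w => by
        have := s2 (monomial (β - Finsupp.single j 1 + Finsupp.single w 1) 1)
        rw [homogeneousComponent_eq_self (isHomogeneous_monomial _ (by simp [h3]))] at this
        rwa [X_mul_mono]
      have := comm i j _ _ _ (isHomogeneous_monomial _ h3) (s1 _) (s1 _) (key i) (key j)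
      rw [h2] at this
      rw [h4, mkL_eq]
      exact this
    · refine (mkL_eq_zero.2 (Ideal.mul_mem_left _ _ (s3 _ ?_))).symm
      rw [homogeneousComponent_of_mem hβ, if_neg fun e => h (by simp [← e])]
      exact Submodule.zero_mem _
  have Φ2 : ∀ u p, Φ (lin u * p) = mkL J' (lin u * s p) := fun u p => by
    simp only [lin_apply, Finset.sum_mul, smul_mul_assoc, map_sum, map_smul, Φ1]
  have Φ3 : ∀ p ∈ J', Φ p = 0 := by
    intro p hp
    obtain ⟨y, hy, z, hz, rfl⟩ := Submodule.mem_sup.1 hp
    have b0 : ∀ i < d, ∀ m, Φ (th G.r i * m) = 0 := fun i hi m =>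
      (Φ2 (G.r i) m).trans ((mkL_eq_zero (J := J')).2 (Submodule.mem_sup_right (th_mem hi _)))
    have b1 : Φ z = 0 := TM_ker Φ b0 hz
    rw [map_add, b1, add_zero, y.as_sum, map_sum]
    refine Finset.sum_eq_zero fun α hα => ?_
    rw [← mul_one (coeff _ _), ← smul_eq_mul, ← smul_monomial, map_smul]
    refine smul_eq_zero_of_right _ ?_
    by_cases h : α.degree = k + 2
    swap
    · rw [hΦ, if_neg h]
    have b2 : α.support ∉ Γ' := fun h' => hy α hα _ h' (by simp)
    obtain ⟨T, hT, hT1, hT2⟩ : ∃ T ⊆ α.support, T.card = k + 1 ∧ T ∉ Γ := by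
      by_contra! h'
      exact b2 h'
    obtain ⟨β, rfl⟩ := exists_add_of_le (ind_le hT)
    rw [map_add, degree_ind, hT1] at h
    obtain ⟨n, hn⟩ := mono_eq_prod_fin (K := K) 1 β (by omega)
    rw [show monomial (ind T + β) (1 : K) = X (n 0) * monomial (ind T) 1 by
      rw [← Fin.prod_univ_one fun l => (X (n l) : MvPolynomial V K), ← hn, monomial_mul, add_comm,
        one_mul], Φ1]
    refine mkL_eq_zero.2 (Ideal.mul_mem_left _ _ (s3 _ ?_))
    rw [homogeneousComponent_eq_self (isHomogeneous_monomial _ (by rw [degree_ind, hT1]))]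
    refine Submodule.mem_sup_left ((mem_SR down').2 fun γ hγ => ?_)
    rw [coeff_monomial, if_neg]
    rintro rfl
    exact hT2 (hγ T (by simp [support_ind]) hT1)
  have a5 : (homogeneousSubmodule V K (k + 1)).map (mkL J') ⊓ LinearMap.ker L = ⊥ := by
    rw [eq_bot_iff]
    rintro _ ⟨⟨f, hf', rfl⟩, h⟩
    have b1 := Φ3 _ (mkL_eq_zero.1 ((hL f).symm.trans h))
    rw [Φ2] at b1
    have b2 := s2 f
    rw [homogeneousComponent_eq_self hf'] at b2
    exact (mkL_eq.2 b2).trans b1
  rw [a5, finrank_bot] at a4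
  exact zero_ne_one a4

end

end Pool.Agent.P.MP_233bd3_co
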