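import Pool.Agent.P.MP_233bd3_co.Sphere

/-!
A complex homeomorphic to a sphere is a homology sphere: the cochain form used later.
-/

open Finsupp Metric

namespace Pool.Agent.P.MP_233bd3_co

noncomputable section

open Classical in
/-- What is used about a homology sphere whose facets have `d` vertices. -/
structure HS (K : Type) [Field K] {V : Type} [DecidableEq V] [Fintype V] (Γ : Set (Finset V))
    (d : ℕ) : Prop where
  down : ∀ F ∈ Γ, ∀ G ⊆ F, G ∈ Γ
  empty : ∅ ∈ Γ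
  card_le : ∀ F ∈ Γ, F.card ≤ d
  ext : ∀ F ∈ Γ, F.card < d → ∃ v ∉ F, insert v F ∈ Γ
  pm : ∀ ρ : Finset V, ρ.card + 1 = d → ∑ v ∈ ρᶜ, (if insert v ρ ∈ Γ then (1 : K) else 0) = 0
  cl : ∀ σ ∈ Γ, ∀ (j : ℕ) (φ : Finset V → K),
    (∀ τ ∈ Γ, σ ⊆ τ → τ.card = j + 1 → ∑ v ∈ τ \ σ, φ (τ.erase v) = 0) →
    (j = d → ∑ F : Finset V, (if F ∈ Γ ∧ σ ⊆ F ∧ F.card = d then φ F else 0) = 0) →
    ∃ ψ : Finset V → K, ∀ τ ∈ Γ, σ ⊆ τ → τ.card = j → φ τ = ∑ v ∈ τ \ σ, ψ (τ.erase v)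

variable {K : Type} [Field K] [CharP K 2] {V : Type} [DecidableEq V] [Fintype V]

/-- Keep the faces containing `σ`. -/
def rel (σ : Finset V) : SC K V →ₗ[K] SC K V :=
  linearCombination K fun τ => if σ ⊆ τ then single τ (1 : K) else 0

omit [CharP K 2] [Fintype V] in
theorem rel_apply (σ : Finset V) (c : SC K V) (ρ : Finset V) :
    rel σ c ρ = if σ ⊆ ρ then c ρ else 0 := by
  have := lc_ext (f := lapply ρ ∘ₗ rel σ) (g := if σ ⊆ ρ then lapply ρ else 0) (fun τ => ?_) c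
  · split_ifs at this ⊢ <;> simpa using this
  simp only [rel, LinearMap.comp_apply, linearCombination_single, one_smul, lapply_apply]
  by_cases h : τ = ρ
  · subst h; split_ifs <;> simp
  · split_ifs <;> simp [single_eq_of_ne' h]

omit [CharP K 2] [Fintype V] in
theorem rel_sbd_single (σ τ : Finset V) :
    rel σ (sbd (single τ (1 : K))) =
      if σ ⊆ τ then ∑ v ∈ τ \ σ, single (τ.erase v) (1 : K) else 0 := by
  simp only [sbd_single, map_sum, rel, linearCombination_single, one_smul]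
  split_ifs with h
  · rw [← Finset.sum_filter]
    refine Finset.sum_congr ?_ fun _ _ => rfl
    ext v
    simp [Finset.subset_erase, h]
  · exact Finset.sum_eq_zero fun v _ => if_neg fun a => h (a.trans (Finset.erase_subset _ _))

omit [CharP K 2] [Fintype V] in
theorem sbd_mem {Γ : Set (Finset V)} (hΓ : ∀ F ∈ Γ, ∀ G ⊆ F, G ∈ Γ) {n : ℕ} {c : SC K V}
    (hc : c ∈ SCh K Γ (n + 1)) : sbd c ∈ SCh K Γ n :=
  map_mem_of_supported _ _ (fun τ hτ => sup_mono (B := {τ | τ ∈ Γ ∧ τ.card = n})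
    (sbd_single_mem τ) fun ρ hρ => ⟨hΓ τ hτ.1 ρ hρ.1, by have := hρ.2; have := hτ.2; omega⟩) hc

omit [CharP K 2] in
theorem exists_factor {M N : Type} [AddCommGroup M] [Module K M] [AddCommGroup N] [Module K N]
    (U : Submodule K M) (T : M →ₗ[K] N) (Φ : M →ₗ[K] K) (h : ∀ c ∈ U, T c = 0 → Φ c = 0) :
    ∃ Ψ : N →ₗ[K] K, ∀ c ∈ U, Ψ (T c) = Φ c := by
  have claim : Φ ∘ₗ U.subtype ∈ (LinearMap.ker (T ∘ₗ U.subtype)).dualAnnihilator := by
    rw [Submodule.mem_dualAnnihilator]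
    exact fun c hc => h c c.2 hc
  rw [← LinearMap.range_dualMap_eq_dualAnnihilator_ker] at claim
  obtain ⟨Ψ, hΨ⟩ := claim
  exact ⟨Ψ, fun c hc => LinearMap.congr_fun hΨ ⟨c, hc⟩⟩

theorem hs_of_acyc {Γ : Set (Finset V)} {d : ℕ} (hd : 0 < d) (hΓ : ∀ F ∈ Γ, ∀ G ⊆ F, G ∈ Γ)
    (h0 : ∅ ∈ Γ) (T2 : ∀ n ≠ d, Acyc K Γ n)
    (T1 : ∀ σ ∈ Γ, σ.Nonempty → ∀ n, Acyc K {τ | τ ∈ Γ ∧ ¬σ ⊆ τ} n) : HS K Γ d := by
  classical
  have lift : ∀ σ ∈ Γ, ∀ j, ∀ c ∈ SCh K {τ | τ ∈ Γ ∧ σ ⊆ τ} j, rel σ (sbd c) = 0 →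
      ∃ c' ∈ SCh K Γ j, sbd c' = 0 ∧ rel σ c' = c := by
    intro σ hσ j c hc hc0
    have hc1 : c ∈ SCh K Γ j := sup_mono hc fun τ hτ => ⟨hτ.1.1, hτ.2⟩
    have hc2 : rel σ c = c := by
      ext ρ
      rw [rel_apply]
      split_ifs with h
      · rfl
      · by_contra h'
        exact h (hc (mem_support_iff.2 (Ne.symm h'))).1.2
    rcases σ.eq_empty_or_nonempty with rfl | hne
    · refine ⟨c, hc1, ?_, hc2⟩
      ext ρ
      simpa [rel_apply] using DFunLike.congr_fun hc0 ρ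
    rcases j with _ | j
    · have : c = 0 := by
        rw [← support_eq_empty, Finset.eq_empty_iff_forall_notMem]
        intro τ hτ
        have := hc hτ
        exact hne.ne_empty (Finset.subset_empty.1 (Finset.card_eq_zero.1 this.2 ▸ this.1.2))
      exact ⟨0, Submodule.zero_mem _, map_zero _, by rw [this, map_zero]⟩
    obtain ⟨b, hb, hb'⟩ := T1 σ hσ hne j (sbd c) (fun ρ hρ => ⟨⟨(sbd_mem hΓ hc1 hρ).1, fun a => by
      have := DFunLike.congr_fun hc0 ρ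
      rw [rel_apply, if_pos a] at this
      exact mem_support_iff.1 hρ this⟩, (sbd_mem hΓ hc1 hρ).2⟩) (sbd_sbd c)
    refine ⟨c - b, Submodule.sub_mem _ hc1 (sup_mono hb fun τ hτ => ⟨hτ.1.1, hτ.2⟩),
      by rw [map_sub, hb', sub_self], ?_⟩
    rw [map_sub, hc2, sub_eq_self]
    ext ρ
    rw [rel_apply]
    split_ifs with h
    · by_contra h'
      exact (hb (mem_support_iff.2 h')).1.2 h
    · rfl
  have cyc : ∀ F ∈ Γ, ∃ z ∈ SCh K Γ F.card, sbd z = 0 ∧ z F = 1 := by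
    intro F hF
    obtain ⟨z, h1, h2, h3⟩ := lift F hF F.card (single F 1)
      (single_mem_supported _ _ ⟨⟨hF, subset_rfl⟩, rfl⟩) (by simp [rel_sbd_single])
    exact ⟨z, h1, h2, by simpa [rel_apply] using DFunLike.congr_fun h3 F⟩
  have ext : ∀ F ∈ Γ, F.card ≠ d → ∃ v ∉ F, insert v F ∈ Γ := by
    intro F hF hd
    obtain ⟨z, h1, h2, h3⟩ := cyc F hF
    obtain ⟨e, he, rfl⟩ := T2 _ hd z h1 h2
    rw [sbd_apply] at h3
    obtain ⟨v, hv, hv'⟩ := Finset.exists_ne_zero_of_sum_ne_zero (h3.trans_ne one_ne_zero)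
    exact ⟨v, Finset.mem_compl.1 hv, (he (mem_support_iff.2 hv')).1⟩
  have card_le : ∀ F ∈ Γ, F.card ≤ d := by
    by_contra! h
    obtain ⟨F, hF, hmax⟩ := (Set.toFinite {F | F ∈ Γ ∧ d < F.card}).exists_maximalFor
      Finset.card _ h |>.imp fun F hF => And.intro hF.1 hF.2
    obtain ⟨v, hv, hv'⟩ := ext F hF.1 hF.2.ne'
    have a1 := Finset.card_insert_of_notMem hv
    have := hmax (j := insert v F) ⟨hv', by have := hF.2; omega⟩ (by omega)
    omega
  have uniq : ∀ z ∈ SCh K Γ d, sbd z = 0 → ∀ F ∈ Γ, F.card = d → z F = 0 → z = 0 := by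
    intro z h1 h2 F hF hFd h3
    obtain ⟨e, he, rfl⟩ := T1 F hF (Finset.card_pos.1 (hFd ▸ hd)) d z (fun τ hτ =>
      ⟨⟨(h1 hτ).1, fun a => mem_support_iff.1 hτ
        (Finset.eq_of_subset_of_card_le a (by rw [(h1 hτ).2, hFd]) ▸ h3)⟩, (h1 hτ).2⟩) h2
    have : e = 0 := by
      rw [← support_eq_empty, Finset.eq_empty_iff_forall_notMem]
      intro τ hτ
      have a1 := card_le τ (he hτ).1.1
      have a2 := (he hτ).2
      omega
    rw [this, map_zero]
  have one : ∀ z ∈ SCh K Γ d, sbd z = 0 → ∀ F ∈ Γ, F.card = d → z F = 1 →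
      ∀ G ∈ Γ, G.card = d → z G = 1 := by
    intro z h1 h2 F hF hFd h3 G hG hGd
    have a1 : mapRange (· ^ 2) (by simp) z - z = 0 := by
      refine uniq _ (Submodule.sub_mem _ (fun τ hτ => h1 (support_mapRange hτ)) h1) ?_ F hF hFd
        (by simp [h3])
      rw [map_sub, h2, sub_zero]
      ext ρ
      have := DFunLike.congr_fun h2 ρ
      rw [sbd_apply] at this ⊢
      simp only [mapRange_apply]
      rw [← CharTwo.sum_sq, this]
      simp
    have a2 : z G ^ 2 - z G = 0 := by simpa using DFunLike.congr_fun a1 G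
    have a3 : z G ≠ 0 := fun e => by
      rw [uniq z h1 h2 G hG hGd e] at h3
      simp at h3
    have a4 : z G * (z G - 1) = 0 := by rw [← a2]; ring
    exact sub_eq_zero.1 ((mul_eq_zero.1 a4).resolve_left a3)
  have const : ∀ z ∈ SCh K Γ d, sbd z = 0 → ∃ a : K, ∀ G ∈ Γ, G.card = d → z G = a := by
    intro z h1 h2
    by_cases h : ∃ F ∈ Γ, F.card = d ∧ z F ≠ 0
    · obtain ⟨F, hF, hFd, h3⟩ := h
      refine ⟨z F, fun G hG hGd => ?_⟩
      have := one ((z F)⁻¹ • z) (Submodule.smul_mem _ _ h1) (by rw [map_smul, h2, smul_zero])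
        F hF hFd (by simp [h3]) G hG hGd
      rw [Finsupp.smul_apply, smul_eq_mul, inv_mul_eq_one₀ h3] at this
      exact this.symm
    · push Not at h
      exact ⟨0, h⟩
  refine ⟨hΓ, h0, card_le, fun F hF h => ext F hF h.ne, fun ρ hρ => ?_, fun σ hσ j φ h1 h2 => ?_⟩
  · by_cases h : ∃ v ∈ ρᶜ, insert v ρ ∈ Γ
    · obtain ⟨v, hv, hv'⟩ := h
      have a1 : ∀ w ∈ ρᶜ, (insert w ρ).card = d := fun w hw => by
        rw [Finset.card_insert_of_notMem (Finset.mem_compl.1 hw), hρ]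
      obtain ⟨z, z1, z2, z3⟩ := cyc _ hv'
      rw [a1 v hv] at z1
      have := DFunLike.congr_fun z2 ρ
      rw [sbd_apply] at this
      refine Eq.trans (Finset.sum_congr rfl fun w hw => ?_) this
      split_ifs with h
      · exact (one z z1 z2 _ hv' (a1 v hv) z3 _ h (a1 w hw)).symm
      · by_contra h'
        exact h (z1 (mem_support_iff.2 (Ne.symm h'))).1
    · push Not at h
      exact Finset.sum_eq_zero fun v hv => if_neg (h v hv)
  · let U := SCh K {τ | τ ∈ Γ ∧ σ ⊆ τ} j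
    let Φ : SC K V →ₗ[K] K := linearCombination K φ
    have claim : ∀ c ∈ U, (rel σ ∘ₗ sbd) c = 0 → Φ c = 0 := by
      intro c hc hc0
      obtain ⟨c', c1, c2, c3⟩ := lift σ hσ j c hc hc0
      rw [← c3]
      by_cases hj : j = d
      · subst hj
        obtain ⟨a, ha⟩ := const c' c1 c2
        simp only [Φ]
        rw [linearCombination_apply, Finsupp.sum_fintype _ _ (by simp), ← mul_zero a, ← h2 rfl,
          Finset.mul_sum]
        refine Finset.sum_congr rfl fun F _ => ?_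
        rw [rel_apply]
        by_cases b1 : F ∈ Γ ∧ F.card = j
        · by_cases b2 : σ ⊆ F <;> simp [b1, b2, ha F b1.1 b1.2]
        · have : c' F = 0 := by
            by_contra h'
            exact b1 (c1 (mem_support_iff.2 h'))
          rw [this, if_neg (fun a : F ∈ Γ ∧ σ ⊆ F ∧ F.card = j => b1 ⟨a.1, a.2.2⟩)]
          simp
      · obtain ⟨e, he, rfl⟩ := T2 j hj c' c1 c2
        refine eq_of_supported (Φ ∘ₗ rel σ ∘ₗ sbd) 0 (fun τ hτ => ?_) he
        simp only [LinearMap.comp_apply, rel_sbd_single, LinearMap.zero_apply]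
        split_ifs with h
        · simpa [Φ, map_sum] using h1 τ hτ.1 h hτ.2
        · exact map_zero _
    obtain ⟨Ψ, hΨ⟩ := exists_factor U _ Φ claim
    refine ⟨fun ρ => Ψ (single ρ 1), fun τ hτ hστ hj => ?_⟩
    have := hΨ (single τ 1) (single_mem_supported _ _ ⟨⟨hτ, hστ⟩, hj⟩)
    simpa [rel_sbd_single, hστ, Φ, map_sum] using this.symm

theorem hs_of_sphere {Γ : Set (Finset V)} {d : ℕ} (hd : 0 < d) (hΓ : ∀ F ∈ Γ, ∀ G ⊆ F, G ∈ Γ)
    (h0 : ∅ ∈ Γ) (h : geom Γ ≃ₜ sphere (0 : EuclideanSpace ℝ (Fin d)) 1) : HS K Γ d := by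
  have : Nonempty V := by
    by_contra hV
    rw [not_nonempty_iff] at hV
    have := (h.symm ⟨EuclideanSpace.single ⟨0, hd⟩ 1, by simp⟩).2.1.2
    simp at this
  exact hs_of_acyc hd hΓ h0 (fun n hn => acyc_of_sphere hΓ h0 h hn)
    fun σ hσ hne n => acyc_cost hΓ h0 h hσ hne n

end

end Pool.Agent.P.MP_233bd3_co
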