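import Mathlib

/-!
Regular sequences, a depth lemma that keeps track of the first obstruction, and ideals generated
by linear forms.
-/

open MvPolynomial

namespace Pool.Agent.P.MP_233bd3_co

noncomputable section

section Abstract

variable {S : Type} [CommRing S] (θ : ℕ → S)

/-- `(θ_0, …, θ_(r-1)) M`. -/
def TM (M : Type) [AddCommGroup M] [Module S M] : ℕ → Submodule S M
  | 0 => ⊥
  | r + 1 => TM M r ⊔ LinearMap.range (LinearMap.lsmul S M (θ r))

variable {θ} {M N P : Type} [AddCommGroup M] [Module S M] [AddCommGroup N] [Module S N]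
  [AddCommGroup P] [Module S P]

theorem mem_TM_zero {m : M} : m ∈ TM θ M 0 ↔ m = 0 := Iff.rfl

theorem mem_TM_succ {r : ℕ} {m : M} : m ∈ TM θ M (r + 1) ↔ ∃ p, m - θ r • p ∈ TM θ M r := by
  rw [TM, Submodule.mem_sup]
  constructor
  · rintro ⟨y, hy, _, ⟨p, rfl⟩, rfl⟩
    exact ⟨p, by simpa using hy⟩
  · rintro ⟨p, hp⟩
    exact ⟨_, hp, θ r • p, ⟨p, rfl⟩, by simp⟩

theorem smul_mem_TM {r i : ℕ} (h : i < r) (m : M) : θ i • m ∈ TM θ M r := by
  induction r with
  | zero => omega
  | succ r ih =>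
    rcases Nat.lt_succ_iff_lt_or_eq.1 h with h | rfl
    · exact mem_TM_succ.2 ⟨0, by simpa using ih h⟩
    · exact mem_TM_succ.2 ⟨m, by simp⟩

theorem TM_le {r : ℕ} {U : AddSubgroup M} (h : ∀ i < r, ∀ m, θ i • m ∈ U) {m : M}
    (hm : m ∈ TM θ M r) : m ∈ U := by
  induction r generalizing m with
  | zero => rw [mem_TM_zero.1 hm]; exact U.zero_mem
  | succ r ih =>
    obtain ⟨p, hp⟩ := mem_TM_succ.1 hm
    simpa using U.add_mem (ih (fun i hi => h i (by omega)) hp) (h r (by omega) p)

theorem map_mem_TM (f : M →ₗ[S] N) {r : ℕ} {m : M} (hm : m ∈ TM θ M r) : f m ∈ TM θ N r :=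
  TM_le (U := ((TM θ N r).comap f).toAddSubgroup)
    (fun i hi m => by simpa using smul_mem_TM hi (f m)) hm

theorem exists_mem_TM (f : M →ₗ[S] N) (hf : Function.Surjective f) {r : ℕ} {n : N}
    (hn : n ∈ TM θ N r) : ∃ m ∈ TM θ M r, f m = n :=
  TM_le (U := ((TM θ M r).map f).toAddSubgroup) (fun i hi n => by
    obtain ⟨m, rfl⟩ := hf n
    exact ⟨θ i • m, smul_mem_TM hi m, map_smul _ _ _⟩) hn

theorem mem_TM_pi {ι : Type} {M : ι → Type} [∀ i, AddCommGroup (M i)] [∀ i, Module S (M i)]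
    {r : ℕ} {m : ∀ i, M i} : m ∈ TM θ (∀ i, M i) r ↔ ∀ i, m i ∈ TM θ (M i) r := by
  refine ⟨fun h i => map_mem_TM (LinearMap.proj i) h, fun h => ?_⟩
  induction r generalizing m with
  | zero => exact funext h
  | succ r ih =>
    choose p hp using fun i => mem_TM_succ.1 (h i)
    exact mem_TM_succ.2 ⟨p, ih hp⟩

theorem mk_mem_TM {I : Ideal S} {r : ℕ} {p : S} :
    Ideal.Quotient.mk I p ∈ TM θ (S ⧸ I) r ↔ p ∈ I ⊔ TM θ S r := by
  constructor
  · intro h
    obtain ⟨m, hm, hm'⟩ := exists_mem_TM I.mkQ (Submodule.mkQ_surjective I) h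
    exact Submodule.mem_sup.2 ⟨p - m, Ideal.Quotient.eq.1 hm'.symm, m, hm, by simp⟩
  · intro h
    obtain ⟨y, hy, z, hz, rfl⟩ := Submodule.mem_sup.1 h
    rw [map_add, Ideal.Quotient.eq_zero_iff_mem.2 hy, zero_add]
    exact map_mem_TM I.mkQ hz

variable (θ) in
/-- `θ_0, …, θ_(r-1)` is a weakly regular sequence on `M`. -/
def Reg (M : Type) [AddCommGroup M] [Module S M] (r : ℕ) : Prop :=
  ∀ i < r, ∀ m : M, θ i • m ∈ TM θ M i → m ∈ TM θ M i

theorem Reg.pi {ι : Type} {M : ι → Type} [∀ i, AddCommGroup (M i)] [∀ i, Module S (M i)]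
    {r : ℕ} (h : ∀ i, Reg θ (M i) r) : Reg θ (∀ i, M i) r :=
  fun j hj _ hm => mem_TM_pi.2 fun i => h i j hj _ (mem_TM_pi.1 hm i)

theorem Reg.mono {r s : ℕ} (h : Reg θ M r) (hs : s ≤ r) : Reg θ M s :=
  fun j hj => h j (by omega)

theorem Reg.inter {I : Ideal S} {r : ℕ} (h : Reg θ (S ⧸ I) r) {U : AddSubgroup S}
    (hU : ∀ i, ∀ p ∈ I, θ i * p ∈ U) {t : S} (ht : t ∈ TM θ S r) (hI : t ∈ I) : t ∈ U := by
  induction r generalizing t with
  | zero => rw [mem_TM_zero.1 ht]; exact U.zero_mem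
  | succ r ih =>
    obtain ⟨p, hp⟩ := mem_TM_succ.1 ht
    have h1 : Ideal.Quotient.mk I p ∈ TM θ (S ⧸ I) r := h r (by omega) _ (by
      change Ideal.Quotient.mk I (θ r * p) ∈ _
      rw [mk_mem_TM]
      simpa using Submodule.sub_mem _ (Submodule.mem_sup_left hI) (Submodule.mem_sup_right hp))
    obtain ⟨y, hy, z, hz, rfl⟩ := Submodule.mem_sup.1 (mk_mem_TM.1 h1)
    have h2 : t - θ r * y ∈ TM θ S r := by
      have := Submodule.add_mem _ hp (Submodule.smul_mem _ (θ r) hz)
      convert this using 1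
      simp only [smul_eq_mul]; ring
    simpa using U.add_mem (ih (h.mono (by omega)) h2 (I.sub_mem hI (I.mul_mem_left _ hy)))
      (hU r y hy)

variable (θ) in
/-- Any two elements of `A` are linearly dependent modulo `(θ_0, …, θ_(r-1)) M`. -/
def Dep (K : Type) [Field K] [Algebra K S] (r : ℕ) (A : Set M) : Prop :=
  ∀ x ∈ A, ∀ y ∈ A, ∃ a b : K, (a ≠ 0 ∨ b ≠ 0) ∧
    algebraMap K S a • x + algebraMap K S b • y ∈ TM θ M r

theorem depth_step {K : Type} [Field K] [Algebra K S] (f : M →ₗ[S] P) (g : P →ₗ[S] N)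
    (hf : Function.Injective f) (hg : Function.Surjective g)
    (hfg : ∀ p, g p = 0 ↔ ∃ m, f m = p) {r : ℕ} (hP : Reg θ P (r + 1)) (hN : Reg θ N r)
    (hD : Dep θ K r {x : N | θ r • x ∈ TM θ N r}) :
    Reg θ M (r + 1) ∧ Dep θ K (r + 1) {x : M | f x ∈ TM θ P (r + 1)} := by
  have gf : ∀ m, g (f m) = 0 := fun m => (hfg _).2 ⟨m, rfl⟩
  have split : ∀ i p, g p ∈ TM θ N i → ∃ m, p - f m ∈ TM θ P i := by
    intro i p hp
    obtain ⟨w, hw, hw'⟩ := exists_mem_TM g hg hp
    obtain ⟨m, hm⟩ := (hfg (p - w)).1 (by rw [map_sub, hw', sub_self])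
    exact ⟨m, by simpa [hm] using hw⟩
  have down : ∀ i m p, f m - θ i • p ∈ TM θ P i → θ i • g p ∈ TM θ N i := fun i m p hp => by
    simpa [gf] using map_mem_TM g hp
  have key : ∀ i ≤ r, ∀ m, f m ∈ TM θ P i → m ∈ TM θ M i := by
    intro i hi
    induction i with
    | zero => exact fun m hm => hf (by rw [mem_TM_zero.1 hm, map_zero])
    | succ i ih =>
      intro m hm
      obtain ⟨p, hp⟩ := mem_TM_succ.1 hm
      obtain ⟨m', hm'⟩ := split i p (hN i (by omega) _ (down i m p hp))
      refine mem_TM_succ.2 ⟨m', ih (by omega) _ ?_⟩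
      have := Submodule.add_mem _ hp (Submodule.smul_mem _ (θ i) hm')
      convert this using 1
      simp only [map_sub, map_smul, smul_sub]; abel
  refine ⟨fun i hi m hm => key i (by omega) m (hP i hi _ (by simpa using map_mem_TM f hm)), ?_⟩
  intro x hx y hy
  obtain ⟨p, hp⟩ := mem_TM_succ.1 hx
  obtain ⟨q, hq⟩ := mem_TM_succ.1 hy
  obtain ⟨a, b, hab, h⟩ := hD _ (down r x p hp) _ (down r y q hq)
  obtain ⟨m, hm⟩ := split r (algebraMap K S a • p + algebraMap K S b • q) (by simpa using h)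
  refine ⟨a, b, hab, mem_TM_succ.2 ⟨m, key r le_rfl _ ?_⟩⟩
  have := Submodule.add_mem _ (Submodule.add_mem _ (Submodule.smul_mem _ (algebraMap K S a) hp)
    (Submodule.smul_mem _ (algebraMap K S b) hq)) (Submodule.smul_mem _ (θ r) hm)
  convert this using 1
  simp only [map_sub, map_add, map_smul]
  module

end Abstract

section Linear

variable {K : Type} [Field K] {V : Type} [Fintype V]

/-- The linear form with coefficient vector `u`. -/
def lin : (V → K) →ₗ[K] MvPolynomial V K := Fintype.linearCombination K X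

theorem lin_apply (u : V → K) : lin u = ∑ v, u v • (X v : MvPolynomial V K) := rfl

theorem lin_single [DecidableEq V] (v : V) : lin (Pi.single v (1 : K)) = X v := by
  simp [lin]

theorem lin_hom (u : V → K) : (lin u).IsHomogeneous 1 :=
  (homogeneousSubmodule V K 1).sum_mem fun v _ => Submodule.smul_mem _ _ (isHomogeneous_X K v)

theorem lin_eq_zero {u : V → K} (h : lin u = 0) : u = 0 := by
  classical
  funext v
  simpa [lin_apply, Pi.single_apply] using congrArg (eval (Pi.single v (1 : K))) h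

theorem aeval_lin {W : Type} [Fintype W] [DecidableEq V] (p : (V → K) →ₗ[K] (W → K))
    (u : V → K) : aeval (fun v => lin (p (Pi.single v 1))) (lin u) = lin (p u) := by
  have : u = ∑ v, u v • Pi.single v (1 : K) := by
    funext w; simp [Finset.sum_apply, Pi.single_apply]
  conv_rhs => rw [this]
  simp [lin_apply u, map_sum]

/-- The ideal generated by the linear forms with coefficient vector in `U`. -/
def idl (U : Submodule K (V → K)) : Ideal (MvPolynomial V K) := Ideal.span (lin '' (U : Set _))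

theorem lin_mem_idl {U : Submodule K (V → K)} {u : V → K} (h : u ∈ U) : lin u ∈ idl U :=
  Ideal.subset_span ⟨u, h, rfl⟩

theorem exists_elim (U : Submodule K (V → K)) : ∃ (c : ℕ)
    (P : MvPolynomial V K →ₐ[K] MvPolynomial (Fin c) K),
    c + Module.finrank K U = Fintype.card V ∧ (∀ f, P f = 0 ↔ f ∈ idl U) ∧
    (∀ u, P (lin u) = 0 → u ∈ U) ∧
    ∀ j, (homogeneousSubmodule V K j).map P.toLinearMap = homogeneousSubmodule (Fin c) K j := by
  classical
  let p : (V → K) →ₗ[K] (Fin (Module.finrank K ((V → K) ⧸ U)) → K) :=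
    (Module.finBasis K ((V → K) ⧸ U)).equivFun.toLinearMap ∘ₗ U.mkQ
  have hp : ∀ u, p u = 0 ↔ u ∈ U := fun u => by simp [p]
  have hs : LinearMap.range p = ⊤ := LinearMap.range_eq_top.2
    ((Module.finBasis K ((V → K) ⧸ U)).equivFun.surjective.comp (Submodule.mkQ_surjective U))
  obtain ⟨s, hps⟩ := p.exists_rightInverse_of_surjective hs
  have hps' : ∀ w, p (s w) = w := fun w => LinearMap.congr_fun hps w
  let P : MvPolynomial V K →ₐ[K] MvPolynomial _ K := aeval fun v => lin (p (Pi.single v 1))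
  let Q : MvPolynomial _ K →ₐ[K] MvPolynomial V K := aeval fun i => lin (s (Pi.single i 1))
  have hP : ∀ u, P (lin u) = lin (p u) := aeval_lin p
  have hQ : ∀ u, Q (lin u) = lin (s u) := aeval_lin s
  have hPQ : ∀ g, P (Q g) = g := by
    have : P.comp Q = AlgHom.id K _ := algHom_ext fun i => by
      rw [AlgHom.comp_apply, ← lin_single, hQ, hP, hps']; rfl
    exact fun g => AlgHom.congr_fun this g
  have hQP : ∀ f, f - Q (P f) ∈ idl U := by
    have : ((Ideal.Quotient.mkₐ K (idl U)).comp (Q.comp P)) = Ideal.Quotient.mkₐ K (idl U) :=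
      algHom_ext fun v => by
        rw [AlgHom.comp_apply, AlgHom.comp_apply, ← lin_single, hP, hQ]
        refine Ideal.Quotient.eq.2 ?_
        rw [← map_sub]
        exact lin_mem_idl ((hp _).1 (by rw [map_sub, hps', sub_self]))
    exact fun f => Ideal.Quotient.eq.1 (AlgHom.congr_fun this f).symm
  refine ⟨_, P, ?_, fun f => ⟨fun h => by simpa [h] using hQP f, fun h => ?_⟩,
    fun u h => (hp u).1 (lin_eq_zero (hP u ▸ h)), fun j => le_antisymm ?_ fun g hg => ?_⟩
  · rw [Submodule.finrank_quotient_add_finrank]; simp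
  · have : idl U ≤ RingHom.ker P := Ideal.span_le.2 (by
      rintro _ ⟨u, hu, rfl⟩
      simp [RingHom.mem_ker, hP, (hp u).2 hu])
    exact this h
  · rintro _ ⟨f, hf, rfl⟩
    have := IsHomogeneous.aeval hf _ fun v => lin_hom (p (Pi.single v 1))
    rwa [one_mul] at this
  · have := IsHomogeneous.aeval hg _ fun v => lin_hom (s (Pi.single v 1))
    rw [one_mul] at this
    exact ⟨Q g, this, hPQ g⟩

theorem idl_prime {U : Submodule K (V → K)} {u : V → K} (hu : u ∉ U) {f : MvPolynomial V K}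
    (h : lin u * f ∈ idl U) : f ∈ idl U := by
  obtain ⟨c, P, -, h1, h2, -⟩ := exists_elim U
  rw [← h1, map_mul, mul_eq_zero] at h
  exact (h1 f).1 (h.resolve_left fun e => hu (h2 u e))

theorem idl_top (f : MvPolynomial V K) : ∃ a : K, f - C a ∈ idl (⊤ : Submodule K (V → K)) := by
  obtain ⟨c, P, h0, h1, -, -⟩ := exists_elim (⊤ : Submodule K (V → K))
  have hc : c = 0 := by simpa using h0
  subst hc
  refine ⟨coeff 0 (P f), (h1 _).1 ?_⟩
  rw [map_sub, sub_eq_zero, algHom_C]
  exact eq_C_of_isEmpty _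

theorem finrank_hom (c j : ℕ) :
    Module.finrank K (homogeneousSubmodule (Fin c) K j) = c.multichoose j := by
  have h : homogeneousSubmodule (Fin c) K j =
      restrictSupport K ((Finset.univ : Finset (Fin c)).finsuppAntidiag j : Set (Fin c →₀ ℕ)) := by
    rw [homogeneousSubmodule_eq_finsupp_supported, restrictSupport]
    congr 1
    ext α
    simp [Finsupp.degree_eq_sum]
  rw [h, Module.finrank_eq_nat_card_basis (basisRestrictSupport K _)]
  rw [Nat.card_coe_set_eq, Set.ncard_coe_finset, Finset.card_finsuppAntidiag_nat_eq_multichoose,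
    Finset.card_fin]

omit [Fintype V] in
theorem hc_mul {a : MvPolynomial V K} {m : ℕ} (ha : a.IsHomogeneous m) (n : ℕ)
    (p : MvPolynomial V K) : homogeneousComponent n (a * p) =
      if m ≤ n then a * homogeneousComponent (n - m) p else 0 := by
  induction p using MvPolynomial.induction_on' with
  | monomial α c =>
    have h1 := isHomogeneous_monomial (σ := V) c (d := α) rfl
    rw [homogeneousComponent_of_mem (ha.mul h1), homogeneousComponent_of_mem h1]
    split_ifs <;> first | rfl | omega | simp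
  | add p q hp hq =>
    rw [mul_add, map_add, hp, hq, map_add]
    split_ifs <;> simp [mul_add]

end Linear

end

end Pool.Agent.P.MP_233bd3_co
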