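import Pool.Agent.P.MP_233bd3_co.Homol
import Pool.Agent.P.MP_233bd3_co.Reg

/-!
The partition complex: face rings of stars in a homology sphere are Cohen-Macaulay, and the kernel
of the partition map has dimension at most one.
-/

open MvPolynomial

namespace Pool.Agent.P.MP_233bd3_co

noncomputable section

variable {K : Type} [Field K] {V : Type} [DecidableEq V]

variable (K) in
/-- The Stanley-Reisner ideal of the star of `τ`. -/
def SR (Γ : Set (Finset V)) (τ : Finset V) : Ideal (MvPolynomial V K) where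
  carrier := {p | ∀ α ∈ p.support, ∀ F ∈ Γ, ¬(α.support ∪ τ ⊆ F)}
  add_mem' := fun {p q} hp hq α hα => by
    rcases Finset.mem_union.1 (support_add hα) with h | h
    exacts [hp α h, hq α h]
  zero_mem' := by simp
  smul_mem' := fun c p hp α hα F hF h => by
    obtain ⟨β, -, γ, hγ, rfl⟩ := Finset.mem_add.1 (support_mul c p hα)
    exact hp γ hγ F hF ((Finset.union_subset_union_left
      (Finsupp.support_mono le_add_self)).trans h)

variable {Γ : Set (Finset V)}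

theorem mem_SR (hΓ : ∀ F ∈ Γ, ∀ G ⊆ F, G ∈ Γ) {τ : Finset V} {p : MvPolynomial V K} :
    p ∈ SR K Γ τ ↔ ∀ α : V →₀ ℕ, α.support ∪ τ ∈ Γ → coeff α p = 0 := by
  constructor
  · intro h α hα
    by_contra h'
    exact h α (mem_support_iff.2 h') _ hα subset_rfl
  · exact fun h α hα F hF h' => mem_support_iff.1 hα (h α (hΓ F hF _ h'))

theorem mem_SR_self {σ : Finset V} {p : MvPolynomial V K} :
    p ∈ SR K {σ} σ ↔ ∀ α : V →₀ ℕ, α.support ⊆ σ → coeff α p = 0 := by
  constructor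
  · intro h α hα
    by_contra h'
    exact h α (mem_support_iff.2 h') σ rfl (Finset.union_subset hα subset_rfl)
  · rintro h α hα F rfl h'
    exact mem_support_iff.1 hα (h α (Finset.union_subset_left h'))

theorem SR_mono {τ τ' : Finset V} (h : τ ⊆ τ') : SR K Γ τ ≤ SR K Γ τ' :=
  fun _ hp α hα F hF h' => hp α hα F hF ((Finset.union_subset_union_right h).trans h')

theorem SR_le {σ F : Finset V} (h : σ ⊆ F) (hF : F ∈ Γ) : SR K Γ F ≤ SR K {σ} σ := by
  rintro p hp α hα G rfl h'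
  exact hp α hα F hF (Finset.union_subset ((Finset.union_subset_left h').trans h) subset_rfl)

theorem SR_top (hΓ : ∀ F ∈ Γ, ∀ G ⊆ F, G ∈ Γ) {τ : Finset V} (h : τ ∉ Γ) (p : MvPolynomial V K) :
    p ∈ SR K Γ τ := fun _ _ F hF h' => h (hΓ F hF _ (Finset.union_subset_right h'))

/-- Genericity of the rows `a 0, a 1, …`. -/
structure Rows (a : ℕ → V → K) (d : ℕ) : Prop where
  surj : ∀ T : Finset V, T.card ≤ d → ∀ b : V → K, ∃ l : ℕ → K,
    ∀ j ∈ T, ∑ i ∈ Finset.range T.card, l i * a i j = b j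
  indep : ∀ T : Finset V, T.card ≤ d → ∀ l : ℕ → K,
    (∀ j ∈ T, ∑ i ∈ Finset.range T.card, l i * a i j = 0) → ∀ i < T.card, l i = 0

variable [Fintype V]

/-- The linear system of parameters. -/
def th (a : ℕ → V → K) (i : ℕ) : MvPolynomial V K := lin (a i)

/-- Vectors that agree on `σ` with a combination of the first `r` rows. -/
def Ur (a : ℕ → V → K) (σ : Finset V) (r : ℕ) : Submodule K (V → K) where
  carrier := {u | ∃ l : ℕ → K, ∀ v ∈ σ, ∑ i ∈ Finset.range r, l i * a i v = u v}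
  add_mem' := by
    rintro _ _ ⟨l, hl⟩ ⟨l', hl'⟩
    exact ⟨l + l', fun v hv => by simp [add_mul, Finset.sum_add_distrib, hl v hv, hl' v hv]⟩
  zero_mem' := ⟨0, by simp⟩
  smul_mem' := by
    rintro c _ ⟨l, hl⟩
    exact ⟨c • l, fun v hv => by simp [mul_assoc, ← Finset.mul_sum, hl v hv]⟩

omit [DecidableEq V] in
theorem lin_comb (a : ℕ → V → K) (l : ℕ → K) (r : ℕ) :
    lin (fun v => ∑ i ∈ Finset.range r, l i * a i v) = ∑ i ∈ Finset.range r, l i • th a i := by
  have : (fun v => ∑ i ∈ Finset.range r, l i * a i v) = ∑ i ∈ Finset.range r, l i • a i := by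
    funext v; simp [Finset.sum_apply]
  rw [this, map_sum]
  simp [th]

omit [DecidableEq V] in
theorem th_mem {a : ℕ → V → K} {i r : ℕ} (h : i < r) (p : MvPolynomial V K) :
    th a i * p ∈ TM (th a) (MvPolynomial V K) r := smul_mem_TM (θ := th a) h p

theorem idl_Ur (a : ℕ → V → K) (σ : Finset V) (r : ℕ) :
    idl (Ur a σ r) = SR K {σ} σ ⊔ TM (th a) (MvPolynomial V K) r := by
  apply le_antisymm
  · refine Ideal.span_le.2 ?_
    rintro _ ⟨u, ⟨l, hl⟩, rfl⟩
    refine Submodule.mem_sup.2 ⟨lin (u - fun v => ∑ i ∈ Finset.range r, l i * a i v), ?_,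
      lin (fun v => ∑ i ∈ Finset.range r, l i * a i v), ?_, by rw [map_sub]; simp⟩
    · rw [lin_apply]
      refine Submodule.sum_mem _ fun v _ => ?_
      by_cases hv : v ∈ σ
      · simp [hl v hv]
      · rw [smul_eq_C_mul]
        refine Ideal.mul_mem_left _ _ (mem_SR_self.2 fun α hα => ?_)
        rw [coeff_X, if_neg]
        rintro rfl
        exact hv (hα (by simp))
    · rw [lin_comb]
      refine Submodule.sum_mem _ fun i hi => ?_
      rw [smul_eq_C_mul, mul_comm]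
      exact th_mem (Finset.mem_range.1 hi) _
  · refine sup_le (fun p hp => ?_) fun p hp => TM_le (U := (idl (Ur a σ r)).toAddSubgroup)
      (fun i hi m => Ideal.mul_mem_right _ _
        (lin_mem_idl (U := Ur a σ r) ⟨Pi.single i 1, fun v _ => ?_⟩)) hp
    · have h1 : p ∈ Ideal.span (X '' {v | v ∉ σ}) := by
        rw [mem_ideal_span_X_image]
        intro α hα
        obtain ⟨v, hv, hv'⟩ := Finset.not_subset.1 fun h =>
          mem_support_iff.1 hα (mem_SR_self.1 hp α h)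
        exact ⟨v, hv', Finsupp.mem_support_iff.1 hv⟩
      refine (Ideal.span_le.2 ?_ : _ ≤ idl (Ur a σ r)) h1
      rintro _ ⟨v, hv, rfl⟩
      rw [← lin_single]
      refine lin_mem_idl ⟨0, fun w hw => ?_⟩
      rw [Pi.single_eq_of_ne (by rintro rfl; exact hv hw)]
      simp
    · simp [Pi.single_apply, hi]

variable {a : ℕ → V → K} {d : ℕ}

theorem reg_self (R : Rows a d) {σ : Finset V} (hσ : σ.card ≤ d) :
    Reg (th a) (MvPolynomial V K ⧸ SR K {σ} σ) σ.card := by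
  intro i hi m hm
  obtain ⟨p, rfl⟩ := Ideal.Quotient.mk_surjective m
  change Ideal.Quotient.mk _ (th a i * p) ∈ _ at hm
  rw [mk_mem_TM, ← idl_Ur] at hm ⊢
  refine idl_prime (U := Ur a σ i) (fun ⟨l, hl⟩ => ?_) hm
  have := R.indep σ hσ (fun j => if j < i then l j else if j = i then -1 else 0) (fun v hv => by
    obtain ⟨e, he⟩ := Nat.exists_eq_add_of_lt hi
    rw [he, add_assoc, add_comm e 1, ← add_assoc, Finset.sum_range_add, Finset.sum_range_succ,
      Finset.sum_congr rfl fun j hj => by rw [if_pos (Finset.mem_range.1 hj)], hl v hv,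
      Finset.sum_eq_zero fun j _ => by rw [if_neg (by omega), if_neg (by omega), zero_mul]]
    simp) i hi
  simp at this

theorem dep_self (R : Rows a d) {σ : Finset V} (hσ : σ.card ≤ d) (p q : MvPolynomial V K) :
    ∃ x y : K, (x ≠ 0 ∨ y ≠ 0) ∧
      C x * p + C y * q ∈ SR K {σ} σ ⊔ TM (th a) (MvPolynomial V K) σ.card := by
  have h : Ur a σ σ.card = ⊤ := eq_top_iff.2 fun u _ => R.surj σ hσ u
  rw [← idl_Ur, h]
  obtain ⟨x, hx⟩ := idl_top p
  obtain ⟨y, hy⟩ := idl_top q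
  by_cases h0 : x = 0
  · exact ⟨1, 0, Or.inl one_ne_zero, by simpa [h0] using hx⟩
  · refine ⟨y, -x, Or.inr (neg_ne_zero.2 h0), ?_⟩
    convert Ideal.sub_mem _ (Ideal.mul_mem_left _ (C y) hx) (Ideal.mul_mem_left _ (C x) hy) using 1
    rw [map_neg]; ring

/-- A conditional map of quotients. -/
def res {S : Type} [CommRing S] {I J : Ideal S} (p : Prop) [Decidable p] (h : p → I ≤ J) :
    (S ⧸ I) →ₗ[S] (S ⧸ J) := if hp : p then Submodule.factor (h hp) else 0

theorem res_mk {S : Type} [CommRing S] {I J : Ideal S} (p : Prop) [Decidable p] (h : p → I ≤ J)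
    (x : S) : res p h (Ideal.Quotient.mk I x) = Ideal.Quotient.mk J (if p then x else 0) := by
  unfold res
  split_ifs
  · rfl
  · rfl

/-- A sum of conditional maps of quotients. -/
def sumRes {S ι : Type} [CommRing S] [Fintype ι] (I : ι → Ideal S) (J : Ideal S) (p : ι → Prop)
    [DecidablePred p] (h : ∀ i, p i → I i ≤ J) : (∀ i, S ⧸ I i) →ₗ[S] (S ⧸ J) :=
  ∑ i, res (p i) (h i) ∘ₗ LinearMap.proj i

theorem sumRes_mk {S ι : Type} [CommRing S] [Fintype ι] (I : ι → Ideal S) (J : Ideal S)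
    (p : ι → Prop) [DecidablePred p] (h : ∀ i, p i → I i ≤ J) (F : ι → S) :
    sumRes I J p h (fun i => Ideal.Quotient.mk _ (F i)) =
      Ideal.Quotient.mk J (∑ i, if p i then F i else 0) := by
  simp only [sumRes, LinearMap.sum_apply, LinearMap.comp_apply, LinearMap.proj_apply, res_mk,
    map_sum]

variable (K Γ) in
/-- A term of the partition complex of the star of `σ`. -/
abbrev PC (σ : Finset V) (j : ℕ) : Type :=
  ∀ τ : {τ : Finset V // σ ⊆ τ ∧ τ.card = j}, MvPolynomial V K ⧸ SR K Γ τ.1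

variable (Γ) in
/-- An element of the partition complex given by polynomials. -/
def mkP (σ : Finset V) (j : ℕ) (F : Finset V → MvPolynomial V K) : PC K Γ σ j :=
  fun τ => Ideal.Quotient.mk _ (F τ.1)

omit [Fintype V] in
theorem mkP_surj {σ : Finset V} {j : ℕ} (f : PC K Γ σ j) : ∃ F, mkP Γ σ j F = f := by
  choose G hG using fun τ => Ideal.Quotient.mk_surjective (f τ)
  exact ⟨fun τ => if h : σ ⊆ τ ∧ τ.card = j then G ⟨τ, h⟩ else 0,
    funext fun τ => by simp only [mkP, dif_pos τ.2]; exact hG τ⟩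

omit [Fintype V] in
theorem mkP_eq {σ : Finset V} {j : ℕ} {F G : Finset V → MvPolynomial V K} :
    mkP Γ σ j F = mkP Γ σ j G ↔ ∀ τ, σ ⊆ τ → τ.card = j → F τ - G τ ∈ SR K Γ τ :=
  ⟨fun h τ h1 h2 => Ideal.Quotient.eq.1 (congrFun h ⟨τ, h1, h2⟩),
    fun h => funext fun τ => Ideal.Quotient.eq.2 (h τ.1 τ.2.1 τ.2.2)⟩

omit [Fintype V] in
theorem mkP_eq_zero {σ : Finset V} {j : ℕ} {F : Finset V → MvPolynomial V K} :
    mkP Γ σ j F = 0 ↔ ∀ τ, σ ⊆ τ → τ.card = j → F τ ∈ SR K Γ τ := by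
  have := mkP_eq (Γ := Γ) (σ := σ) (j := j) (F := F) (G := 0)
  simp only [Pi.zero_apply, sub_zero] at this
  exact this

variable (K Γ) in
/-- The differential of the partition complex. -/
def dP (σ : Finset V) (j : ℕ) : PC K Γ σ j →ₗ[MvPolynomial V K] PC K Γ σ (j + 1) :=
  LinearMap.pi fun τ' => sumRes (fun τ : {τ : Finset V // σ ⊆ τ ∧ τ.card = j} => SR K Γ τ.1)
    (SR K Γ τ'.1) (fun τ => τ.1 ⊆ τ'.1) fun _ => SR_mono

open Classical in
variable (K Γ) in
/-- The augmentation of the partition complex. -/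
def eP (d : ℕ) (σ : Finset V) (j : ℕ) :
    PC K Γ σ j →ₗ[MvPolynomial V K] (MvPolynomial V K ⧸ SR K {σ} σ) :=
  sumRes (fun τ : {τ : Finset V // σ ⊆ τ ∧ τ.card = j} => SR K Γ τ.1) _
    (fun τ => τ.1 ∈ Γ ∧ j = d) fun τ h => SR_le τ.2.1 h.1

theorem dP_mkP (σ : Finset V) (j : ℕ) (F : Finset V → MvPolynomial V K) :
    dP K Γ σ j (mkP Γ σ j F) = mkP Γ σ (j + 1) fun τ => ∑ v ∈ τ \ σ, F (τ.erase v) := by
  funext τ'
  refine (sumRes_mk _ _ _ _ _).trans (congrArg _ ?_)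
  rw [← Finset.sum_filter]
  symm
  refine Finset.sum_bij (fun v hv => ⟨τ'.1.erase v, ?_, ?_⟩) (fun v hv => ?_) ?_ ?_ fun _ _ => rfl
  · exact Finset.subset_erase.2 ⟨τ'.2.1, (Finset.mem_sdiff.1 hv).2⟩
  · rw [Finset.card_erase_of_mem (Finset.mem_sdiff.1 hv).1, τ'.2.2]; rfl
  · simp [Finset.erase_subset]
  · intro v hv w hw h
    exact (Finset.erase_inj _ (Finset.mem_sdiff.1 hv).1).1 (congrArg Subtype.val h)
  · intro τ hτ
    have h1 : τ.1 ⊆ τ'.1 := (Finset.mem_filter.1 hτ).2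
    obtain ⟨v, hv, hv'⟩ := Finset.exists_eq_insert_iff.2 ⟨h1, by rw [τ.2.2, τ'.2.2]⟩
    exact ⟨v, Finset.mem_sdiff.2 ⟨hv' ▸ Finset.mem_insert_self _ _, fun h => hv (τ.2.1 h)⟩,
      Subtype.ext (by simp only [← hv', Finset.erase_insert hv])⟩

open Classical in
theorem eP_mkP (σ : Finset V) (F : Finset V → MvPolynomial V K) :
    eP K Γ d σ d (mkP Γ σ d F) = Ideal.Quotient.mk _
      (∑ τ : Finset V, if τ ∈ Γ ∧ σ ⊆ τ ∧ τ.card = d then F τ else 0) := by
  refine (sumRes_mk _ _ _ _ _).trans (congrArg _ ?_)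
  rw [← Finset.sum_subtype (Finset.univ.filter fun τ => σ ⊆ τ ∧ τ.card = d) (by simp)
    (fun τ => if τ ∈ Γ ∧ d = d then F τ else 0), Finset.sum_filter]
  refine Finset.sum_congr rfl fun τ _ => ?_
  by_cases h1 : τ ∈ Γ <;> by_cases h2 : σ ⊆ τ ∧ τ.card = d <;> simp [h1, h2]

open Classical in
theorem eP_ne (σ : Finset V) {j : ℕ} (hj : j ≠ d) (f : PC K Γ σ j) : eP K Γ d σ j f = 0 := by
  obtain ⟨F, rfl⟩ := mkP_surj f
  refine (sumRes_mk _ _ _ _ _).trans ?_
  simp [hj]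

variable [CharP K 2]

omit [Fintype V] in
theorem dd_sum (σ τ : Finset V) (hτ : σ ⊆ τ) (F : Finset V → MvPolynomial V K) :
    ∑ v ∈ τ \ σ, ∑ w ∈ τ.erase v \ σ, F ((τ.erase v).erase w) = 0 := by
  have h1 : ∀ c : SC K V, rel σ (sbd (rel σ c)) = rel σ (sbd c) := fun c =>
    lc_ext (f := rel σ ∘ₗ sbd ∘ₗ rel σ) (g := rel σ ∘ₗ sbd) (fun ρ => by
      simp only [LinearMap.comp_apply]
      by_cases h : σ ⊆ ρ
      · simp [rel, h]
      · rw [rel_sbd_single, if_neg h]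
        simp [rel, h]) c
  have h2 := congrArg (Finsupp.linearCombination K F) (h1 (sbd (Finsupp.single τ 1)))
  rw [sbd_sbd, rel_sbd_single, if_pos hτ] at h2
  simp only [map_sum, map_zero, rel_sbd_single] at h2
  rw [← h2]
  refine Finset.sum_congr rfl fun v hv => ?_
  rw [if_pos (Finset.subset_erase.2 ⟨hτ, (Finset.mem_sdiff.1 hv).2⟩), map_sum]
  simp

open Classical in
omit [CharP K 2] in
theorem ed_sum (H : HS K Γ d) (σ : Finset V) (F : Finset V → MvPolynomial V K) :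
    (∑ τ : Finset V, if τ ∈ Γ ∧ σ ⊆ τ ∧ τ.card = d then ∑ v ∈ τ \ σ, F (τ.erase v) else 0) = 0 := by
  let z : SC K V := ∑ τ : Finset V, if τ ∈ Γ ∧ τ.card = d then Finsupp.single τ 1 else 0
  have hz : ∀ τ, z τ = if τ ∈ Γ ∧ τ.card = d then 1 else 0 := fun τ => by
    simp only [z, Finsupp.finsetSum_apply]
    rw [Finset.sum_eq_single τ]
    · split_ifs <;> simp
    · intro ρ _ h; split_ifs <;> simp [Finsupp.single_eq_of_ne' h]
    · simp
  have h1 : sbd z = 0 := by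
    ext ρ
    rw [sbd_apply]
    by_cases h : ρ.card + 1 = d
    · refine Eq.trans (Finset.sum_congr rfl fun v hv => ?_) (H.pm ρ h)
      simp [hz, Finset.card_insert_of_notMem (Finset.mem_compl.1 hv), h]
    · refine Finset.sum_eq_zero fun v hv => ?_
      simp [hz, Finset.card_insert_of_notMem (Finset.mem_compl.1 hv), h]
  have h2 := congrArg (Finsupp.linearCombination K F ∘ₗ rel σ) h1
  simp only [z, map_sum, map_zero, LinearMap.comp_apply] at h2
  refine Eq.trans (Finset.sum_congr rfl fun τ _ => ?_) h2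
  by_cases a1 : τ ∈ Γ ∧ τ.card = d
  · rw [if_pos a1, rel_sbd_single]
    by_cases a2 : σ ⊆ τ <;> simp [a1, a2, map_sum]
  · rw [if_neg a1, if_neg fun h => a1 ⟨h.1, h.2.2⟩]
    simp

open Classical in
theorem exact_P (H : HS K Γ d) {σ : Finset V} (hσ : σ ∈ Γ) {j : ℕ}
    (F : Finset V → MvPolynomial V K)
    (h1 : ∀ τ, σ ⊆ τ → τ.card = j + 1 → ∑ v ∈ τ \ σ, F (τ.erase v) ∈ SR K Γ τ)
    (h2 : j = d → (∑ τ : Finset V, if τ ∈ Γ ∧ σ ⊆ τ ∧ τ.card = d then F τ else 0) ∈ SR K {σ} σ) :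
    ∃ G : Finset V → MvPolynomial V K,
      ∀ τ, σ ⊆ τ → τ.card = j → ∑ v ∈ τ \ σ, G (τ.erase v) - F τ ∈ SR K Γ τ := by
  have key : ∀ α : V →₀ ℕ, ∃ ψ : Finset V → K, ∀ τ, σ ⊆ τ → τ.card = j → α.support ∪ τ ∈ Γ →
      coeff α (F τ) = ∑ v ∈ τ \ σ, ψ (τ.erase v) := by
    intro α
    by_cases hα : α.support ⊆ σ
    · obtain ⟨ψ, hψ⟩ := H.cl σ hσ j (fun τ => coeff α (F τ)) (fun τ hτ a b => by
        rw [← coeff_sum]
        exact (mem_SR H.down).1 (h1 τ a b) α
          (by rwa [Finset.union_eq_right.2 (hα.trans a)])) (fun e => by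
        refine Eq.trans ?_ (mem_SR_self.1 (h2 e) α hα)
        rw [coeff_sum]
        exact Finset.sum_congr rfl fun τ _ => by split_ifs <;> simp)
      exact ⟨ψ, fun τ a b c => hψ τ (H.down _ c _ Finset.subset_union_right) a b⟩
    · obtain ⟨w, hw, hwσ⟩ := Finset.not_subset.1 hα
      refine ⟨fun τ => if w ∈ τ then 0 else coeff α (F (insert w τ)), fun τ a b c => ?_⟩
      by_cases hwτ : w ∈ τ
      · rw [Finset.sum_eq_single_of_mem w (Finset.mem_sdiff.2 ⟨hwτ, hwσ⟩)]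
        · simp [Finset.insert_erase hwτ]
        · intro v _ hv
          exact if_pos (Finset.mem_erase.2 ⟨hv.symm, hwτ⟩)
      · have h3 := (mem_SR H.down).1 (h1 (insert w τ) (a.trans (Finset.subset_insert _ _))
          (by rw [Finset.card_insert_of_notMem hwτ, b])) α (by
            rwa [Finset.union_insert, Finset.insert_eq_of_mem (Finset.mem_union_left _ hw)])
        rw [Finset.insert_sdiff_of_notMem _ hwσ,
          Finset.sum_insert fun h => hwτ (Finset.mem_sdiff.1 h).1, Finset.erase_insert hwτ,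
          coeff_add, coeff_sum, CharTwo.add_eq_zero] at h3
        rw [h3]
        refine Finset.sum_congr rfl fun v hv => ?_
        beta_reduce
        rw [if_neg fun h => hwτ (Finset.mem_of_mem_erase h), Finset.erase_insert_of_ne]
        rintro rfl
        exact hwτ (Finset.mem_sdiff.1 hv).1
  choose ψ hψ using key
  let T : Finset (V →₀ ℕ) := Finset.univ.biUnion fun τ => (F τ).support
  refine ⟨fun τ => ∑ α ∈ T, monomial α (ψ α τ), fun τ a b => (mem_SR H.down).2 fun α hα => ?_⟩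
  simp only [coeff_sub, coeff_sum, coeff_monomial, Finset.sum_ite_eq']
  by_cases h : α ∈ T
  · simp [h, hψ α τ a b hα]
  · have : coeff α (F τ) = 0 := by
      by_contra h'
      exact h (Finset.mem_biUnion.2 ⟨τ, Finset.mem_univ _, mem_support_iff.2 h'⟩)
    simp [h, this]

omit [CharP K 2] in
theorem HS.facet (H : HS K Γ d) {σ : Finset V} (hσ : σ ∈ Γ) : ∃ F ∈ Γ, σ ⊆ F ∧ F.card = d := by
  induction h : d - σ.card generalizing σ with
  | zero => exact ⟨σ, hσ, subset_rfl, by have := H.card_le σ hσ; omega⟩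
  | succ m ih =>
    obtain ⟨v, hv, hv'⟩ := H.ext σ hσ (by omega)
    obtain ⟨F, h1, h2, h3⟩ := ih hv' (by rw [Finset.card_insert_of_notMem hv]; omega)
    exact ⟨F, h1, (Finset.subset_insert _ _).trans h2, h3⟩

theorem dP_dP (σ : Finset V) (j : ℕ) (f : PC K Γ σ j) : dP K Γ σ (j + 1) (dP K Γ σ j f) = 0 := by
  obtain ⟨F, rfl⟩ := mkP_surj f
  rw [dP_mkP, dP_mkP, mkP_eq_zero]
  intro τ h _
  rw [dd_sum σ τ h]
  exact Submodule.zero_mem _

omit [CharP K 2] in
theorem eP_dP (H : HS K Γ d) (σ : Finset V) (j : ℕ) (f : PC K Γ σ j) :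
    eP K Γ d σ (j + 1) (dP K Γ σ j f) = 0 := by
  by_cases h : j + 1 = d
  · obtain ⟨F, rfl⟩ := mkP_surj f
    subst h
    rw [dP_mkP, eP_mkP, ed_sum H, map_zero]
  · exact eP_ne σ h _

theorem exact_P' (H : HS K Γ d) {σ : Finset V} (hσ : σ ∈ Γ) {j : ℕ}
    (f : PC K Γ σ (j + 1)) (h1 : dP K Γ σ _ f = 0) (h2 : eP K Γ d σ _ f = 0) :
    ∃ g, dP K Γ σ j g = f := by
  obtain ⟨F, rfl⟩ := mkP_surj f
  rw [dP_mkP, mkP_eq_zero] at h1
  obtain ⟨G, hG⟩ := exact_P H hσ F h1 fun e => by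
    subst e
    rwa [eP_mkP, Ideal.Quotient.eq_zero_iff_mem] at h2
  exact ⟨mkP Γ σ j G, by rw [dP_mkP, mkP_eq]; exact hG⟩

theorem inv_P (H : HS K Γ d) (R : Rows a d) {σ : Finset V} (hσ : σ ∈ Γ)
    (ih : ∀ τ : Finset V, σ.card < τ.card → Reg (th a) (MvPolynomial V K ⧸ SR K Γ τ) d)
    (i j : ℕ) (hij : i + j = d) (hj : σ.card < j) (M : Type) [AddCommGroup M]
    [Module (MvPolynomial V K) M] (f : M →ₗ[MvPolynomial V K] PC K Γ σ j)
    (hf : Function.Injective f)
    (hr : ∀ p, (dP K Γ σ j p = 0 ∧ eP K Γ d σ j p = 0) ↔ ∃ m, f m = p) :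
    Reg (th a) M (σ.card + i + 1) ∧
      Dep (th a) K (σ.card + i + 1) {x : M | f x ∈ TM (th a) _ (σ.card + i + 1)} := by
  classical
  have hP : ∀ j, σ.card < j → Reg (th a) (PC K Γ σ j) d := fun j hj =>
    Reg.pi fun τ => ih τ.1 (by rw [τ.2.2]; exact hj)
  induction i generalizing j M with
  | zero =>
    obtain rfl : j = d := by omega
    refine depth_step f (eP K Γ j σ j) hf (fun x => ?_) (fun p => ?_)
      ((hP j hj).mono (by omega)) (reg_self R hj.le) fun x _ y _ => ?_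
    · obtain ⟨p, rfl⟩ := Ideal.Quotient.mk_surjective x
      obtain ⟨F, h1, h2, h3⟩ := H.facet hσ
      refine ⟨mkP Γ σ j fun τ => if τ = F then p else 0, ?_⟩
      rw [eP_mkP, Finset.sum_eq_single F]
      · simp [h1, h2, h3]
      · intro τ _ h; simp [h]
      · simp
    · rw [← hr, and_iff_right]
      obtain ⟨F, rfl⟩ := mkP_surj p
      rw [dP_mkP, mkP_eq_zero]
      exact fun τ _ h => SR_top H.down (fun h' => by have := H.card_le τ h'; omega) _
    · obtain ⟨p, rfl⟩ := Ideal.Quotient.mk_surjective x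
      obtain ⟨q, rfl⟩ := Ideal.Quotient.mk_surjective y
      obtain ⟨u, v, h1, h2⟩ := dep_self R hj.le p q
      exact ⟨u, v, h1, mk_mem_TM.2 h2⟩
  | succ i ih' =>
    let Z := LinearMap.ker (dP K Γ σ (j + 1)) ⊓ LinearMap.ker (eP K Γ d σ (j + 1))
    obtain ⟨h1, h2⟩ := ih' (j + 1) (by omega) (by omega) Z Z.subtype Subtype.val_injective
      fun p => ⟨fun h => ⟨⟨p, h⟩, rfl⟩, fun ⟨m, hm⟩ => hm ▸ m.2⟩
    refine depth_step f ((dP K Γ σ j).codRestrict Z fun p => ⟨dP_dP σ j p, eP_dP H σ j p⟩) hf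
      (fun x => ?_) (fun p => ?_) ((hP j hj).mono (by omega)) h1 fun x hx y hy => ?_
    · obtain ⟨g, hg⟩ := exact_P' H hσ x.1 x.2.1 x.2.2
      exact ⟨g, Subtype.ext hg⟩
    · rw [← hr, and_iff_left (eP_ne σ (by omega) p)]
      exact Subtype.ext_iff
    · have key : ∀ x : Z, th a (σ.card + i + 1) • x ∈ TM (th a) Z (σ.card + i + 1) →
          Z.subtype x ∈ TM (th a) (PC K Γ σ (j + 1)) (σ.card + i + 1) := fun x hx =>
        hP (j + 1) (by omega) (σ.card + i + 1) (by omega) _ (by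
          have := map_mem_TM Z.subtype hx
          rwa [map_smul] at this)
      exact h2 x (key x hx) y (key y hy)

/-- The ideal `I_(st σ) + (θ)`. -/
def JJ (Γ : Set (Finset V)) (a : ℕ → V → K) (d : ℕ) (σ : Finset V) : Ideal (MvPolynomial V K) :=
  SR K Γ σ ⊔ TM (th a) (MvPolynomial V K) d

theorem cm (H : HS K Γ d) (R : Rows a d) (σ : Finset V) :
    Reg (th a) (MvPolynomial V K ⧸ SR K Γ σ) d ∧ ∀ p q : MvPolynomial V K,
      (∀ v ∉ σ, p ∈ JJ Γ a d (insert v σ)) → (∀ v ∉ σ, q ∈ JJ Γ a d (insert v σ)) →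
      ∃ x y : K, (x ≠ 0 ∨ y ≠ 0) ∧ C x * p + C y * q ∈ JJ Γ a d σ := by
  induction h : Fintype.card V - σ.card using Nat.strong_induction_on generalizing σ with
  | _ m ih =>
  by_cases hσ : σ ∈ Γ
  swap
  · refine ⟨fun i _ m _ => ?_, fun p q _ _ => ⟨1, 1, Or.inl one_ne_zero,
      Submodule.mem_sup_left (SR_top H.down hσ _)⟩⟩
    obtain ⟨p, rfl⟩ := Ideal.Quotient.mk_surjective m
    exact mk_mem_TM.2 (Submodule.mem_sup_left (SR_top H.down hσ _))
  rcases (H.card_le σ hσ).eq_or_lt with hd | hd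
  · have e : SR K Γ σ = SR K {σ} σ := le_antisymm (SR_le subset_rfl hσ) fun p hp =>
      (mem_SR H.down).2 fun α hα => mem_SR_self.1 hp α (Finset.union_eq_right.1
        (Finset.eq_of_subset_of_card_le Finset.subset_union_right
          (hd ▸ H.card_le _ hα)).symm)
    rw [JJ, e, ← hd]
    exact ⟨reg_self R hd.le, fun p q _ _ => dep_self R hd.le p q⟩
  let f : (MvPolynomial V K ⧸ SR K Γ σ) →ₗ[MvPolynomial V K] PC K Γ σ (σ.card + 1) :=
    LinearMap.pi fun τ => Submodule.factor (SR_mono τ.2.1)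
  have hf : ∀ p, f (Ideal.Quotient.mk _ p) = mkP Γ σ _ fun _ => p := fun _ => rfl
  have hd' : ∀ G : Finset V → MvPolynomial V K,
      dP K Γ σ σ.card (mkP Γ σ _ G) = f (Ideal.Quotient.mk _ (G σ)) := fun G => by
    rw [dP_mkP, hf, mkP_eq]
    intro τ h1 h2
    obtain ⟨v, hv, rfl⟩ := Finset.exists_eq_insert_iff.2 ⟨h1, h2.symm⟩
    rw [Finset.insert_sdiff_of_notMem _ hv]
    simp [Finset.erase_insert hv]
  obtain ⟨h1, h2⟩ := inv_P H R hσ (fun τ hτ => (ih _ (by
      have := Finset.card_le_univ τ; omega) τ rfl).1) (d - σ.card - 1) (σ.card + 1) (by omega)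
    (by omega) _ f ((injective_iff_map_eq_zero f).2 fun x hx => by
      obtain ⟨p, rfl⟩ := Ideal.Quotient.mk_surjective x
      rw [hf, mkP_eq_zero] at hx
      refine Ideal.Quotient.eq_zero_iff_mem.2 ((mem_SR H.down).2 fun α hα => ?_)
      have : ∃ v ∉ σ, α.support ∪ insert v σ ∈ Γ := by
        by_cases h : α.support ⊆ σ
        · obtain ⟨v, hv, hv'⟩ := H.ext σ hσ hd
          exact ⟨v, hv, by rwa [Finset.union_eq_right.2 (h.trans (Finset.subset_insert _ _))]⟩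
        · obtain ⟨w, hw, hwσ⟩ := Finset.not_subset.1 h
          exact ⟨w, hwσ, by
            rwa [Finset.union_insert, Finset.insert_eq_of_mem (Finset.mem_union_left _ hw)]⟩
      obtain ⟨v, hv, hv'⟩ := this
      exact (mem_SR H.down).1 (hx _ (Finset.subset_insert v σ) (Finset.card_insert_of_notMem hv))
        α hv') fun p => ⟨fun h => by
      obtain ⟨g, rfl⟩ := exact_P' H hσ p h.1 h.2
      obtain ⟨G, rfl⟩ := mkP_surj g
      exact ⟨_, (hd' G).symm⟩, fun ⟨x, hx⟩ => by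
      obtain ⟨q, rfl⟩ := Ideal.Quotient.mk_surjective x
      rw [← hx, ← hd' fun _ => q]
      exact ⟨dP_dP _ _ _, eP_dP H _ _ _⟩⟩
  rw [show σ.card + (d - σ.card - 1) + 1 = d by omega] at h1 h2
  refine ⟨h1, fun p q hp hq => ?_⟩
  have key : ∀ p, (∀ v ∉ σ, p ∈ JJ Γ a d (insert v σ)) →
      f (Ideal.Quotient.mk _ p) ∈ TM (th a) _ d := fun p hp => mem_TM_pi.2 fun τ => by
    obtain ⟨τ, h3, h4⟩ := τ
    obtain ⟨v, hv, rfl⟩ := Finset.exists_eq_insert_iff.2 ⟨h3, h4.symm⟩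
    exact mk_mem_TM.2 (hp v hv)
  obtain ⟨x, y, h3, h4⟩ := h2 _ (key p hp) _ (key q hq)
  exact ⟨x, y, h3, mk_mem_TM.1 h4⟩

end

end Pool.Agent.P.MP_233bd3_co
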