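import Pool.Agent.P.MP_233bd3_co.Chains
import Pool.Agent.P.MP_233bd3_co.Defs

/-!
Simplicial chains in characteristic two and their comparison with small chains.
-/

open Finsupp

namespace Pool.Agent.P.MP_233bd3_co

noncomputable section

variable {K : Type} [Field K] [CharP K 2] {V : Type} [DecidableEq V]

theorem add_self2 {M : Type} [AddCommGroup M] [Module K M] (c : M) : c + c = 0 := by
  rw [← two_smul K c, CharTwo.two_eq_zero, zero_smul]

theorem neg_eq2 (K : Type) [Field K] [CharP K 2] {M : Type} [AddCommGroup M] [Module K M]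
    (c : M) : -c = c := neg_eq_of_add_eq_zero_left (add_self2 (K := K) c)

/-- Simplicial chains. -/
abbrev SC (K : Type) [Field K] (V : Type) : Type := Finset V →₀ K

/-- Simplicial boundary. -/
def sbd : SC K V →ₗ[K] SC K V :=
  linearCombination K fun τ => ∑ v ∈ τ, single (τ.erase v) (1 : K)

/-- Simplicial cone. -/
def scone (v : V) : SC K V →ₗ[K] SC K V :=
  linearCombination K fun τ => if v ∈ τ then 0 else single (insert v τ) (1 : K)

omit [CharP K 2] in
theorem sbd_single (τ : Finset V) :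
    sbd (single τ (1 : K)) = ∑ v ∈ τ, single (τ.erase v) (1 : K) := by simp [sbd]

omit [CharP K 2] in
theorem scone_single (v : V) (τ : Finset V) :
    scone v (single τ (1 : K)) = if v ∈ τ then 0 else single (insert v τ) (1 : K) := by
  simp [scone]

theorem sbd_scone (v : V) (c : SC K V) : sbd (scone v c) = c - scone v (sbd c) := by
  refine lc_ext (f := sbd ∘ₗ scone v) (g := LinearMap.id - scone v ∘ₗ sbd) (fun τ => ?_) c
  simp only [LinearMap.comp_apply, LinearMap.sub_apply, LinearMap.id_apply, sbd_single,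
    scone_single, map_sum]
  by_cases h : v ∈ τ
  · rw [if_pos h, map_zero, Finset.sum_eq_single_of_mem v h]
    · simp [Finset.insert_erase h]
    · intro w _ hw
      rw [if_pos (Finset.mem_erase.2 ⟨hw.symm, h⟩)]
  · rw [if_neg h, sbd_single, Finset.sum_insert h, Finset.erase_insert h, sub_eq_add_neg,
      neg_eq2 K]
    congr 1
    refine Finset.sum_congr rfl fun w hw => ?_
    rw [if_neg (fun h' => h (Finset.mem_of_mem_erase h')),
      Finset.erase_insert_of_ne (by rintro rfl; exact h hw)]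

theorem sbd_sbd (c : SC K V) : sbd (sbd c) = 0 := by
  refine lc_ext (f := sbd ∘ₗ sbd) (g := 0) (fun τ => ?_) c
  simp only [LinearMap.comp_apply, LinearMap.zero_apply]
  induction τ using Finset.induction_on with
  | empty => simp [sbd_single]
  | insert v τ hv ih =>
    have : single (insert v τ) (1 : K) = scone v (single τ 1) := by rw [scone_single, if_neg hv]
    rw [this, sbd_scone, map_sub, sbd_scone, ih]
    simp

omit [CharP K 2] in
theorem sbd_apply [Fintype V] (c : SC K V) (ρ : Finset V) :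
    sbd c ρ = ∑ v ∈ ρᶜ, c (insert v ρ) := by
  have := lc_ext (f := lapply ρ ∘ₗ sbd) (g := ∑ v ∈ ρᶜ, lapply (insert v ρ)) (fun τ => ?_) c
  · simpa using this
  simp only [LinearMap.comp_apply, sbd_single, map_sum, lapply_apply, LinearMap.sum_apply,
    single_apply]
  rw [← Finset.sum_filter, ← Finset.sum_filter]
  congr 1
  ext v
  simp only [Finset.mem_filter, Finset.mem_compl]
  constructor
  · rintro ⟨h, rfl⟩
    exact ⟨Finset.notMem_erase _ _, (Finset.insert_erase h).symm⟩
  · rintro ⟨h, rfl⟩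
    exact ⟨Finset.mem_insert_self _ _, Finset.erase_insert h⟩

/-- From lists of vertices to simplices. -/
def piS : LC K V →ₗ[K] SC K V :=
  linearCombination K fun l => if l.Nodup then single l.toFinset (1 : K) else 0

omit [CharP K 2] in
theorem piS_single (l : List V) :
    piS (single l (1 : K)) = if l.Nodup then single l.toFinset (1 : K) else 0 := by simp [piS]

omit [CharP K 2] in
theorem piS_cone (v : V) (c : LC K V) : piS (cone v c) = scone v (piS c) := by
  refine lc_ext (f := piS ∘ₗ cone v) (g := scone v ∘ₗ piS) (fun l => ?_) c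
  simp only [LinearMap.comp_apply, cone_single, piS_single, List.nodup_cons]
  by_cases h : l.Nodup
  · by_cases h' : v ∈ l <;> simp [h, h', scone_single]
  · simp [h]

theorem piS_bd (c : LC K V) : piS (bd c) = sbd (piS c) := by
  refine lc_ext (f := piS ∘ₗ bd) (g := sbd ∘ₗ piS) (fun l => ?_) c
  simp only [LinearMap.comp_apply]
  induction l with
  | nil => simp [bd_single, bdl, piS_single, sbd_single]
  | cons x l ih => rw [← cone_single, bd_cone, map_sub, piS_cone, piS_cone, sbd_scone, ih]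

variable (K) in
/-- Simplicial chains of `Γ` made of faces with `n` vertices. -/
def SCh (Γ : Set (Finset V)) (n : ℕ) : Submodule K (SC K V) :=
  supported K K {τ | τ ∈ Γ ∧ τ.card = n}

variable (K) in
/-- Vanishing of reduced simplicial homology for faces with `n` vertices. -/
def Acyc (Γ : Set (Finset V)) (n : ℕ) : Prop :=
  ∀ c ∈ SCh K Γ n, sbd c = 0 → ∃ e ∈ SCh K Γ (n + 1), sbd e = c

omit [CharP K 2] in
theorem sbd_single_mem (τ : Finset V) :
    sbd (single τ (1 : K)) ∈ supported K K {ρ | ρ ⊆ τ ∧ ρ.card + 1 = τ.card} := by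
  rw [sbd_single]
  exact Submodule.sum_mem _ fun v hv => single_mem_supported _ _
    ⟨Finset.erase_subset _ _, Finset.card_erase_add_one hv⟩

variable [Fintype V]

/-- The closed simplex spanned by `σ`. -/
def cell (σ : Finset V) : Set (V → ℝ) := {x | x ∈ stdSimplex ℝ V ∧ ∀ v, x v ≠ 0 → v ∈ σ}

omit [DecidableEq V] in
theorem cell_mono {σ τ : Finset V} (h : σ ⊆ τ) : cell σ ⊆ cell τ :=
  fun _ hx => ⟨hx.1, fun v hv => h (hx.2 v hv)⟩

omit [DecidableEq V] in
theorem cell_subset {Γ : Set (Finset V)} {σ : Finset V} (h : σ ∈ Γ) : cell σ ⊆ geom Γ :=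
  fun _ hx => ⟨hx.1, σ, h, hx.2⟩

theorem vert_mem {σ : Finset V} {v : V} (h : v ∈ σ) : Pi.single v (1 : ℝ) ∈ cell σ :=
  ⟨single_mem_stdSimplex ℝ v, fun w hw => by
    by_contra h'
    exact hw (Pi.single_eq_of_ne (by rintro rfl; exact h' h) _)⟩

omit [DecidableEq V] in
theorem cell_seg {σ : Finset V} {x p : V → ℝ} (hx : x ∈ cell σ) (hp : p ∈ cell σ) {t : ℝ}
    (h0 : 0 ≤ t) (h1 : t ≤ 1) : x + t • (p - x) ∈ cell σ := by
  refine ⟨?_, fun v hv => ?_⟩
  · have := convex_stdSimplex ℝ V hx.1 hp.1 (sub_nonneg.2 h1) h0 (by ring)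
    convert this using 1
    module
  · by_contra h
    have a1 : x v = 0 := by by_contra h'; exact h (hx.2 v h')
    have a2 : p v = 0 := by by_contra h'; exact h (hp.2 v h')
    simp [a1, a2] at hv

omit [DecidableEq V] in
theorem norm_sub_le_one {x p : V → ℝ} (hx : x ∈ stdSimplex ℝ V) (hp : p ∈ stdSimplex ℝ V) :
    ‖p - x‖ ≤ 1 := by
  rw [pi_norm_le_iff_of_nonneg zero_le_one]
  intro v
  have a1 := mem_Icc_of_mem_stdSimplex hx v
  have a2 := mem_Icc_of_mem_stdSimplex hp v
  rw [Pi.sub_apply, Real.norm_eq_abs, abs_le]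
  constructor <;> linarith [a1.1, a1.2, a2.1, a2.2]

omit [DecidableEq V] in
theorem isCompact_geom (Γ : Set (Finset V)) : IsCompact (geom Γ) := by
  refine (isCompact_stdSimplex ℝ V).of_isClosed_subset ?_ fun x hx => hx.1
  have : geom Γ = stdSimplex ℝ V ∩ ⋃ F ∈ Γ, ⋂ v ∈ {v | v ∉ F}, {x : V → ℝ | x v = 0} := by
    ext x
    simp only [geom, Set.mem_ofPred_eq, Set.mem_inter_iff, Set.mem_iUnion, Set.mem_iInter,
      exists_prop]
    refine and_congr_right fun _ => exists_congr fun F => and_congr_right fun _ =>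
      forall_congr' fun v => ⟨fun h h' => ?_, fun h h' => ?_⟩
    · by_contra h''; exact h' (h h'')
    · by_contra h''; exact h' (h h'')
  rw [this]
  refine (isClosed_stdSimplex ℝ V).inter ((Set.toFinite Γ).isClosed_biUnion fun F _ => ?_)
  exact isClosed_biInter fun v _ => isClosed_eq (continuous_apply v) continuous_const

theorem exists_sd {ε : ℝ} (hε : 0 < ε) : ∃ sd : Finset V → LC K (V → ℝ), sd ∅ = single [] 1 ∧
    (∀ τ, sd τ ∈ Ch K (cell τ) ε τ.card) ∧
    ∀ c, bd (linearCombination K sd c) = linearCombination K sd (sbd c) := by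
  obtain ⟨D, hD⟩ := carrier (K := K) (Y := V → ℝ) (fun _ : Finset V => True) Finset.card
    (fun τ => sbd (single τ 1))
    (fun τ => {e | e ∈ Ch K (cell τ) ε τ.card ∧ (τ = ∅ → e = single [] 1)})
    (fun τ => if τ = ∅ then ⊥ else Ch K (cell τ) ε (τ.card - 1)) 0
    (fun τ _ => sup_mono (sbd_single_mem τ) (fun ρ hρ => ⟨trivial, by have := hρ.2; omega,
      fun e he => by
      have h1 : τ ≠ ∅ := by
        rintro rfl
        have := hρ.2
        simp at this
      rw [if_neg h1, ← hρ.2]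
      exact Ch_mono (cell_mono hρ.1) le_rfl he.1⟩))
    (fun τ _ => Submodule.zero_mem _)
    (fun τ _ => by
      rw [← sbd_sbd (single τ (1 : K))]
      exact lc_ext (fun ρ => by simp) _)
    (fun τ _ => by simp)
    (fun τ _ c hc hc0 => by
      by_cases h : τ = ∅
      · subst h
        rw [if_pos rfl, Submodule.mem_bot] at hc
        exact ⟨single [] 1, ⟨single_mem_supported _ _ ⟨rfl, by simp, by simp⟩, fun _ => rfl⟩,
          by simp [hc, bd_single, bdl]⟩
      · rw [if_neg h] at hc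
        obtain ⟨v, hv⟩ := Finset.nonempty_iff_ne_empty.2 h
        obtain ⟨e, he, he'⟩ := fill_star (vert_mem hv)
          (fun x hx t h0 h1 => cell_seg hx (vert_mem hv) h0 h1)
          (fun x hx => norm_sub_le_one hx.1 (vert_mem hv).1) hε hc hc0
        rw [Nat.sub_add_cancel (Finset.card_pos.2 ⟨v, hv⟩)] at he
        exact ⟨e, ⟨he, fun h' => absurd h' h⟩, he'⟩) (Fintype.card V + 1)
  have hD' := fun τ : Finset V => hD τ trivial (Nat.lt_succ_of_le (Finset.card_le_univ τ))
  refine ⟨D, (hD' ∅).1.2 rfl, fun τ => (hD' τ).1.1, fun c => ?_⟩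
  refine lc_ext (f := bd ∘ₗ linearCombination K D) (g := linearCombination K D ∘ₗ sbd)
    (fun τ => ?_) c
  simpa [neg_eq2 K] using (hD' τ).2

variable [Nonempty V]

/-- A vertex with the largest coordinate. -/
def top (x : V → ℝ) : V := Classical.choose (Finite.exists_max x)

omit [DecidableEq V] in
theorem top_ge {x : V → ℝ} (hx : x ∈ stdSimplex ℝ V) : 1 / (Fintype.card V : ℝ) ≤ x (top x) := by
  have h := Classical.choose_spec (Finite.exists_max x)
  have h0 : (0 : ℝ) < Fintype.card V := by exact_mod_cast Fintype.card_pos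
  rw [div_le_iff₀ h0, ← hx.2]
  calc ∑ v, x v ≤ ∑ _v : V, x (top x) := Finset.sum_le_sum fun v _ => h v
    _ = _ := by simp [mul_comm]

omit [DecidableEq V] in
theorem top_ne {x y : V → ℝ} (hx : x ∈ stdSimplex ℝ V)
    (h : dist x y < 1 / (Fintype.card V : ℝ)) : y (top x) ≠ 0 := by
  intro h0
  have h1 := dist_le_pi_dist x y (top x)
  rw [h0, Real.dist_eq, sub_zero] at h1
  linarith [top_ge hx, le_abs_self (x (top x))]

/-- Simplicial approximation of a chain of points. -/
def mu : LC K (V → ℝ) →ₗ[K] SC K V := piS ∘ₗ lmap top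

theorem mu_bd (c : LC K (V → ℝ)) : mu (bd c) = sbd (mu c) := by
  simp [mu, ← bd_lmap, piS_bd]

omit [CharP K 2] in
theorem mu_single_mem (l : List (V → ℝ)) :
    mu (single l (1 : K)) ∈
      supported K K {τ | τ.card = l.length ∧ ∀ v ∈ τ, ∃ x ∈ l, v = top x} := by
  simp only [mu, LinearMap.comp_apply, lmap_single, piS_single]
  split_ifs with h
  · refine single_mem_supported _ _ ⟨by rw [List.toFinset_card_of_nodup h]; simp, fun v hv => ?_⟩
    obtain ⟨x, hx, rfl⟩ := List.mem_map.1 (List.mem_toFinset.1 hv)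
    exact ⟨x, hx, rfl⟩
  · exact Submodule.zero_mem _

theorem mu_sd {ε : ℝ} {sd : Finset V → LC K (V → ℝ)} (h0 : sd ∅ = single [] 1)
    (h1 : ∀ τ, sd τ ∈ Ch K (cell τ) ε τ.card)
    (h2 : ∀ c, bd (linearCombination K sd c) = linearCombination K sd (sbd c)) (c : SC K V) :
    mu (linearCombination K sd c) = c := by
  refine lc_ext (f := mu ∘ₗ linearCombination K sd) (g := LinearMap.id) (fun τ => ?_) c
  simp only [LinearMap.comp_apply, LinearMap.id_apply]
  induction hn : τ.card using Nat.strong_induction_on generalizing τ with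
  | _ n ih =>
    rcases τ.eq_empty_or_nonempty with rfl | ⟨v, hv⟩
    · simp [h0, mu, piS_single]
    have a1 : mu (linearCombination K sd (single τ (1 : K))) ∈ supported K K {τ} := by
      rw [linearCombination_single, one_smul]
      refine map_mem_of_supported _ _ (fun l hl => ?_) (h1 τ)
      refine sup_mono (mu_single_mem l) (fun ρ hρ => ?_)
      refine Finset.eq_of_subset_of_card_le (fun w hw => ?_) (by rw [hρ.1, hl.1])
      obtain ⟨x, hx, rfl⟩ := hρ.2 w hw
      refine (hl.2.1 x hx).2 _ (top_ne (hl.2.1 x hx).1 ?_)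
      rw [dist_self]
      have h0 : (0 : ℝ) < Fintype.card V := by exact_mod_cast Fintype.card_pos
      positivity
    have a2 : sbd (mu (linearCombination K sd (single τ (1 : K)))) = sbd (single τ 1) := by
      rw [← mu_bd, h2]
      exact eq_of_supported (mu ∘ₗ linearCombination K sd) LinearMap.id
        (fun ρ hρ => ih ρ.card (by have := hρ.2; omega) ρ rfl) (sbd_single_mem τ)
    rw [supported_eq_span_single, Set.image_singleton, Submodule.mem_span_singleton] at a1
    obtain ⟨a, ha⟩ := a1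
    rw [← ha] at a2 ⊢
    have a3 : sbd (single τ (1 : K)) (τ.erase v) = 1 := by
      rw [sbd_single, Finsupp.finsetSum_apply, Finset.sum_eq_single_of_mem v hv]
      · simp
      · intro w hw hwv
        refine single_eq_of_ne fun e => ?_
        have : v ∈ τ.erase w := Finset.mem_erase.2 ⟨hwv.symm, hv⟩
        rw [← e] at this
        exact Finset.notMem_erase _ _ this
    have a4 := DFunLike.congr_fun a2 (τ.erase v)
    rw [map_smul, Finsupp.smul_apply, a3, smul_eq_mul, mul_one] at a4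
    rw [a4, one_smul]

omit [CharP K 2] in
theorem mu_mem {Γ : Set (Finset V)} (hΓ : ∀ F ∈ Γ, ∀ G ⊆ F, G ∈ Γ) (h0 : ∅ ∈ Γ) {n : ℕ}
    {c : LC K (V → ℝ)} (hc : c ∈ Ch K (geom Γ) (1 / (Fintype.card V : ℝ)) n) :
    mu c ∈ SCh K Γ n := by
  refine map_mem_of_supported _ _ (fun l hl => ?_) hc
  refine sup_mono (mu_single_mem l) (fun ρ hρ => ⟨?_, by rw [hρ.1, hl.1]⟩)
  rcases ρ.eq_empty_or_nonempty with rfl | ⟨v, hv⟩
  · exact h0
  obtain ⟨y, hy, -⟩ := hρ.2 v hv
  obtain ⟨-, F, hF, hyF⟩ := hl.2.1 y hy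
  refine hΓ F hF _ fun w hw => ?_
  obtain ⟨x, hx, rfl⟩ := hρ.2 w hw
  exact hyF _ (top_ne (hl.2.1 x hx).1 (hl.2.2 x hx y hy))

omit [CharP K 2] [DecidableEq V] [Nonempty V] in
theorem sd_mem {Γ : Set (Finset V)} {ε : ℝ} {sd : Finset V → LC K (V → ℝ)}
    (h1 : ∀ τ, sd τ ∈ Ch K (cell τ) ε τ.card) {n : ℕ} {c : SC K V} (hc : c ∈ SCh K Γ n) :
    linearCombination K sd c ∈ Ch K (geom Γ) ε n :=
  map_mem_of_supported _ _ (fun τ hτ => by
    rw [linearCombination_single, one_smul, ← hτ.2]
    exact Ch_mono (cell_subset hτ.1) le_rfl (h1 τ)) hc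

theorem acyc_of_van {Γ : Set (Finset V)} (hΓ : ∀ F ∈ Γ, ∀ G ⊆ F, G ∈ Γ) (h0 : ∅ ∈ Γ) {n : ℕ}
    (h : Van K (geom Γ) n) : Acyc K Γ n := by
  intro c hc hc0
  have hV : (0 : ℝ) < Fintype.card V := by exact_mod_cast Fintype.card_pos
  obtain ⟨δ, hδ, h1⟩ := h (1 / (Fintype.card V : ℝ)) (by positivity)
  obtain ⟨sd, s0, s1, s2⟩ := exists_sd (K := K) (V := V) hδ
  obtain ⟨e, he, he'⟩ := h1 _ (sd_mem s1 hc) (by rw [s2, hc0, map_zero])
  exact ⟨mu e, mu_mem hΓ h0 he, by rw [← mu_bd, he', mu_sd s0 s1 s2]⟩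

theorem van_of_acyc {Γ : Set (Finset V)} (hΓ : ∀ F ∈ Γ, ∀ G ⊆ F, G ∈ Γ) (h0 : ∅ ∈ Γ) {n : ℕ}
    (h : Acyc K Γ n) : Van K (geom Γ) n := by
  intro ε hε
  have hV : (0 : ℝ) < Fintype.card V := by exact_mod_cast Fintype.card_pos
  obtain ⟨sd, s0, s1, s2⟩ := exists_sd (K := K) (V := V) hε
  set δ := min ε (1 / (Fintype.card V : ℝ)) with hδ
  let Φ : List (V → ℝ) → Set (V → ℝ) := fun l =>
    {y | y ∈ stdSimplex ℝ V ∧ ∃ x ∈ l, ∀ v, y v ≠ 0 → x v ≠ 0}
  let G : List (V → ℝ) → Prop := fun l => l ∈ Sm (geom Γ) δ l.length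
  obtain ⟨D, hD⟩ := carrier (K := K) (Y := V → ℝ) G List.length (bdl K)
    (fun l => {e | e ∈ Ch K (Φ l) ε (l.length + 1)})
    (fun l => if l = [] then ⊥ else Ch K (Φ l) ε l.length)
    (fun l => single l 1 - linearCombination K sd (mu (single l 1)))
    (fun l hl => sup_mono (bdl_mem l) (fun m hm => ⟨⟨rfl, fun x hx => hl.2.1 x (hm.2 x hx),
      fun x hx y hy => hl.2.2 x (hm.2 x hx) y (hm.2 y hy)⟩, by have := hm.1; omega,
      fun e he => by
        have h1 : l ≠ [] := by
          rintro rfl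
          have := hm.1
          simp at this
        rw [if_neg h1, ← hm.1]
        exact Ch_mono' he (fun y ⟨a, x, hx, b⟩ => ⟨a, x, hm.2 x hx, b⟩)⟩))
    (fun l hl => by
      by_cases h1 : l = []
      · subst h1
        simp [mu, piS_single, s0]
      rw [if_neg h1]
      refine Submodule.sub_mem _ (single_mem_supported _ _ ⟨rfl, fun x hx =>
        ⟨(hl.2.1 x hx).1, x, hx, fun _ a => a⟩,
        fun x hx y hy => (hl.2.2 x hx y hy).trans_le (min_le_left _ _)⟩) ?_
      refine map_mem_of_supported _ _ (fun τ hτ => ?_) (mu_single_mem l)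
      rw [linearCombination_single, one_smul, ← hτ.1]
      obtain ⟨y, hy⟩ := List.exists_mem_of_ne_nil l h1
      refine Ch_mono' (s1 τ) (fun w hw => ⟨hw.1, y, hy, fun v hv => ?_⟩)
      obtain ⟨x, hx, rfl⟩ := hτ.2 v (hw.2 v hv)
      exact top_ne (hl.2.1 x hx).1 ((hl.2.2 x hx y hy).trans_le (min_le_right _ _)))
    (fun l _ => bd_bdl l)
    (fun l _ => by
      rw [map_sub, s2, ← mu_bd, bd_single]
      exact lc_ext (f := LinearMap.id - linearCombination K sd ∘ₗ mu)
        (g := linearCombination K fun l => single l 1 - linearCombination K sd (mu (single l 1)))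
        (fun m => by simp) _)
    (fun l hl c hc hc0 => by
      by_cases h1 : l = []
      · rw [if_pos h1, Submodule.mem_bot] at hc
        exact ⟨0, (Ch K _ _ _).zero_mem, by simp [hc]⟩
      rw [if_neg h1] at hc
      obtain ⟨y, hy⟩ := List.exists_mem_of_ne_nil l h1
      have key : ∀ x ∈ l, ∀ v, (Pi.single (top y) (1 : ℝ) : V → ℝ) v ≠ 0 → x v ≠ 0 := by
        intro x hx v hv
        have : v = top y := by
          by_contra h'
          exact hv (Pi.single_eq_of_ne h' _)
        rw [this]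
        exact top_ne (hl.2.1 y hy).1 ((hl.2.2 y hy x hx).trans_le (min_le_right _ _))
      refine fill_star (S := Φ l) (p := Pi.single (top y) 1) ⟨single_mem_stdSimplex ℝ _, y, hy, key y hy⟩
        (fun w hw t t0 t1 => ?_) (fun w hw => norm_sub_le_one hw.1 (single_mem_stdSimplex ℝ _))
        hε hc hc0
      obtain ⟨a, x, hx, b⟩ := hw
      classical
      have := cell_seg (σ := Finset.univ.filter fun v => x v ≠ 0) (x := w)
        (p := Pi.single (top y) 1) ⟨a, fun v hv => by simpa using b v hv⟩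
        ⟨single_mem_stdSimplex ℝ _, fun v hv => by simpa using key x hx v hv⟩ t0 t1
      exact ⟨this.1, x, hx, fun v hv => by simpa using this.2 v hv⟩) (n + 1)
  refine ⟨δ, lt_min hε (by positivity), fun c hc hc0 => ?_⟩
  obtain ⟨b, hb, hb'⟩ := h (mu c) (mu_mem hΓ h0 (Ch_mono le_rfl (min_le_right _ _) hc))
    (by rw [← mu_bd, hc0, map_zero])
  have hG : ∀ l ∈ Sm (geom Γ) δ n, G l ∧ l.length < n + 1 := fun l hl =>
    ⟨⟨rfl, hl.2⟩, by rw [hl.1]; omega⟩
  refine ⟨linearCombination K D c + linearCombination K sd b,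
    Submodule.add_mem _ ?_ (sd_mem s1 hb), ?_⟩
  · refine map_mem_of_supported _ _ (fun l hl => ?_) hc
    rw [linearCombination_single, one_smul, ← hl.1]
    refine Ch_mono' (hD l (hG l hl).1 (hG l hl).2).1 (fun y ⟨a, x, hx, b⟩ => ?_)
    obtain ⟨-, F, hF, hxF⟩ := hl.2.1 x hx
    exact ⟨a, F, hF, fun v hv => hxF v (b v hv)⟩
  · have := eq_of_supported (bd ∘ₗ linearCombination K D)
      (LinearMap.id - linearCombination K sd ∘ₗ mu - linearCombination K D ∘ₗ bd)
      (fun l hl => by simpa [bd_single] using (hD l (hG l hl).1 (hG l hl).2).2) hc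
    simp only [LinearMap.comp_apply, LinearMap.sub_apply, LinearMap.id_apply, hc0,
      map_zero] at this
    rw [map_add, this, s2, hb']
    simp

end

end Pool.Agent.P.MP_233bd3_co
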