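import Pool.Agent.P.MP_233bd3_co.Simp

/-!
Homology of a complex homeomorphic to a sphere and of the contrastars of its faces.
-/

open Finsupp Metric

namespace Pool.Agent.P.MP_233bd3_co

noncomputable section

variable {K : Type} [Field K] [CharP K 2] {V : Type} [DecidableEq V] [Fintype V]

theorem acyc_bdry (d n : ℕ) (hn : n ≠ d) :
    Acyc K {τ : Finset (Option (Fin d)) | τ ≠ Finset.univ} n := by
  intro c hc hc0
  rcases lt_or_gt_of_ne hn with h | h
  · refine ⟨scone none c, map_mem_of_supported _ _ (fun τ hτ => ?_) hc,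
      by rw [sbd_scone, hc0]; simp⟩
    rw [scone_single]
    split_ifs with h1
    · exact Submodule.zero_mem _
    · have h2 : (insert none τ).card = n + 1 := by rw [Finset.card_insert_of_notMem h1, hτ.2]
      refine single_mem_supported _ _ ⟨fun e => ?_, h2⟩
      rw [e] at h2
      simp at h2
      omega
  · refine ⟨0, Submodule.zero_mem _, ?_⟩
    rw [map_zero, eq_comm, ← Finsupp.support_eq_empty, Finset.eq_empty_iff_forall_notMem]
    intro τ hτ
    have h1 := hc hτ
    have h2 := Finset.card_lt_card (Finset.ssubset_univ_iff.2 h1.1)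
    rw [h1.2] at h2
    simp at h2
    omega

theorem norm_normalize {E : Type} [NormedAddCommGroup E] [NormedSpace ℝ E] {w : E} (h : w ≠ 0) :
    ‖w‖⁻¹ • w ∈ sphere (0 : E) 1 := by
  rw [mem_sphere_zero_iff_norm, norm_smul, norm_inv, norm_norm,
    inv_mul_cancel₀ (norm_ne_zero_iff.2 h)]

theorem van_sphere (d n : ℕ) (hn : n ≠ d) :
    Van K (sphere (0 : EuclideanSpace ℝ (Fin d)) 1) n := by
  have hB : Van K (geom {τ : Finset (Option (Fin d)) | τ ≠ Finset.univ}) n :=
    van_of_acyc (Γ := {τ : Finset (Option (Fin d)) | τ ≠ Finset.univ})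
      (fun F hF G hG e => hF (Finset.univ_subset_iff.1 (e ▸ hG)))
      (Finset.univ_nonempty.ne_empty.symm) (acyc_bdry d n hn)
  let u : EuclideanSpace ℝ (Fin d) → Option (Fin d) → ℝ := fun y o => o.elim 0 y
  let m : EuclideanSpace ℝ (Fin d) → ℝ := fun y => Finset.univ.inf' Finset.univ_nonempty (u y)
  let s : EuclideanSpace ℝ (Fin d) → ℝ := fun y => ∑ o, (u y o - m y)
  let w : (Option (Fin d) → ℝ) → EuclideanSpace ℝ (Fin d) := fun x =>
    WithLp.toLp 2 fun i => x (some i) - x none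
  have cu : ∀ o, Continuous fun y => u y o := by
    rintro (_ | i)
    · exact continuous_const
    · exact (continuous_apply i).comp (PiLp.continuous_ofLp 2 _)
  have cm : Continuous m := Continuous.finset_inf'_apply _ fun o _ => cu o
  have cs : Continuous s := continuous_finsetSum _ fun o _ => (cu o).sub cm
  have cw : Continuous w := (PiLp.continuous_toLp 2 _).comp (by fun_prop)
  have hm : ∀ y o, 0 ≤ u y o - m y := fun y o =>
    sub_nonneg.2 (Finset.inf'_le _ (Finset.mem_univ o))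
  have hs : ∀ y ∈ sphere (0 : EuclideanSpace ℝ (Fin d)) 1, 0 < s y := by
    intro y hy
    refine lt_of_le_of_ne (Finset.sum_nonneg fun o _ => hm y o) fun e => ?_
    have h1 := (Finset.sum_eq_zero_iff_of_nonneg fun o _ => hm y o).1 e.symm
    have h2 : y = 0 := by
      ext i
      have a1 := h1 none (Finset.mem_univ _)
      have a2 := h1 (some i) (Finset.mem_univ _)
      simp only [u, Option.elim] at a1 a2
      simp only [PiLp.zero_apply]
      linarith
    simp [h2] at hy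
  have hw : ∀ x ∈ geom {τ : Finset (Option (Fin d)) | τ ≠ Finset.univ}, w x ≠ 0 := by
    rintro x ⟨hx, F, hF, hxF⟩ e
    have h1 : ∀ o, x o = x none := by
      rintro (_ | i)
      · rfl
      · have := congrArg (fun z : EuclideanSpace ℝ (Fin d) => z i) e
        simpa [w, sub_eq_zero] using this
    obtain ⟨o, ho⟩ : ∃ o, o ∉ F := by
      by_contra! h
      exact hF (Finset.eq_univ_of_forall h)
    have h2 : x o = 0 := by by_contra h; exact ho (hxF o h)
    have h3 := hx.2
    rw [Finset.sum_congr rfl fun o' _ => (h1 o').trans ((h1 o).symm.trans h2)] at h3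
    simp at h3
  refine hB.retract (isCompact_sphere _ _) (isCompact_geom _)
    (f := fun y o => (s y)⁻¹ * (u y o - m y)) (g := fun x => ‖w x‖⁻¹ • w x) ?_ ?_ ?_
    (fun x hx => norm_normalize (hw x hx)) ?_
  · exact continuousOn_pi.2 fun o => (cs.continuousOn.inv₀ fun y hy => (hs y hy).ne').mul
      ((cu o).sub cm).continuousOn
  · exact (cw.norm.continuousOn.inv₀ fun x hx => norm_ne_zero_iff.2 (hw x hx)).smul
      cw.continuousOn
  · intro y hy
    obtain ⟨o, -, ho⟩ := Finset.exists_mem_eq_inf' Finset.univ_nonempty (u y)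
    refine ⟨⟨fun o => mul_nonneg (inv_nonneg.2 (hs y hy).le) (hm y o), ?_⟩, Finset.univ.erase o,
      fun e => Finset.notMem_erase o Finset.univ (e.symm ▸ Finset.mem_univ o), fun v hv => ?_⟩
    · rw [← Finset.mul_sum]; exact inv_mul_cancel₀ (hs y hy).ne'
    · refine Finset.mem_erase.2 ⟨fun e => hv ?_, Finset.mem_univ _⟩
      simp [m, e, ho]
  · intro y hy
    have h1 : w (fun o => (s y)⁻¹ * (u y o - m y)) = (s y)⁻¹ • y := by
      ext i
      simp only [w, u, Option.elim, PiLp.smul_apply, smul_eq_mul]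
      ring
    simp only [h1]
    rw [norm_smul, mem_sphere_zero_iff_norm.1 hy, smul_smul, Real.norm_eq_abs,
      abs_of_pos (inv_pos.2 (hs y hy)), mul_one, inv_mul_cancel₀ (inv_pos.2 (hs y hy)).ne',
      one_smul]

omit [DecidableEq V] in
theorem homeo_funs {X Y : Type} [TopologicalSpace X] [TopologicalSpace Y] [Inhabited X]
    [Inhabited Y] {S : Set X} {T : Set Y} (h : S ≃ₜ T) :
    ∃ (f : X → Y) (g : Y → X), ContinuousOn f S ∧ ContinuousOn g T ∧ Set.MapsTo f S T ∧
      Set.MapsTo g T S ∧ (∀ x ∈ S, g (f x) = x) ∧ ∀ y ∈ T, f (g y) = y := by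
  classical
  refine ⟨fun x => if hx : x ∈ S then (h ⟨x, hx⟩ : Y) else default,
    fun y => if hy : y ∈ T then (h.symm ⟨y, hy⟩ : X) else default, ?_, ?_, ?_, ?_, ?_, ?_⟩
  · rw [continuousOn_iff_continuous_domRestrict]
    exact (continuous_subtype_val.comp h.continuous).congr fun x => by simp
  · rw [continuousOn_iff_continuous_domRestrict]
    exact (continuous_subtype_val.comp h.symm.continuous).congr fun x => by simp
  · intro x hx; simp [hx]
  · intro x hx; simp [hx]
  · intro x hx; simp [hx]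
  · intro x hx; simp [hx]

variable {Γ : Set (Finset V)} {d : ℕ}

theorem acyc_of_sphere [Nonempty V] (hΓ : ∀ F ∈ Γ, ∀ G ⊆ F, G ∈ Γ) (h0 : ∅ ∈ Γ)
    (h : geom Γ ≃ₜ sphere (0 : EuclideanSpace ℝ (Fin d)) 1) {n : ℕ} (hn : n ≠ d) :
    Acyc K Γ n := by
  obtain ⟨f, g, cf, cg, mf, mg, gf, -⟩ := homeo_funs h
  exact acyc_of_van hΓ h0
    ((van_sphere d n hn).retract (isCompact_geom _) (isCompact_sphere _ _) cf cg mf mg gf)

theorem acyc_cost [Nonempty V] (hΓ : ∀ F ∈ Γ, ∀ G ⊆ F, G ∈ Γ) (h0 : ∅ ∈ Γ)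
    (h : geom Γ ≃ₜ sphere (0 : EuclideanSpace ℝ (Fin d)) 1) {σ : Finset V} (hσ : σ ∈ Γ)
    (hne : σ.Nonempty) (n : ℕ) : Acyc K {τ | τ ∈ Γ ∧ ¬σ ⊆ τ} n := by
  obtain ⟨f, g, cf, cg, mf, mg, gf, fg⟩ := homeo_funs h
  refine acyc_of_van (Γ := {τ | τ ∈ Γ ∧ ¬σ ⊆ τ})
    (fun F hF G hG => ⟨hΓ F hF.1 G hG, fun a => hF.2 (a.trans hG)⟩)
    ⟨h0, fun a => hne.ne_empty (Finset.subset_empty.1 a)⟩ ?_
  set C := geom {τ | τ ∈ Γ ∧ ¬σ ⊆ τ} with hC
  have hc : (0 : ℝ) < σ.card := by exact_mod_cast hne.card_pos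
  let b : V → ℝ := fun v => if v ∈ σ then (σ.card : ℝ)⁻¹ else 0
  have sb : ∑ v, b v = 1 := by
    simp only [b]
    rw [Finset.sum_ite_mem, Finset.univ_inter, Finset.sum_const, nsmul_eq_mul,
      mul_inv_cancel₀ hc.ne']
  have hb : b ∈ geom Γ := ⟨⟨fun v => by simp only [b]; split_ifs <;> positivity, sb⟩, σ, hσ,
    fun v hv => by by_contra h'; simp [b, h'] at hv⟩
  let m : (V → ℝ) → ℝ := fun y => σ.inf' hne y
  let r : (V → ℝ) → V → ℝ := fun y => (1 - σ.card * m y)⁻¹ • (y - (σ.card * m y) • b)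
  have cm : Continuous m := Continuous.finset_inf'_apply _ fun v _ => continuous_apply v
  have hm : ∀ y, ∀ v ∈ σ, m y ≤ y v := fun y v hv => Finset.inf'_le _ hv
  have ht : ∀ y ∈ geom Γ, y ≠ b → 0 < 1 - σ.card * m y := by
    intro y hy hyb
    by_contra! h1
    apply hyb
    have h2 : ∀ v ∈ Finset.univ, b v ≤ y v := by
      intro v _
      simp only [b]
      split_ifs with hv
      · rw [inv_le_iff_one_le_mul₀' hc]
        nlinarith [hm y v hv]
      · exact hy.1.1 v
    have h3 := (Finset.sum_eq_sum_iff_of_le h2).1 (sb.trans hy.1.2.symm)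
    exact funext fun v => (h3 v (Finset.mem_univ v)).symm
  have hr : ∀ y ∈ geom Γ, y ≠ b → r y ∈ C := by
    intro y hy hyb
    have h1 := ht y hy hyb
    obtain ⟨hy1, F, hF, hyF⟩ := hy
    obtain ⟨v0, hv0, hv0'⟩ := Finset.exists_mem_eq_inf' hne y
    have h2 : ∀ v, (y - (σ.card * m y) • b) v = if v ∈ σ then y v - m y else y v := by
      intro v
      simp only [b, Pi.sub_apply, Pi.smul_apply, smul_eq_mul]
      split_ifs
      · field_simp
      · simp
    refine ⟨⟨fun v => ?_, ?_⟩, F.erase v0, ⟨hΓ F hF _ (Finset.erase_subset _ _),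
      fun a => Finset.notMem_erase v0 F (a hv0)⟩, fun v hv => ?_⟩
    · refine mul_nonneg (inv_nonneg.2 h1.le) ?_
      rw [h2]
      split_ifs with hv
      · exact sub_nonneg.2 (hm y v hv)
      · exact hy1.1 v
    · simp only [r, Pi.smul_apply, Pi.sub_apply, smul_eq_mul]
      rw [← Finset.mul_sum, Finset.sum_sub_distrib, ← Finset.mul_sum, sb, hy1.2, mul_one,
        inv_mul_cancel₀ h1.ne']
    · have h3 : (y - (σ.card * m y) • b) v ≠ 0 := fun e => hv (by
        simp only [r, Pi.smul_apply, e, smul_zero])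
      rw [h2] at h3
      refine Finset.mem_erase.2 ⟨fun e => ?_, hyF v fun e => ?_⟩
      · subst e
        simp [hv0, m, hv0'] at h3
      · split_ifs at h3 with hv
        · have a1 := hm y v hv
          have a2 : 0 ≤ m y := by simp only [m]; rw [hv0']; exact hy1.1 v0
          exact h3 (by linarith)
        · exact h3 e
  have hCΓ : C ⊆ geom Γ := fun x ⟨a, F, hF, a'⟩ => ⟨a, F, hF.1, a'⟩
  have hC0 : ∀ x ∈ C, m x = 0 := by
    rintro x ⟨hx, F, hF, hxF⟩
    obtain ⟨v, hv, hvF⟩ := Finset.not_subset.1 hF.2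
    have a1 : x v = 0 := by by_contra h'; exact hvF (hxF v h')
    exact le_antisymm (a1 ▸ hm x v hv) (Finset.le_inf' _ _ fun w _ => hx.1 w)
  have hCb : ∀ x ∈ C, x ≠ b := by
    rintro x hx rfl
    have a1 := hC0 b hx
    obtain ⟨v0, hv0, hv0'⟩ := Finset.exists_mem_eq_inf' hne b
    simp only [m] at a1
    rw [hv0'] at a1
    simp [b, hv0, hne.ne_empty] at a1
  set q := f b with hq
  have hq1 : ‖q‖ = 1 := mem_sphere_zero_iff_norm.1 (mf hb)
  have hgq : ∀ y ∈ sphere (0 : EuclideanSpace ℝ (Fin d)) 1, y ≠ q → g y ≠ b := fun y hy a e =>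
    a (by rw [hq, ← e, fg y hy])
  have hfq : ∀ x ∈ C, f x ≠ q := fun x hx e =>
    hCb x hx (by rw [← gf x (hCΓ hx), e, gf b hb])
  let w : ℝ × (V → ℝ) → EuclideanSpace ℝ (Fin d) := fun z => (1 - z.1) • f z.2 - z.1 • q
  have key : ∀ z ∈ Set.Icc (0 : ℝ) 1 ×ˢ C, ∀ l : ℝ, 0 ≤ l → w z ≠ l • q := by
    rintro ⟨t, x⟩ ⟨⟨t0, t1⟩, hx⟩ l hl e
    have a1 : (1 - t) • f x = (l + t) • q := by
      rw [add_smul, ← e]; simp [w]
    have a2 := congrArg norm a1
    rw [norm_smul, norm_smul, hq1, mem_sphere_zero_iff_norm.1 (mf (hCΓ hx)), Real.norm_eq_abs,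
      Real.norm_eq_abs, abs_of_nonneg (sub_nonneg.2 t1), abs_of_nonneg (add_nonneg hl t0)] at a2
    have t0' : 0 ≤ t := t0
    have a3 : l + t = 1 - t := by linarith
    rw [a3] at a1
    exact hfq x hx (smul_right_injective _ (by intro h'; linarith) a1)
  have hw : ∀ z ∈ Set.Icc (0 : ℝ) 1 ×ˢ C, w z ≠ 0 := fun z hz e =>
    key z hz 0 le_rfl (by rw [e, zero_smul])
  have hw' : ∀ z ∈ Set.Icc (0 : ℝ) 1 ×ˢ C, ‖w z‖⁻¹ • w z ≠ q := fun z hz e =>
    key z hz ‖w z‖ (norm_nonneg _) (by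
      rw [← e, smul_smul, mul_inv_cancel₀ (norm_ne_zero_iff.2 (hw z hz)), one_smul])
  have cw : ContinuousOn w (Set.Icc (0 : ℝ) 1 ×ˢ C) :=
    ((continuousOn_const.sub continuousOn_fst).smul
      (cf.comp continuousOn_snd fun z hz => hCΓ hz.2)).sub (continuousOn_fst.smul continuousOn_const)
  have cr : ContinuousOn r {y | y ∈ geom Γ ∧ y ≠ b} :=
    (((continuous_const.sub (continuous_const.mul cm)).continuousOn).inv₀
      fun y hy => (ht y hy.1 hy.2).ne').smul
      (continuous_id.sub ((continuous_const.mul cm).smul continuous_const)).continuousOn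
  have hnq : -q ∈ sphere (0 : EuclideanSpace ℝ (Fin d)) 1 := by simp [hq1]
  refine van_of_contraction (isCompact_geom _) (fun z => r (g (‖w z‖⁻¹ • w z))) ?_ ?_ ?_
    (p := r (g (-q))) (hr _ (mg hnq) (hgq _ hnq fun e => ?_)) ?_ n
  · refine cr.comp (cg.comp ((cw.norm.inv₀ fun z hz => norm_ne_zero_iff.2 (hw z hz)).smul cw)
      fun z hz => norm_normalize (hw z hz)) fun z hz =>
        ⟨mg (norm_normalize (hw z hz)), hgq _ (norm_normalize (hw z hz)) (hw' z hz)⟩
  · exact fun z hz => hr _ (mg (norm_normalize (hw z hz)))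
      (hgq _ (norm_normalize (hw z hz)) (hw' z hz))
  · intro x hx
    simp [w, mem_sphere_zero_iff_norm.1 (mf (hCΓ hx)), gf x (hCΓ hx), r, hC0 x hx]
  · have : q = 0 := by
      have h2 : (2 : ℝ) • q = 0 := by rw [two_smul]; nth_rw 1 [← e]; simp
      simpa using h2
    simp [this] at hq1
  · intro x _
    simp [w, hq1]

end

end Pool.Agent.P.MP_233bd3_co
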